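import Mathlib

/-! Exponents, weights, jets in the layered form used for the interpolation argument. -/

namespace Pool.Agent.Helper46.EAH

open Finset Polynomial

/-- Exponent vectors in `n` variables; the first entry belongs to the last variable. -/
def E : ℕ → Type
  | 0 => Unit
  | (n+1) => ℕ × E n

instance decEqE : ∀ n, DecidableEq (E n)
  | 0 => inferInstanceAs (DecidableEq Unit)
  | (n+1) =>
      haveI := decEqE n
      inferInstanceAs (DecidableEq (ℕ × E n))

/-- total degree -/
def sz : ∀ n, E n → ℕ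
  | 0, _ => 0
  | (n+1), a => a.1 + sz n a.2

/-- the zero exponent -/
def zE : ∀ n, E n
  | 0 => ()
  | (n+1) => (0, zE n)

lemma sz_zE : ∀ n, sz n (zE n) = 0
  | 0 => rfl
  | (n+1) => by simp [sz, zE, sz_zE n]

lemma eq_zE_of_sz : ∀ n (a : E n), sz n a = 0 → a = zE n
  | 0, _, _ => rfl
  | (n+1), a, h => by
      obtain ⟨j, a⟩ := a
      simp only [sz] at h
      have h1 : j = 0 := by omega
      have h2 : sz n a = 0 := by omega
      rw [eq_zE_of_sz n a h2, h1]; rfl

/-- exponents of degree at most `d` -/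
def Box : ∀ n, ℕ → Finset (E n)
  | 0, _ => {()}
  | (n+1), d => (range (d+1)).biUnion fun j => (Box n (d-j)).image (fun a => ((j, a) : E (n+1)))

lemma mem_Box : ∀ n d (a : E n), a ∈ Box n d ↔ sz n a ≤ d
  | 0, d, a => by
      simp only [Box, sz, Nat.zero_le, iff_true]
      exact mem_singleton.2 rfl
  | (n+1), d, a => by
      obtain ⟨j, a⟩ := a
      simp only [Box, mem_biUnion, mem_range, mem_image, sz]
      constructor
      · rintro ⟨j', hj', a', ha', h⟩
        have h1 : j' = j := congrArg Prod.fst h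
        have h2 : a' = a := congrArg Prod.snd h
        subst h1; subst h2
        rw [mem_Box n] at ha'
        omega
      · intro h
        exact ⟨j, by omega, a, (mem_Box n _ _).2 (by omega), rfl⟩

lemma sum_Box {M : Type*} [AddCommMonoid M] (n d : ℕ) (F : E (n+1) → M) :
    ∑ x ∈ Box (n+1) d, F x = ∑ j ∈ range (d+1), ∑ a ∈ Box n (d-j), F (j, a) := by
  rw [Box, sum_biUnion]
  · refine sum_congr rfl fun j _ => ?_
    rw [sum_image]
    intro a _ b _ h
    exact congrArg Prod.snd h
  · intro i _ j _ hij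
    rw [Function.onFun, disjoint_left]
    intro x hx hy
    rw [mem_image] at hx hy
    obtain ⟨a, _, rfl⟩ := hx
    obtain ⟨b, _, hb⟩ := hy
    exact hij (congrArg Prod.fst hb).symm

/-- jet coefficient of a monomial -/
def cw {R : Type*} [CommSemiring R] : ∀ n, (ℕ → R) → E n → E n → R
  | 0, _, _, _ => 1
  | (n+1), P, α, a => (Nat.choose a.1 α.1 : R) * P n ^ (a.1 - α.1) * cw n P α.2 a.2

/-- the jet functional on polynomials of degree at most `d` -/
def Phi {R : Type*} [CommSemiring R] (n d : ℕ) (P : ℕ → R) (α : E n) (c : E n → R) : R :=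
  ∑ a ∈ Box n d, cw n P α a * c a

lemma cw_map {R S : Type*} [CommSemiring R] [CommSemiring S] (f : R →+* S) :
    ∀ n (P : ℕ → R) (α a : E n), f (cw n P α a) = cw n (fun i => f (P i)) α a
  | 0, _, _, _ => by simp [cw]
  | (n+1), P, α, a => by simp [cw, cw_map f n]

lemma Phi_map {R S : Type*} [CommSemiring R] [CommSemiring S] (f : R →+* S)
    (n d : ℕ) (P : ℕ → R) (α : E n) (c : E n → R) :
    f (Phi n d P α c) = Phi n d (fun i => f (P i)) α (fun a => f (c a)) := by
  simp [Phi, map_sum, cw_map]

lemma cw_congr {R : Type*} [CommSemiring R] :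
    ∀ n (P P' : ℕ → R), (∀ i < n, P i = P' i) → ∀ (α a : E n), cw n P α a = cw n P' α a
  | 0, _, _, _, _, _ => rfl
  | (n+1), P, P', h, α, a => by
      simp only [cw]
      rw [h n (by omega), cw_congr n P P' (fun i hi => h i (by omega))]

lemma Phi_congr {R : Type*} [CommSemiring R] (n d : ℕ) (P P' : ℕ → R) (h : ∀ i < n, P i = P' i)
    (α : E n) (c c' : E n → R) (hc : ∀ a ∈ Box n d, c a = c' a) :
    Phi n d P α c = Phi n d P' α c' := by
  refine sum_congr rfl fun a ha => ?_
  rw [cw_congr n P P' h, hc a ha]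

lemma Phi_add {R : Type*} [CommSemiring R] (n d : ℕ) (P : ℕ → R) (α : E n) (c c' : E n → R) :
    Phi n d P α (fun a => c a + c' a) = Phi n d P α c + Phi n d P α c' := by
  simp [Phi, mul_add, sum_add_distrib]

lemma Phi_smul {R : Type*} [CommSemiring R] (n d : ℕ) (P : ℕ → R) (α : E n) (r : R) (c : E n → R) :
    Phi n d P α (fun a => r * c a) = r * Phi n d P α c := by
  simp only [Phi, mul_sum]
  refine sum_congr rfl fun a _ => ?_
  ring

lemma Phi_zero {R : Type*} [CommSemiring R] (n d : ℕ) (P : ℕ → R) (α : E n) (c : E n → R)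
    (hc : ∀ a ∈ Box n d, c a = 0) : Phi n d P α c = 0 := by
  refine sum_eq_zero fun a ha => ?_
  rw [hc a ha, mul_zero]

/-- the polynomial in the last variable obtained by applying a jet functional to the layers -/
noncomputable def gp {R : Type*} [CommSemiring R] (n d : ℕ) (P : ℕ → R) (α : E n)
    (c : E (n+1) → R) : R[X] :=
  ∑ j ∈ range (d+1), monomial j (Phi n (d-j) P α (fun a => c (j, a)))

lemma gp_coeff {R : Type*} [CommSemiring R] (n d : ℕ) (P : ℕ → R) (α : E n)
    (c : E (n+1) → R) (j : ℕ) :
    (gp n d P α c).coeff j = if j ≤ d then Phi n (d-j) P α (fun a => c (j, a)) else 0 := by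
  simp only [gp, finsetSum_coeff, coeff_monomial]
  by_cases h : j ≤ d
  · rw [sum_ite_eq' (range (d+1)) j]
    simp [h, Nat.lt_succ_of_le h]
  · rw [if_neg h]
    refine sum_eq_zero fun i hi => ?_
    rw [mem_range] at hi
    rw [if_neg (by omega)]

lemma Phi_succ {R : Type*} [CommSemiring R] (n d : ℕ) (P : ℕ → R) (α : E (n+1))
    (c : E (n+1) → R) :
    Phi (n+1) d P α c = (hasseDeriv α.1 (gp n d P α.2 c)).eval (P n) := by
  rw [Phi, sum_Box, gp, map_sum, eval_finsetSum]
  refine sum_congr rfl fun j _ => ?_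
  rw [hasseDeriv_monomial, eval_monomial, Phi, mul_sum, sum_mul]
  refine sum_congr rfl fun a _ => ?_
  simp only [cw]
  ring

lemma Phi_succ_forall_iff {R : Type*} [CommRing R] (n d : ℕ) (P : ℕ → R) (α : E n)
    (c : E (n+1) → R) (ℓ : ℕ) :
    (∀ s < ℓ, Phi (n+1) d P ((s, α) : E (n+1)) c = 0) ↔ (X - C (P n)) ^ ℓ ∣ gp n d P α c := by
  rw [X_sub_C_pow_dvd_iff, ← taylor_apply, X_pow_dvd_iff]
  refine forall_congr' fun s => ?_
  rw [taylor_coeff, Phi_succ]

lemma gp_map {R S : Type*} [CommSemiring R] [CommSemiring S] (f : R →+* S)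
    (n d : ℕ) (P : ℕ → R) (α : E n) (c : E (n+1) → R) :
    (gp n d P α c).map f = gp n d (fun i => f (P i)) α (fun a => f (c a)) := by
  ext j
  rw [coeff_map, gp_coeff, gp_coeff]
  split_ifs
  · rw [Phi_map]
  · simp

/-- peeling off the bottom layer -/
lemma gp_succ {R : Type*} [CommSemiring R] (n d : ℕ) (P : ℕ → R) (α : E n) (c : E (n+1) → R) :
    gp n (d+1) P α c = C (Phi n (d+1) P α (fun a => c (0, a)))
      + X * gp n d P α (fun a => c (a.1 + 1, a.2)) := by
  ext j
  rw [coeff_add]
  cases j with
  | zero => simp [gp_coeff]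
  | succ j =>
    rw [coeff_X_mul, gp_coeff, gp_coeff, coeff_C_succ, zero_add]
    simp only [Nat.add_sub_add_right, add_le_add_iff_right]

/-- number of exponents of degree less than `a` -/
def N (n a : ℕ) : ℕ := if a = 0 then 0 else (n + a - 1).choose n

lemma N_zero (n : ℕ) : N n 0 = 0 := by simp [N]

lemma N_succ (n a : ℕ) : N n (a+1) = (n + a).choose n := by simp [N]

lemma N_one (n : ℕ) : N n 1 = 1 := by simp [N]

lemma N_rec (n a : ℕ) : N (n+1) (a+1) = N (n+1) a + N n (a+1) := by
  rw [N_succ, N_succ]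
  cases a with
  | zero => simp [N_zero]
  | succ a =>
    rw [N_succ, show n + 1 + (a + 1) = (n + 1 + a) + 1 by ring, Nat.choose_succ_succ]
    rw [show n + (a + 1) = n + 1 + a by ring]
    ring

lemma N_ratio (n a : ℕ) : (a + n) * N n a = a * N n (a+1) := by
  cases a with
  | zero => simp [N_zero]
  | succ a =>
    rw [N_succ, N_succ]
    have h := Nat.add_one_mul_choose_eq (n + a) n
    have h2 : (n + (a + 1)).choose n * (n + (a+1) - n) = (n + (a+1)).choose (n+1) * (n+1) := by
      rw [Nat.choose_succ_right_eq]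
    have h3 : n + (a + 1) - n = a + 1 := by omega
    rw [h3] at h2
    have h4 : n + a + 1 = n + (a+1) := by omega
    rw [h4] at h
    calc (a + 1 + n) * (n + a).choose n = (n + (a+1)) * (n+a).choose n := by ring
      _ = (n + (a+1)).choose (n+1) * (n+1) := h
      _ = (n + (a + 1)).choose n * (a+1) := h2.symm
      _ = (a + 1) * (n + (a + 1)).choose n := by ring

lemma N_mono {n a b : ℕ} (h : a ≤ b) : N n a ≤ N n b := by
  cases a with
  | zero => simp [N_zero]
  | succ a =>
    cases b with
    | zero => omega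
    | succ b =>
      rw [N_succ, N_succ]
      exact Nat.choose_le_choose _ (by omega)

lemma card_Box : ∀ n d, (Box n d).card = N n (d+1)
  | 0, d => by
      rw [N_succ]
      simp only [zero_add, Nat.choose_zero_right]
      exact card_singleton _
  | (n+1), d => by
      have key : ∀ d, ∑ j ∈ range (d+1), N n (d - j + 1) = N (n+1) (d+1) := by
        intro d
        induction d with
        | zero => simp [N_one]
        | succ d ih =>
          rw [sum_range_succ', N_rec, ← ih]
          congr 1
          refine sum_congr rfl fun j _ => ?_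
          rw [Nat.add_sub_add_right]
      have h := sum_Box n d (fun _ => (1 : ℕ))
      rw [sum_const, smul_eq_mul, mul_one] at h
      rw [h, ← key d]
      refine sum_congr rfl fun j _ => ?_
      rw [sum_const, smul_eq_mul, mul_one, card_Box n]

end Pool.Agent.Helper46.EAH
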