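import Mathlib
import Pool.Agent.Helper46.EAH.Basic

/-! Semicontinuity: trivial kernel at one point of parameter space gives a nonzero minor. -/

namespace Pool.Agent.Helper46.EAH

open Finset

theorem exists_det_ne_zero {R C A L : Type*} [Fintype C] [DecidableEq C] [CommRing A] [Field L]
    (φ : A →+* L) (M : R → C → A)
    (h : ∀ v : C → L, (∀ r, ∑ c, φ (M r c) * v c = 0) → v = 0) :
    ∃ e : C → R, φ (Matrix.det (Matrix.of fun i j => M (e i) j)) ≠ 0 := by
  classical
  set w : R → (C → L) := fun r c => φ (M r c) with hw
  have hspan : Submodule.span L (Set.range w) = ⊤ := by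
    by_contra hne
    obtain ⟨f, hf0, hf⟩ := Submodule.exists_le_ker_of_lt_top _ (lt_top_iff_ne_top.2 hne)
    apply hf0
    have key := LinearMap.pi_apply_eq_sum_univ f
    have hv : (fun c => f (fun j => if c = j then 1 else 0)) = (0 : C → L) := by
      apply h
      intro r
      have h1 : w r ∈ LinearMap.ker f := hf (Submodule.subset_span ⟨r, rfl⟩)
      rw [LinearMap.mem_ker, key] at h1
      exact h1
    apply LinearMap.ext
    intro x
    rw [key]
    refine sum_eq_zero fun c _ => ?_
    have := congrFun hv c
    simp only [Pi.zero_apply] at this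
    rw [this, smul_zero]
  obtain ⟨b, hb, hbspan, hli⟩ := exists_linearIndependent L (Set.range w)
  rw [hspan] at hbspan
  let B : Module.Basis b L (C → L) := Module.Basis.mk hli (by rw [Subtype.range_coe, hbspan])
  haveI : Finite b := Module.Finite.finite_basis B
  haveI : Fintype b := Fintype.ofFinite b
  have hcard : Fintype.card C = Fintype.card b := by
    rw [← Module.finrank_eq_card_basis B, Module.finrank_fintype_fun_eq_card]
  let q : C ≃ b := Fintype.equivOfCardEq hcard
  have hex : ∀ c : C, ∃ r, w r = (q c : C → L) := fun c => hb (q c).2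
  choose e he using hex
  refine ⟨e, ?_⟩
  rw [RingHom.map_det]
  have hrows : LinearIndependent L (φ.mapMatrix (Matrix.of fun i j => M (e i) j)).row := by
    have h1 : LinearIndependent L (fun c : C => (q c : C → L)) :=
      hli.comp q q.injective
    convert h1 using 1
    ext i j
    rw [← he i]
    rfl
  rw [Matrix.linearIndependent_rows_iff_isUnit, Matrix.isUnit_iff_isUnit_det] at hrows
  exact hrows.ne_zero

theorem kernel_of_det {R C A K : Type*} [Fintype C] [DecidableEq C] [CommRing A] [Field K]
    (ι : A →+* K) (M : R → C → A) (e : C → R)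
    (h : ι (Matrix.det (Matrix.of fun i j => M (e i) j)) ≠ 0)
    (v : C → K) (hv : ∀ r, ∑ c, ι (M r c) * v c = 0) : v = 0 := by
  rw [RingHom.map_det] at h
  refine Matrix.eq_zero_of_mulVec_eq_zero h ?_
  ext i
  simpa [Matrix.mulVec, dotProduct] using hv (e i)

/-- trivial kernel at a special point implies trivial kernel at the generic point -/
theorem kernel_generic {R C A L K : Type*} [Fintype C] [DecidableEq C] [CommRing A] [Field L]
    [Field K] (φ : A →+* L) (ι : A →+* K) (hι : Function.Injective ι) (M : R → C → A)
    (h : ∀ v : C → L, (∀ r, ∑ c, φ (M r c) * v c = 0) → v = 0)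
    (v : C → K) (hv : ∀ r, ∑ c, ι (M r c) * v c = 0) : v = 0 := by
  obtain ⟨e, he⟩ := exists_det_ne_zero φ M h
  refine kernel_of_det ι M e ?_ v hv
  intro h0
  apply he
  have : Matrix.det (Matrix.of fun i j => M (e i) j) = 0 := hι (by rw [h0, map_zero])
  rw [this, map_zero]

end Pool.Agent.Helper46.EAH
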