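import Mathlib
import Pool.Agent.Helper46.EAH.Special

/-! States of the layered argument and the generic configuration. -/

namespace Pool.Agent.Helper46.EAH

open Finset

/-- status of a labelled point: free of multiplicity `μ`, or attached to the hyperplane with
layer multiplicities `L 0, L 1, ...` -/
inductive St
  | F (μ : ℕ) : St
  | H (L : ℕ → ℕ) : St

/-- conditions attached to a status -/
def Cond {R : Type*} [CommSemiring R] (n d : ℕ) (P : ℕ → R) : St → (E (n+1) → R) → Prop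
  | .F μ, c => ∀ β : E (n+1), sz (n+1) β < μ → Phi (n+1) d P β c = 0
  | .H L, c => ∀ j ≤ d, ∀ α : E n, sz n α < L j →
      Phi n (d-j) P α (fun x => c ((j, x) : E (n+1))) = 0

variable (k : Type) [Field k]

/-- field of the generic configuration -/
abbrev Gen : Type := FractionRing (MvPolynomial (ℕ × ℕ) k)

/-- the generic configuration -/
noncomputable def gen (i j : ℕ) : Gen k :=
  algebraMap (MvPolynomial (ℕ × ℕ) k) (Gen k) (MvPolynomial.X (i, j))

/-- the state has trivial kernel at the generic configuration -/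
def SInj (n d : ℕ) (S : Finset ℕ) (σ : ℕ → St) : Prop :=
  ∀ c : E (n+1) → Gen k, (∀ i ∈ S, Cond n d (gen k i) (σ i) c) → ∀ x ∈ Box (n+1) d, c x = 0

open Classical in
/-- rows of the condition matrix, attached points -/
noncomputable def rowH (n d : ℕ) (S : Finset ℕ) (σ : ℕ → St) (p : ℕ × ℕ × E n)
    (x : E (n+1)) : MvPolynomial (ℕ × ℕ) k :=
  if (p.1 ∈ S ∧ ∃ L, σ p.1 = .H L ∧ p.2.1 ≤ d ∧ sz n p.2.2 < L p.2.1)
      ∧ x.1 = p.2.1 then
    cw n (fun t => MvPolynomial.X (p.1, t)) p.2.2 x.2 else 0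

open Classical in
/-- rows of the condition matrix, free points -/
noncomputable def rowF (n _d : ℕ) (S : Finset ℕ) (σ : ℕ → St) (p : ℕ × E (n+1))
    (x : E (n+1)) : MvPolynomial (ℕ × ℕ) k :=
  if p.1 ∈ S ∧ ∃ μ, σ p.1 = .F μ ∧ sz (n+1) p.2 < μ then
    cw (n+1) (fun t => MvPolynomial.X (p.1, t)) p.2 x else 0

/-- rows of the condition matrix -/
noncomputable def rowM (n d : ℕ) (S : Finset ℕ) (σ : ℕ → St) :
    ((ℕ × ℕ × E n) ⊕ (ℕ × E (n+1))) → E (n+1) → MvPolynomial (ℕ × ℕ) k :=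
  Sum.elim (rowH k n d S σ) (rowF k n d S σ)

variable {k}

lemma rowM_inl {L : Type*} [CommRing L] (φ : MvPolynomial (ℕ × ℕ) k →+* L)
    (n d : ℕ) (S : Finset ℕ) (σ : ℕ → St) (i j : ℕ) (α : E n) (c : E (n+1) → L)
    (h : i ∈ S ∧ ∃ L, σ i = .H L ∧ j ≤ d ∧ sz n α < L j) :
    ∑ x ∈ Box (n+1) d, φ (rowM k n d S σ (.inl (i, j, α)) x) * c x =
      Phi n (d-j) (fun t => φ (MvPolynomial.X (i, t))) α (fun x => c ((j, x) : E (n+1))) := by
  classical
  have hj : j ≤ d := by obtain ⟨_, L, _, hj, _⟩ := h; exact hj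
  rw [sum_Box, sum_eq_single_of_mem j (mem_range.2 (by omega))]
  · rw [Phi]
    refine sum_congr rfl fun a _ => ?_
    rw [rowM, Sum.elim_inl, rowH, if_pos ⟨h, rfl⟩, cw_map]
  · intro j' _ hne
    refine sum_eq_zero fun a _ => ?_
    rw [rowM, Sum.elim_inl, rowH, if_neg (fun hh => hne hh.2), map_zero, zero_mul]

lemma rowM_inl_neg {L : Type*} [CommRing L] (φ : MvPolynomial (ℕ × ℕ) k →+* L)
    (n d : ℕ) (S : Finset ℕ) (σ : ℕ → St) (i j : ℕ) (α : E n) (c : E (n+1) → L)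
    (h : ¬ (i ∈ S ∧ ∃ L, σ i = .H L ∧ j ≤ d ∧ sz n α < L j)) :
    ∑ x ∈ Box (n+1) d, φ (rowM k n d S σ (.inl (i, j, α)) x) * c x = 0 := by
  classical
  refine sum_eq_zero fun a _ => ?_
  rw [rowM, Sum.elim_inl, rowH, if_neg (fun hh => h hh.1), map_zero, zero_mul]

lemma rowM_inr {L : Type*} [CommRing L] (φ : MvPolynomial (ℕ × ℕ) k →+* L)
    (n d : ℕ) (S : Finset ℕ) (σ : ℕ → St) (i : ℕ) (β : E (n+1)) (c : E (n+1) → L)
    (h : i ∈ S ∧ ∃ μ, σ i = .F μ ∧ sz (n+1) β < μ) :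
    ∑ x ∈ Box (n+1) d, φ (rowM k n d S σ (.inr (i, β)) x) * c x =
      Phi (n+1) d (fun t => φ (MvPolynomial.X (i, t))) β c := by
  classical
  rw [Phi]
  refine sum_congr rfl fun a _ => ?_
  rw [rowM, Sum.elim_inr, rowF, if_pos h, cw_map]

lemma rowM_inr_neg {L : Type*} [CommRing L] (φ : MvPolynomial (ℕ × ℕ) k →+* L)
    (n d : ℕ) (S : Finset ℕ) (σ : ℕ → St) (i : ℕ) (β : E (n+1)) (c : E (n+1) → L)
    (h : ¬ (i ∈ S ∧ ∃ μ, σ i = .F μ ∧ sz (n+1) β < μ)) :
    ∑ x ∈ Box (n+1) d, φ (rowM k n d S σ (.inr (i, β)) x) * c x = 0 := by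
  classical
  refine sum_eq_zero fun a _ => ?_
  rw [rowM, Sum.elim_inr, rowF, if_neg h, map_zero, zero_mul]

/-- the conditions are the vanishing of all rows -/
lemma cond_iff_rows {L : Type*} [CommRing L] (φ : MvPolynomial (ℕ × ℕ) k →+* L)
    (n d : ℕ) (S : Finset ℕ) (σ : ℕ → St) (c : E (n+1) → L) :
    (∀ i ∈ S, Cond n d (fun t => φ (MvPolynomial.X (i, t))) (σ i) c) ↔
      ∀ r, ∑ x ∈ Box (n+1) d, φ (rowM k n d S σ r x) * c x = 0 := by
  classical
  constructor
  · intro h r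
    rcases r with ⟨i, j, α⟩ | ⟨i, β⟩
    · by_cases hr : i ∈ S ∧ ∃ L, σ i = .H L ∧ j ≤ d ∧ sz n α < L j
      · rw [rowM_inl φ n d S σ i j α c hr]
        obtain ⟨hi, L, hσ, h1, h3⟩ := hr
        have := h i hi
        rw [hσ] at this
        exact this j h1 α h3
      · exact rowM_inl_neg φ n d S σ i j α c hr
    · by_cases hr : i ∈ S ∧ ∃ μ, σ i = .F μ ∧ sz (n+1) β < μ
      · rw [rowM_inr φ n d S σ i β c hr]
        obtain ⟨hi, μ, hσ, h1⟩ := hr
        have := h i hi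
        rw [hσ] at this
        exact this β h1
      · exact rowM_inr_neg φ n d S σ i β c hr
  · intro h i hi
    match hσ : σ i with
    | .F μ =>
      intro β hβ
      have := h (.inr (i, β))
      rwa [rowM_inr φ n d S σ i β c ⟨hi, μ, hσ, hβ⟩] at this
    | .H L =>
      intro j h1 α h3
      have := h (.inl (i, j, α))
      rwa [rowM_inl φ n d S σ i j α c ⟨hi, L, hσ, h1, h3⟩] at this

theorem SInj_of_special {L : Type*} [Field L] [Algebra k L] (n d : ℕ) (S : Finset ℕ) (σ : ℕ → St)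
    (Q : ℕ → ℕ → L)
    (h : ∀ c : E (n+1) → L, (∀ i ∈ S, Cond n d (Q i) (σ i) c) → ∀ x ∈ Box (n+1) d, c x = 0) :
    SInj k n d S σ := by
  classical
  intro c hc
  let φ : MvPolynomial (ℕ × ℕ) k →+* L :=
    (MvPolynomial.aeval (fun p : ℕ × ℕ => Q p.1 p.2) : MvPolynomial (ℕ × ℕ) k →ₐ[k] L)
  have hφ : ∀ i t, φ (MvPolynomial.X (i, t)) = Q i t := by
    intro i t
    exact MvPolynomial.aeval_X _ _
  let ι : MvPolynomial (ℕ × ℕ) k →+* Gen k := algebraMap _ _
  have hι : Function.Injective ι := IsFractionRing.injective _ _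
  have key := kernel_generic (C := {x // x ∈ Box (n+1) d}) φ ι hι
    (fun r x => rowM k n d S σ r x.1) ?_ (fun x => c x.1) ?_
  · intro x hx
    exact congrFun key ⟨x, hx⟩
  · intro v hv
    let c' : E (n+1) → L := fun x => if hx : x ∈ Box (n+1) d then v ⟨x, hx⟩ else 0
    have hcv : ∀ x : {x // x ∈ Box (n+1) d}, v x = c' x.1 := by
      intro x
      simp only [c']
      rw [dif_pos x.2]
    have h0 := h c' ?_
    · ext x
      rw [hcv x, h0 x.1 x.2]
      rfl
    · have hh := (cond_iff_rows φ n d S σ c').2 ?_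
      · intro i hi
        have := hh i hi
        simp only [hφ] at this
        exact this
      · intro r
        rw [← hv r, ← Finset.sum_coe_sort]
        refine sum_congr rfl fun x _ => ?_
        rw [hcv x]
  · intro r
    have hh := (cond_iff_rows ι n d S σ c).1 (fun i hi => hc i hi) r
    rw [← Finset.sum_coe_sort] at hh
    exact hh

end Pool.Agent.Helper46.EAH
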