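import Mathlib
import Pool.Agent.Helper46.EAH.State

/-! The differential peeling lemma. -/

namespace Pool.Agent.Helper46.EAH

open Finset Polynomial

/-- multiplicity of the trace on the peeled layer; the choice `v = 0` leaves a free point free,
the choice `v ≥ 1` attaches it to the hyperplane with first trace `v` -/
def tr : St → ℕ → ℕ
  | .H L, _ => L 0
  | .F _, v => v

/-- the layers left after the trace `v` of a point of multiplicity `μ` has been used -/
def rest (μ v : ℕ) (j : ℕ) : ℕ := if j < μ - v then μ - j else μ - j - 1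

/-- status after peeling -/
def nx : St → ℕ → St
  | .H L, _ => .H (fun j => L (j+1))
  | .F μ, v => if v = 0 then .F μ else .H (rest μ v)

section cond

variable {R S : Type*} [CommRing R] [CommRing S]

lemma Cond_congr (n d : ℕ) (P : ℕ → R) (st : St) (c c' : E (n+1) → R)
    (h : ∀ x ∈ Box (n+1) d, c x = c' x) (hc : Cond n d P st c) : Cond n d P st c' := by
  match st with
  | .F μ =>
    intro β hβ
    rw [← hc β hβ]
    exact Phi_congr _ _ _ _ (fun _ _ => rfl) _ _ _ (fun a ha => (h a ha).symm)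
  | .H L =>
    intro j hj α hα
    rw [← hc j hj α hα]
    refine Phi_congr _ _ _ _ (fun _ _ => rfl) _ _ _ (fun x hx => (h _ ?_).symm)
    rw [mem_Box] at hx ⊢
    simp only [sz]
    omega

lemma Cond_smul (n d : ℕ) (P : ℕ → R) (st : St) (r : R) (c : E (n+1) → R)
    (hc : Cond n d P st c) : Cond n d P st (fun x => r * c x) := by
  match st with
  | .F μ =>
    intro β hβ
    rw [Phi_smul, hc β hβ, mul_zero]
  | .H L =>
    intro j hj α hα
    rw [Phi_smul, hc j hj α hα, mul_zero]

lemma Cond_map (f : R →+* S) (n d : ℕ) (P : ℕ → R) (st : St) (c : E (n+1) → R)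
    (hc : Cond n d P st c) : Cond n d (fun i => f (P i)) st (fun x => f (c x)) := by
  match st with
  | .F μ =>
    intro β hβ
    rw [← Phi_map, hc β hβ, map_zero]
  | .H L =>
    intro j hj α hα
    rw [← Phi_map f n (d-j) P α (fun x => c ((j, x) : E (n+1))), hc j hj α hα, map_zero]

lemma Cond_of_map (f : R →+* S) (hf : Function.Injective f) (n d : ℕ) (P : ℕ → R) (st : St)
    (c : E (n+1) → R) (hc : Cond n d (fun i => f (P i)) st (fun x => f (c x))) :
    Cond n d P st c := by
  match st with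
  | .F μ =>
    intro β hβ
    apply hf
    rw [Phi_map, hc β hβ, map_zero]
  | .H L =>
    intro j hj α hα
    apply hf
    rw [Phi_map f n (d-j) P α (fun x => c ((j, x) : E (n+1))), hc j hj α hα, map_zero]

end cond

/-- clearing denominators and powers of the parameter -/
lemma clear_denoms {K L ι : Type*} [Field K] [Field L] [Algebra K[X] L] [IsFractionRing K[X] L]
    (B : Finset ι) (cL : ι → L) (hne : ∃ x ∈ B, cL x ≠ 0) :
    ∃ (c : ι → K[X]) (u : L), (∀ x ∈ B, algebraMap K[X] L (c x) = u * cL x) ∧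
      ∃ x ∈ B, (c x).coeff 0 ≠ 0 := by
  classical
  obtain ⟨b, hb⟩ := IsLocalization.exist_integer_multiples_of_finset
    (nonZeroDivisors K[X]) (B.image cL)
  have hb' : ∀ x ∈ B, ∃ y, algebraMap K[X] L y = algebraMap K[X] L b * cL x := by
    intro x hx
    obtain ⟨y, hy⟩ := hb (cL x) (mem_image_of_mem _ hx)
    exact ⟨y, by rw [hy, Algebra.smul_def]⟩
  choose! c1 hc1 using hb'
  have hb0 : algebraMap K[X] L b ≠ 0 := by
    intro h0
    exact nonZeroDivisors.ne_zero b.2 ((IsFractionRing.injective K[X] L) (by rw [h0, map_zero]))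
  obtain ⟨x0, hx0, hne⟩ := hne
  have hc10 : c1 x0 ≠ 0 := by
    intro h0
    have := hc1 x0 hx0
    rw [h0, map_zero] at this
    exact (mul_ne_zero hb0 hne) this.symm
  have hex : ∃ v, ¬ ∀ x ∈ B, X ^ v ∣ c1 x := by
    refine ⟨(c1 x0).natDegree + 1, fun h => ?_⟩
    have h1 := natDegree_le_of_dvd (h x0 hx0) hc10
    rw [natDegree_X_pow] at h1
    omega
  obtain ⟨v1, hspec, hmin⟩ : ∃ v1, (¬ ∀ x ∈ B, X ^ v1 ∣ c1 x) ∧
      ∀ m < v1, ¬ ¬ ∀ x ∈ B, X ^ m ∣ c1 x :=
    ⟨Nat.find hex, Nat.find_spec hex, fun m hm => Nat.find_min hex hm⟩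
  have hv1pos : 0 < v1 := by
    rcases Nat.eq_zero_or_pos v1 with h | h
    · exfalso
      apply hspec
      intro x _
      rw [h, pow_zero]
      exact one_dvd _
    · exact h
  have hall : ∀ x ∈ B, X ^ (v1 - 1) ∣ c1 x := by
    by_contra hcon
    exact hmin (v1 - 1) (by omega) hcon
  choose! c2 hc2 using hall
  have hX : algebraMap K[X] L (X ^ (v1 - 1)) ≠ 0 := by
    intro h0
    have : (X ^ (v1 - 1) : K[X]) = 0 := (IsFractionRing.injective K[X] L) (by rw [h0, map_zero])
    exact pow_ne_zero _ X_ne_zero this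
  refine ⟨c2, algebraMap K[X] L b / algebraMap K[X] L (X ^ (v1 - 1)), ?_, ?_⟩
  · intro x hx
    rw [div_mul_eq_mul_div, eq_div_iff hX, ← hc1 x hx, hc2 x hx, map_mul]
    ring
  · by_contra hcon
    push Not at hcon
    apply hspec
    intro x hx
    have hd : X ∣ c2 x := X_dvd_iff.2 (hcon x hx)
    rw [hc2 x hx, show v1 = (v1 - 1) + 1 by omega, pow_succ]
    exact mul_dvd_mul_left _ hd

variable {k : Type} [Field k]

lemma gen_ne_zero (i j : ℕ) : gen k i j ≠ 0 := by
  intro h
  have h2 : (MvPolynomial.X (i, j) : MvPolynomial (ℕ × ℕ) k) = 0 :=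
    (IsFractionRing.injective (MvPolynomial (ℕ × ℕ) k) (Gen k)) (by rw [map_zero]; exact h)
  exact MvPolynomial.X_ne_zero _ h2

/-- last coordinate in the special configuration -/
noncomputable def zc {K : Type*} [Field K] (z : K) (W : ℕ) : St → ℕ → K[X]
  | .F μ, v => if v = 0 then C z else X ^ (W / (μ - v + 1))
  | .H _, _ => C z

/-- special configuration -/
noncomputable def Qc {K : Type*} [Field K] (g : ℕ → ℕ → K) (W n : ℕ) (σ : ℕ → St) (t : ℕ → ℕ)
    (i j : ℕ) : K[X] :=
  if j = n then zc (g i n) W (σ i) (t i) else C (g i j)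

lemma Qc_lt {K : Type*} [Field K] (g : ℕ → ℕ → K) (W n : ℕ) (σ : ℕ → St) (t : ℕ → ℕ)
    (i j : ℕ) (hj : j < n) : Qc g W n σ t i j = C (g i j) := by
  rw [Qc, if_neg (by omega)]

lemma Qc_n {K : Type*} [Field K] (g : ℕ → ℕ → K) (W n : ℕ) (σ : ℕ → St) (t : ℕ → ℕ)
    (i : ℕ) : Qc g W n σ t i n = zc (g i n) W (σ i) (t i) := by
  rw [Qc, if_pos rfl]

lemma Phi_cc {K : Type*} [Field K] (n d : ℕ) (P : ℕ → K[X]) (P' : ℕ → K)
    (hP : ∀ j < n, P j = C (P' j)) (α : E n) (c : E n → K[X]) :
    constantCoeff (Phi n d P α c) = Phi n d P' α (fun x => constantCoeff (c x)) := by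
  rw [Phi_map]
  refine Phi_congr _ _ _ _ (fun j hj => ?_) _ _ _ (fun _ _ => rfl)
  rw [hP j hj, constantCoeff_apply, coeff_C_zero]

lemma coeff_zero_pow_diff {K : Type*} [Field K] (w μ : ℕ) :
    ((X - C (X ^ w : K[X])) ^ μ : K[X][X]).coeff 0 = (-1) ^ μ * X ^ (w * μ) := by
  rw [coeff_zero_eq_eval_zero, eval_pow, eval_sub, eval_X, eval_C, zero_sub, neg_pow, ← pow_mul]

section core

variable {K : Type*} [Field K] (g : ℕ → ℕ → K) (n d : ℕ) (S : Finset ℕ) (σ : ℕ → St)
  (t : ℕ → ℕ) (W : ℕ) (c : E (n+1) → K[X])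

/-- divisibility form of the free conditions -/
lemma core_free (hc : ∀ i ∈ S, Cond n (d+1) (Qc g W n σ t i) (σ i) c)
    (i : ℕ) (hi : i ∈ S) (μ : ℕ) (hσ : σ i = .F μ) (α : E n) :
    (X - C (zc (g i n) W (.F μ) (t i))) ^ (μ - sz n α) ∣ gp n (d+1) (Qc g W n σ t i) α c := by
  rw [← hσ, ← Qc_n g W n σ t i, ← Phi_succ_forall_iff]
  intro s hs
  have h1 := hc i hi
  rw [hσ] at h1
  refine h1 (s, α) ?_
  simp only [sz]
  omega

lemma core_step (hc : ∀ i ∈ S, Cond n (d+1) (Qc g W n σ t i) (σ i) c)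
    (ht : ∀ i ∈ S, ∀ μ, σ i = .F μ → t i ≤ μ)
    (hW : ∀ i ∈ S, ∀ μ, σ i = .F μ → 1 ≤ t i → (μ - t i + 1) ∣ W)
    (v : ℕ) (hv : v < W) (e : E n → K[X])
    (he : ∀ x ∈ Box n (d+1), c ((0, x) : E (n+1)) = X ^ v * e x)
    (i : ℕ) (hi : i ∈ S) (α : E n) (hα : sz n α < tr (σ i) (t i)) :
    Phi n (d+1) (g i) α (fun x => constantCoeff (e x)) = 0 := by
  rw [← Phi_cc n (d+1) (Qc g W n σ t i) (g i) (Qc_lt g W n σ t i) α e]
  have hrel : (X : K[X]) ^ v * Phi n (d+1) (Qc g W n σ t i) α e
      = Phi n (d+1) (Qc g W n σ t i) α (fun x => c ((0, x) : E (n+1))) := by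
    rw [← Phi_smul]
    exact Phi_congr _ _ _ _ (fun _ _ => rfl) _ _ _ (fun x hx => (he x hx).symm)
  have hXv : (X : K[X]) ^ v ≠ 0 := pow_ne_zero _ X_ne_zero
  match hσ : σ i with
  | .H L =>
    rw [hσ] at hα
    simp only [tr] at hα
    have h1 := hc i hi
    rw [hσ] at h1
    have h0 := h1 0 (by omega) α hα
    rw [Nat.sub_zero] at h0
    rw [h0] at hrel
    rcases mul_eq_zero.1 hrel with h | h
    · exact absurd h hXv
    · rw [h, map_zero]
  | .F μ =>
    have hdv := core_free g n d S σ t W c hc i hi μ hσ α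
    rw [hσ] at hα
    simp only [tr] at hα
    have htμ := ht i hi μ hσ
    have ht1 : 1 ≤ t i := by omega
    simp only [zc] at hdv
    rw [if_neg (by omega)] at hdv
    obtain ⟨q, hq⟩ := hdv
    obtain ⟨w, hw⟩ : ∃ w, w = W / (μ - t i + 1) := ⟨_, rfl⟩
    have hWw : w * (μ - t i + 1) = W := by rw [hw]; exact Nat.div_mul_cancel (hW i hi μ hσ ht1)
    have h0 : (gp n (d+1) (Qc g W n σ t i) α c).coeff 0
        = ((X - C (X ^ w : K[X])) ^ (μ - sz n α) : K[X][X]).coeff 0 * q.coeff 0 := by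
      rw [hq, mul_coeff_zero, hw]
    rw [gp_coeff, if_pos (by omega), coeff_zero_pow_diff] at h0
    have hge : v + 1 ≤ w * (μ - sz n α) := by
      calc v + 1 ≤ W := hv
        _ = w * (μ - t i + 1) := hWw.symm
        _ ≤ w * (μ - sz n α) := Nat.mul_le_mul_left _ (by omega)
    have h2 : (X : K[X]) ^ v * Phi n (d+1) (Qc g W n σ t i) α e
        = X ^ v * (X * ((-1) ^ (μ - sz n α) * X ^ (w * (μ - sz n α) - v - 1) * q.coeff 0)) := by
      rw [hrel]
      refine h0.trans ?_
      have : (X : K[X]) ^ (w * (μ - sz n α))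
          = X ^ v * (X * X ^ (w * (μ - sz n α) - v - 1)) := by
        rw [← pow_succ', ← pow_add]
        congr 1
        omega
      rw [this]
      ring
    have h3 := mul_left_cancel₀ hXv h2
    rw [h3, constantCoeff_apply, coeff_X_mul_zero]

lemma core_bot (hc : ∀ i ∈ S, Cond n (d+1) (Qc g W n σ t i) (σ i) c)
    (ht : ∀ i ∈ S, ∀ μ, σ i = .F μ → t i ≤ μ)
    (hW : ∀ i ∈ S, ∀ μ, σ i = .F μ → 1 ≤ t i → (μ - t i + 1) ∣ W)
    (htr : ∀ c : E n → K,
      (∀ i ∈ S, ∀ α, sz n α < tr (σ i) (t i) → Phi n (d+1) (g i) α c = 0) →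
        ∀ x ∈ Box n (d+1), c x = 0) (v : ℕ) (hv : v ≤ W) :
    ∀ x ∈ Box n (d+1), (X : K[X]) ^ v ∣ c ((0, x) : E (n+1)) := by
  induction v with
  | zero => intro x _; rw [pow_zero]; exact one_dvd _
  | succ v ih =>
    have ih' := ih (by omega)
    choose! e he using ih'
    have hzero := htr (fun x => constantCoeff (e x)) (fun i hi α hα =>
      core_step g n d S σ t W c hc ht hW v (by omega) e he i hi α hα)
    intro x hx
    have h1 : (X : K[X]) ∣ e x := X_dvd_iff.2 (hzero x hx)
    rw [he x hx, pow_succ]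
    exact mul_dvd_mul_left _ h1

lemma core_diff_aux (w p W : ℕ) (hlt : w * p < W)
    (G q : K[X][X]) (hq : G = (X - C (X ^ w : K[X])) ^ p * q)
    (hXW : (X : K[X]) ^ W ∣ G.coeff 0) : constantCoeff (q.coeff 0) = 0 := by
  have h0 : G.coeff 0 = (-1) ^ p * X ^ (w * p) * q.coeff 0 := by
    rw [hq, mul_coeff_zero, coeff_zero_pow_diff]
  obtain ⟨y, hy⟩ := hXW
  have h6 : (X : K[X]) ^ W = X ^ (w * p) * (X * X ^ (W - w * p - 1)) := by
    rw [← pow_succ', ← pow_add]
    congr 1
    omega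
  have h5 : (X : K[X]) ^ (w * p) * ((-1) ^ p * q.coeff 0)
      = X ^ (w * p) * (X * (X ^ (W - w * p - 1) * y)) := by
    calc (X : K[X]) ^ (w * p) * ((-1) ^ p * q.coeff 0)
        = (-1) ^ p * X ^ (w * p) * q.coeff 0 := by ring
      _ = G.coeff 0 := h0.symm
      _ = X ^ W * y := hy
      _ = _ := by rw [h6]; ring
  have h7 := mul_left_cancel₀ (pow_ne_zero _ X_ne_zero) h5
  have h8 : constantCoeff ((-1 : K[X]) ^ p * q.coeff 0) = 0 := by
    rw [h7, constantCoeff_apply, coeff_X_mul_zero]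
  rw [map_mul] at h8
  rcases mul_eq_zero.1 h8 with h9 | h9
  · exfalso
    rw [map_pow, map_neg, map_one] at h9
    exact (pow_ne_zero _ (neg_ne_zero.2 one_ne_zero)) h9
  · exact h9

theorem horace_core (hg : ∀ i, g i n ≠ 0) (hW1 : 1 ≤ W)
    (ht : ∀ i ∈ S, ∀ μ, σ i = .F μ → t i ≤ μ)
    (hW : ∀ i ∈ S, ∀ μ, σ i = .F μ → 1 ≤ t i → (μ - t i + 1) ∣ W)
    (hc : ∀ i ∈ S, Cond n (d+1) (Qc g W n σ t i) (σ i) c)
    (htr : ∀ c : E n → K,
      (∀ i ∈ S, ∀ α, sz n α < tr (σ i) (t i) → Phi n (d+1) (g i) α c = 0) →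
        ∀ x ∈ Box n (d+1), c x = 0)
    (hres : ∀ c : E (n+1) → K, (∀ i ∈ S, Cond n d (g i) (nx (σ i) (t i)) c) →
      ∀ x ∈ Box (n+1) d, c x = 0) :
    ∀ x ∈ Box (n+1) (d+1), (c x).coeff 0 = 0 := by
  have hbot := core_bot g n d S σ t W c hc ht hW htr
  have hfree := core_free g n d S σ t W c hc
  obtain ⟨c0, hc0⟩ : ∃ c0 : E (n+1) → K, ∀ x, c0 x = constantCoeff (c x) := ⟨_, fun _ => rfl⟩
  have hc00 : ∀ x ∈ Box n (d+1), c0 ((0, x) : E (n+1)) = 0 := by
    intro x hx
    have h1 := hbot 1 hW1 x hx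
    rw [pow_one, X_dvd_iff] at h1
    rw [hc0]
    exact h1
  have hgp0 : ∀ i, ∀ α : E n, (gp n (d+1) (Qc g W n σ t i) α c).map constantCoeff
      = gp n (d+1) (g i) α c0 := by
    intro i α
    rw [gp_map]
    ext j
    rw [gp_coeff, gp_coeff]
    split_ifs
    · refine Phi_congr _ _ _ _ (fun j hj => ?_) _ _ _ (fun _ _ => (hc0 _).symm)
      rw [Qc_lt g W n σ t i j hj, constantCoeff_apply, coeff_C_zero]
    · rfl
  have hgps : ∀ i, ∀ α : E n, gp n (d+1) (g i) α c0
      = X * gp n d (g i) α (fun a => c0 ((a.1 + 1, a.2) : E (n+1))) := by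
    intro i α
    rw [gp_succ, Phi_zero _ _ _ _ _ hc00, map_zero, zero_add]
  have hfin := hres (fun a => c0 ((a.1 + 1, a.2) : E (n+1))) ?_
  · intro x1 hx1
    obtain ⟨j, x⟩ := x1
    cases j with
    | zero =>
      have := hc00 x (by
        rw [mem_Box] at hx1 ⊢
        simpa [sz] using hx1)
      rw [hc0] at this
      exact this
    | succ j =>
      have := hfin ((j, x) : E (n+1)) (by
        rw [mem_Box] at hx1 ⊢
        simp only [sz] at hx1 ⊢
        omega)
      simp only [hc0] at this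
      exact this
  · intro i hi
    match hσ : σ i with
    | .H L =>
      simp only [nx]
      intro j hj α hα
      have h1 := hc i hi
      rw [hσ] at h1
      have h2 := h1 (j+1) (by omega) α hα
      have h3 := Phi_cc n (d + 1 - (j + 1)) (Qc g W n σ t i) (g i) (Qc_lt g W n σ t i) α
        (fun x => c ((j+1, x) : E (n+1)))
      rw [h2, map_zero] at h3
      rw [Nat.add_sub_add_right] at h3
      simp only [hc0]
      exact h3.symm
    | .F μ =>
      have hdv' := hfree i hi μ hσ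
      by_cases hti : t i = 0
      · simp only [nx]
        rw [if_pos hti]
        intro β hβ
        have hdv := hdv' β.2
        rw [hti] at hdv
        simp only [zc, if_true] at hdv
        have h1 := map_dvd (mapRingHom (constantCoeff : K[X] →+* K)) hdv
        rw [coe_mapRingHom, hgp0, hgps, Polynomial.map_pow, Polynomial.map_sub, map_X, map_C,
          constantCoeff_apply, coeff_C_zero] at h1
        have hcop : IsCoprime ((X - C (g i n)) ^ (μ - sz n β.2)) (X : K[X]) := by
          apply IsCoprime.pow_left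
          have h2 := isCoprime_X_sub_C_of_isUnit_sub (R := K) (a := g i n) (b := 0)
            (by rw [sub_zero]; exact (hg i).isUnit)
          rwa [map_zero, sub_zero] at h2
        have h3 := hcop.dvd_of_dvd_mul_left h1
        refine (Phi_succ_forall_iff n d (g i) β.2 _ _).2 h3 β.1 ?_
        simp only [sz] at hβ
        omega
      · have htμ := ht i hi μ hσ
        simp only [nx]
        rw [if_neg hti]
        intro j hj α hα
        have hdv := hdv' α
        simp only [zc] at hdv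
        rw [if_neg hti] at hdv
        obtain ⟨q, hq⟩ := hdv
        obtain ⟨w, hw⟩ : ∃ w, w = W / (μ - t i + 1) := ⟨_, rfl⟩
        have hWw : w * (μ - t i + 1) = W := by
          rw [hw]; exact Nat.div_mul_cancel (hW i hi μ hσ (by omega))
        rw [← hw] at hq
        have hw1 : 1 ≤ w := by
          rcases Nat.eq_zero_or_pos w with h | h
          · rw [h, zero_mul] at hWw; omega
          · exact h
        have h1 : X * gp n d (g i) α (fun a => c0 ((a.1 + 1, a.2) : E (n+1)))
            = X ^ (μ - sz n α) * q.map constantCoeff := by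
          rw [← hgps, ← hgp0, hq, Polynomial.map_mul, Polynomial.map_pow, Polynomial.map_sub,
            map_X, map_C, map_pow, constantCoeff_apply, coeff_X_zero, zero_pow (by omega),
            map_zero, sub_zero]
        by_cases hs : sz n α < t i
        · have h2 := (X_pow_dvd_iff.1 (Dvd.intro _ h1.symm)) (j+1) (by
            simp only [rest] at hα
            split_ifs at hα with hjj <;> omega)
          rw [coeff_X_mul, gp_coeff, if_pos hj] at h2
          exact h2
        · have hXW : (X : K[X]) ^ W ∣ (gp n (d+1) (Qc g W n σ t i) α c).coeff 0 := by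
            rw [gp_coeff, if_pos (by omega), Phi]
            refine dvd_sum fun x hx => ?_
            exact Dvd.dvd.mul_left (hbot W le_rfl x hx) _
          have hlt : w * (μ - sz n α) < W := by
            calc w * (μ - sz n α) < w * (μ - t i + 1) :=
                  Nat.mul_lt_mul_of_pos_left (by omega) hw1
              _ = W := hWw
          have hq0 := core_diff_aux w (μ - sz n α) W hlt _ q hq hXW
          have hXq : (X : K[X]) ∣ q.map constantCoeff := by
            rw [X_dvd_iff, coeff_map]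
            exact hq0
          have hdd : (X : K[X]) ^ (μ - sz n α + 1) ∣
              X * gp n d (g i) α (fun a => c0 ((a.1 + 1, a.2) : E (n+1))) := by
            rw [h1, pow_succ]
            exact mul_dvd_mul_left _ hXq
          have h2 := (X_pow_dvd_iff.1 hdd) (j+1) (by
            simp only [rest] at hα
            split_ifs at hα with hjj <;> omega)
          rw [coeff_X_mul, gp_coeff, if_pos hj] at h2
          exact h2

end core

theorem horace (n d : ℕ) (S : Finset ℕ) (σ : ℕ → St) (t : ℕ → ℕ)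
    (ht : ∀ i ∈ S, ∀ μ, σ i = .F μ → t i ≤ μ)
    (htr : ∀ c : E n → Gen k,
      (∀ i ∈ S, ∀ α, sz n α < tr (σ i) (t i) → Phi n (d+1) (gen k i) α c = 0) →
        ∀ x ∈ Box n (d+1), c x = 0)
    (hres : SInj k n d S (fun i => nx (σ i) (t i))) :
    SInj k n (d+1) S σ := by
  classical
  -- the common weight
  let mu : St → ℕ := fun st => match st with | .F μ => μ | .H _ => 1
  obtain ⟨W, hW1, hW⟩ : ∃ W, 1 ≤ W ∧ ∀ i ∈ S, ∀ μ, σ i = .F μ → 1 ≤ t i → (μ - t i + 1) ∣ W := by
    refine ⟨∏ i ∈ S, (mu (σ i) - t i + 1), ?_, ?_⟩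
    · exact Nat.one_le_iff_ne_zero.2 (prod_ne_zero_iff.2 fun i _ => by omega)
    · intro i hi μ hσ _
      have h2 : μ - t i + 1 = mu (σ i) - t i + 1 := by rw [hσ]
      rw [h2]
      exact dvd_prod_of_mem (fun i => mu (σ i) - t i + 1) hi
  refine SInj_of_special (L := FractionRing (Gen k)[X]) n (d+1) S σ
    (fun i j => algebraMap (Gen k)[X] (FractionRing (Gen k)[X]) (Qc (gen k) W n σ t i j)) ?_
  intro cL hcL
  by_contra hcon
  push Not at hcon
  obtain ⟨c, u, hcu, x1, hx1, hx1ne⟩ :=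
    clear_denoms (K := Gen k) (L := FractionRing (Gen k)[X]) (Box (n+1) (d+1)) cL hcon
  apply hx1ne
  refine horace_core (gen k) n d S σ t W c (fun i => gen_ne_zero i n) hW1 ht hW ?_ htr hres
    x1 hx1
  intro i hi
  refine Cond_of_map (algebraMap (Gen k)[X] (FractionRing (Gen k)[X]))
    (IsFractionRing.injective _ _) _ _ _ _ _ ?_
  refine Cond_congr _ _ _ _ _ _ (fun x hx => (hcu x hx).symm) ?_
  exact Cond_smul _ _ _ _ _ _ (hcL i hi)

end Pool.Agent.Helper46.EAH
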