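import Mathlib
import Pool.Agent.Helper46.EAH.Horace

/-! General points kill small systems; the endgame lemma. -/

namespace Pool.Agent.Helper46.EAH

open Finset Polynomial

lemma Phi_base {R : Type*} [CommSemiring R] (d : ℕ) (y : ℕ → R) (α : E 0) (c : E 0 → R) :
    Phi 0 d y α c = c () := by
  rw [Phi]
  have : Box 0 d = {()} := rfl
  rw [this]
  exact (sum_singleton _ _).trans (by simp [cw])

/-- a nonzero polynomial does not vanish everywhere -/
lemma eq_zero_of_eval {K : Type*} [Field K] [Infinite K] : ∀ (n d : ℕ) (c : E n → K),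
    (∀ y : ℕ → K, Phi n d y (zE n) c = 0) → ∀ x ∈ Box n d, c x = 0
  | 0, d, c, h, x, _ => by
      have := h (fun _ => 0)
      rw [Phi_base] at this
      exact this
  | (n+1), d, c, h, x, hx => by
      obtain ⟨j, a⟩ := x
      rw [mem_Box] at hx
      simp only [sz] at hx
      have key : ∀ y : ℕ → K, Phi n (d-j) y (zE n) (fun x => c ((j, x) : E (n+1))) = 0 := by
        intro y
        have h0 : gp n d y (zE n) c = 0 := by
          apply Polynomial.funext
          intro z
          have h1 := h (Function.update y n z)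
          rw [show zE (n+1) = (0, zE n) from rfl] at h1
          rw [Phi_succ] at h1
          simp only [hasseDeriv_zero, LinearMap.id_coe, id_eq, Function.update_self] at h1
          rw [eval_zero, ← h1]
          congr 1
          ext i
          rw [gp_coeff, gp_coeff]
          split_ifs
          · refine Phi_congr _ _ _ _ (fun i hi => ?_) _ _ _ (fun _ _ => rfl)
            rw [Function.update_of_ne (by omega)]
          · rfl
        have h2 := congrArg (fun p => p.coeff j) h0
        simp only [gp_coeff, coeff_zero] at h2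
        rwa [if_pos (by omega)] at h2
      exact eq_zero_of_eval n (d-j) (fun x => c ((j, x) : E (n+1))) key a
        ((mem_Box n _ _).2 (by omega))

theorem exists_killing {K V Y : Type*} [Field K] [AddCommGroup V] [Module K V]
    [FiniteDimensional K V] [Nonempty Y] (ev : Y → V →ₗ[K] K) (Q : Finset ℕ) :
    ∀ U : Submodule K V, (∀ v ∈ U, v ≠ 0 → ∃ y, ev y v ≠ 0) → Module.finrank K U ≤ Q.card →
      ∃ y : ℕ → Y, ∀ v ∈ U, (∀ i ∈ Q, ev (y i) v = 0) → v = 0 := by
  classical
  induction Q using Finset.induction with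
  | empty =>
    intro U _ hU
    rw [card_empty, Nat.le_zero, Submodule.finrank_eq_zero] at hU
    refine ⟨fun _ => Classical.arbitrary Y, fun v hv _ => ?_⟩
    rw [hU, Submodule.mem_bot] at hv
    exact hv
  | insert i Q hi ih =>
    intro U hne hU
    by_cases hbot : U = ⊥
    · refine ⟨fun _ => Classical.arbitrary Y, fun v hv _ => ?_⟩
      rw [hbot, Submodule.mem_bot] at hv
      exact hv
    · obtain ⟨v, hv, hv0⟩ := Submodule.exists_mem_ne_zero_of_ne_bot hbot
      obtain ⟨y0, hy0⟩ := hne v hv hv0
      have hlt : U ⊓ LinearMap.ker (ev y0) < U := by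
        refine lt_of_le_of_ne inf_le_left fun h => hy0 ?_
        rw [← h] at hv
        exact hv.2
      have hfr := Submodule.finrank_lt_finrank_of_lt hlt
      rw [card_insert_of_notMem hi] at hU
      obtain ⟨y, hy⟩ := ih (U ⊓ LinearMap.ker (ev y0))
        (fun w hw hw0 => hne w hw.1 hw0) (by omega)
      refine ⟨Function.update y i y0, fun w hw hall => ?_⟩
      apply hy w
      · refine ⟨hw, ?_⟩
        have := hall i (mem_insert_self _ _)
        rwa [Function.update_self] at this
      · intro j hj
        have := hall j (mem_insert_of_mem hj)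
        rwa [Function.update_of_ne (fun h : j = i => hi (h ▸ hj))] at this

variable {k : Type} [Field k]

instance : Infinite (Gen k) :=
  Infinite.of_injective (fun i : ℕ => gen k i 0) (by
    intro i j h
    have h1 := IsFractionRing.injective (MvPolynomial (ℕ × ℕ) k) (Gen k) h
    have h2 := MvPolynomial.X_injective h1
    exact congrArg Prod.fst h2)

/-- extension by zero -/
def ext0 {K : Type*} [Field K] {n d : ℕ} (v : {x // x ∈ Box n d} → K) (x : E n) : K :=
  if h : x ∈ Box n d then v ⟨x, h⟩ else 0

lemma ext0_add {K : Type*} [Field K] {n d : ℕ} (v w : {x // x ∈ Box n d} → K) (x : E n) :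
    ext0 (v + w) x = ext0 v x + ext0 w x := by
  unfold ext0
  split_ifs <;> simp

lemma ext0_smul {K : Type*} [Field K] {n d : ℕ} (r : K) (v : {x // x ∈ Box n d} → K) (x : E n) :
    ext0 (r • v) x = r * ext0 v x := by
  unfold ext0
  split_ifs <;> simp

lemma ext0_restrict {K : Type*} [Field K] {n d : ℕ} (c : E n → K) (x : E n) (hx : x ∈ Box n d) :
    ext0 (fun y : {x // x ∈ Box n d} => c y.1) x = c x := by
  unfold ext0
  rw [dif_pos hx]

lemma ext0_inj {K : Type*} [Field K] {n d : ℕ} (v : {x // x ∈ Box n d} → K)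
    (h : ∀ x ∈ Box n d, ext0 v x = 0) : v = 0 := by
  ext ⟨x, hx⟩
  have := h x hx
  unfold ext0 at this
  rwa [dif_pos hx] at this

lemma Cond_simple_iff {R : Type*} [CommRing R] (n d : ℕ) (P : ℕ → R) (c : E (n+1) → R) :
    Cond n d P (.F 1) c ↔ Phi (n+1) d P (zE (n+1)) c = 0 := by
  constructor
  · intro h
    exact h _ (by rw [sz_zE]; omega)
  · intro h β hβ
    rw [eq_zE_of_sz _ β (by omega)]
    exact h

lemma Cond_mono_F {R : Type*} [CommRing R] (n d : ℕ) (P : ℕ → R) (μ ν : ℕ) (h : μ ≤ ν)
    (c : E (n+1) → R) (hc : Cond n d P (.F ν) c) : Cond n d P (.F μ) c :=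
  fun β hβ => hc β (by omega)

/-- many free points kill everything -/
theorem simple_kill (n d : ℕ) (S : Finset ℕ) (σ : ℕ → St) (S0 : Finset ℕ) (hS0 : S0 ⊆ S)
    (hσ : ∀ i ∈ S0, ∃ μ, 1 ≤ μ ∧ σ i = .F μ) (hcard : (Box (n+1) d).card ≤ S0.card) :
    SInj k n d S σ := by
  classical
  let ev : (ℕ → Gen k) → ({x // x ∈ Box (n+1) d} → Gen k) →ₗ[Gen k] Gen k := fun y =>
    { toFun := fun v => Phi (n+1) d y (zE (n+1)) (ext0 v)
      map_add' := fun v w => by
        rw [← Phi_add]
        exact congrArg _ (funext fun x => ext0_add v w x)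
      map_smul' := fun r v => by
        rw [RingHom.id_apply, smul_eq_mul, ← Phi_smul]
        exact congrArg _ (funext fun x => ext0_smul r v x) }
  obtain ⟨y, hy⟩ := exists_killing ev S0 ⊤ (by
    intro v _ hv0
    by_contra hcon
    push Not at hcon
    exact hv0 (ext0_inj v (eq_zero_of_eval (n+1) d (ext0 v) hcon))) (by
    rw [finrank_top, Module.finrank_fintype_fun_eq_card, Fintype.card_coe]
    exact hcard)
  refine SInj_of_special (L := Gen k) n d S σ (fun i => if i ∈ S0 then y i else gen k i) ?_
  intro c hc x hx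
  have h0 := hy (fun y => c y.1) Submodule.mem_top ?_
  · exact congrFun h0 ⟨x, hx⟩
  · intro i hi
    obtain ⟨μ, hμ1, hμ⟩ := hσ i hi
    have h1 := hc i (hS0 hi)
    rw [if_pos hi, hμ] at h1
    have h2 := (Cond_simple_iff n d (y i) c).1 (Cond_mono_F n d (y i) 1 μ hμ1 c h1)
    change Phi (n+1) d (y i) (zE (n+1)) (ext0 fun y => c y.1) = 0
    rw [← h2]
    exact Phi_congr _ _ _ _ (fun _ _ => rfl) _ _ _ (fun a ha => ext0_restrict c a ha)

/-- dividing by the last variable -/
lemma shift_cond {K : Type*} [Field K] (n d : ℕ) (P : ℕ → K) (hP : P n ≠ 0) (st : St)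
    (c : E (n+1) → K)
    (h0 : ∀ x ∈ Box n (d+1), c ((0, x) : E (n+1)) = 0) (hc : Cond n (d+1) P st c) :
    Cond n d P (nx st 0) (fun a => c ((a.1 + 1, a.2) : E (n+1))) := by
  match st with
  | .H L =>
    intro j hj α hα
    have h2 := hc (j+1) (by omega) α hα
    rw [Nat.add_sub_add_right] at h2
    exact h2
  | .F μ =>
    simp only [nx, if_true]
    intro β hβ
    have h1 : (X - C (P n)) ^ (μ - sz n β.2) ∣ gp n (d+1) P β.2 c := by
      rw [← Phi_succ_forall_iff]
      intro s hs
      refine hc (s, β.2) ?_
      simp only [sz]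
      omega
    rw [gp_succ, Phi_zero _ _ _ _ _ h0, map_zero, zero_add] at h1
    have hcop : IsCoprime ((X - C (P n)) ^ (μ - sz n β.2)) (X : K[X]) := by
      apply IsCoprime.pow_left
      have h2 := isCoprime_X_sub_C_of_isUnit_sub (R := K) (a := P n) (b := 0)
        (by rw [sub_zero]; exact hP.isUnit)
      rwa [map_zero, sub_zero] at h2
    have h3 := hcop.dvd_of_dvd_mul_left h1
    refine (Phi_succ_forall_iff n d P β.2 _ _).2 h3 β.1 ?_
    simp only [sz] at hβ
    omega

/-- the endgame: simple points on the hyperplane -/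
theorem endgame (n d : ℕ) (S : Finset ℕ) (σ : ℕ → St) (Q Q' : Finset ℕ)
    (hQ : ∀ i ∈ Q, ∃ L, σ i = .H L ∧ 1 ≤ L 0) (hQS : Q ⊆ S) (hcard : Q'.card ≤ Q.card)
    (hA : SInj k n (d+1) ((S \ Q) ∪ Q') (fun i => if i ∈ Q' then .F 1 else σ i))
    (hB : SInj k n d (S \ Q) (fun i => nx (σ i) 0)) :
    SInj k n (d+1) S σ := by
  classical
  -- the space of solutions without the points of `Q`
  let U : Submodule (Gen k) ({x // x ∈ Box (n+1) (d+1)} → Gen k) :=
    { carrier := {v | ∀ i ∈ S \ Q, Cond n (d+1) (gen k i) (σ i) (ext0 v)}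
      add_mem' := by
        intro v w hv hw i hi
        have h1 := hv i hi
        have h2 := hw i hi
        match hσ : σ i with
        | .F μ =>
          rw [hσ] at h1 h2
          intro β hβ
          have : Phi (n+1) (d+1) (gen k i) β (ext0 (v+w))
              = Phi (n+1) (d+1) (gen k i) β (fun x => ext0 v x + ext0 w x) :=
            congrArg _ (funext fun x => ext0_add v w x)
          rw [this, Phi_add, h1 β hβ, h2 β hβ, add_zero]
        | .H L =>
          rw [hσ] at h1 h2
          intro j hj α hα
          have : Phi n (d+1-j) (gen k i) α (fun x => ext0 (v+w) ((j, x) : E (n+1)))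
              = Phi n (d+1-j) (gen k i) α
                (fun x => ext0 v ((j, x) : E (n+1)) + ext0 w ((j, x) : E (n+1))) :=
            congrArg _ (funext fun x => ext0_add v w _)
          rw [this, Phi_add, h1 j hj α hα, h2 j hj α hα, add_zero]
      zero_mem' := by
        intro i hi
        have hz : (ext0 (0 : {x // x ∈ Box (n+1) (d+1)} → Gen k)) = fun _ => 0 := by
          funext x
          unfold ext0
          split_ifs <;> rfl
        rw [hz]
        match hσ : σ i with
        | .F μ => intro β hβ; exact Phi_zero _ _ _ _ _ (fun _ _ => rfl)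
        | .H L => intro j hj α hα; exact Phi_zero _ _ _ _ _ (fun _ _ => rfl)
      smul_mem' := by
        intro r v hv i hi
        have h1 := Cond_smul n (d+1) (gen k i) (σ i) r (ext0 v) (hv i hi)
        exact Cond_congr _ _ _ _ _ _ (fun x _ => (ext0_smul r v x).symm) h1 }
  -- its dimension
  have hdim : Module.finrank (Gen k) U ≤ Q.card := by
    refine le_trans ?_ hcard
    let f : U →ₗ[Gen k] (Q' → Gen k) :=
      { toFun := fun v i => Phi (n+1) (d+1) (gen k i) (zE (n+1)) (ext0 v.1)
        map_add' := fun v w => by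
          funext i
          rw [Pi.add_apply, ← Phi_add]
          exact congrArg _ (funext fun x => ext0_add v.1 w.1 x)
        map_smul' := fun r v => by
          funext i
          rw [RingHom.id_apply, Pi.smul_apply, smul_eq_mul, ← Phi_smul]
          exact congrArg _ (funext fun x => ext0_smul r v.1 x) }
    have hf : Function.Injective f := by
      rw [← LinearMap.ker_eq_bot, LinearMap.ker_eq_bot']
      intro v hv
      apply Subtype.ext
      apply ext0_inj
      apply hA
      intro i hi
      by_cases hiQ' : i ∈ Q'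
      · simp only [hiQ', if_true]
        rw [Cond_simple_iff]
        exact congrFun hv ⟨i, hiQ'⟩
      · simp only [hiQ', if_false]
        rcases mem_union.1 hi with h | h
        · exact v.2 i h
        · exact absurd h hiQ'
    have := LinearMap.finrank_le_finrank_of_injective hf
    rwa [Module.finrank_fintype_fun_eq_card, Fintype.card_coe] at this
  -- evaluation on the bottom layer
  let ev : (ℕ → Gen k) → ({x // x ∈ Box (n+1) (d+1)} → Gen k) →ₗ[Gen k] Gen k := fun y =>
    { toFun := fun v => Phi n (d+1) y (zE n) (fun x => ext0 v ((0, x) : E (n+1)))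
      map_add' := fun v w => by
        rw [← Phi_add]
        exact congrArg _ (funext fun x => ext0_add v w _)
      map_smul' := fun r v => by
        rw [RingHom.id_apply, smul_eq_mul, ← Phi_smul]
        exact congrArg _ (funext fun x => ext0_smul r v _) }
  obtain ⟨y, hy⟩ := exists_killing ev Q U (by
    intro v hv hv0
    by_contra hcon
    push Not at hcon
    apply hv0
    apply ext0_inj
    have hbot := eq_zero_of_eval n (d+1) (fun x => ext0 v ((0, x) : E (n+1))) hcon
    have hsh := hB (fun a => ext0 v ((a.1 + 1, a.2) : E (n+1))) (by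
      intro i hi
      exact shift_cond n d (gen k i) (gen_ne_zero i n) (σ i)
        (ext0 v) hbot (hv i hi))
    intro x hx
    obtain ⟨j, x⟩ := x
    cases j with
    | zero =>
      refine hbot x ?_
      rw [mem_Box] at hx ⊢
      simpa [sz] using hx
    | succ j =>
      refine hsh ((j, x) : E (n+1)) ?_
      rw [mem_Box] at hx ⊢
      simp only [sz] at hx ⊢
      omega) hdim
  refine SInj_of_special (L := Gen k) n (d+1) S σ (fun i => if i ∈ Q then y i else gen k i) ?_
  intro c hc x hx
  have h0 := hy (fun y => c y.1) ?_ ?_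
  · exact congrFun h0 ⟨x, hx⟩
  · intro i hi
    have h1 := hc i (mem_sdiff.1 hi).1
    rw [if_neg (mem_sdiff.1 hi).2] at h1
    exact Cond_congr _ _ _ _ _ _ (fun x hx => (ext0_restrict c x hx).symm) h1
  · intro i hi
    have h1 := hc i (hQS hi)
    obtain ⟨L, hL, hL0⟩ := hQ i hi
    rw [if_pos hi, hL] at h1
    have h2 := h1 0 (by omega) (zE n) (by rw [sz_zE]; omega)
    change Phi n (d+1) (y i) (zE n) (fun x => ext0 (fun y => c y.1) ((0, x) : E (n+1))) = 0
    rw [← h2]
    refine Phi_congr _ _ _ _ (fun _ _ => rfl) _ _ _ (fun a ha => ext0_restrict c _ ?_)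
    rw [mem_Box] at ha ⊢
    simp only [sz]
    omega

end Pool.Agent.Helper46.EAH
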