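import Mathlib
import Pool.Agent.Helper46.EAH.Kill

/-! The one-dimensional case. -/

namespace Pool.Agent.Helper46.EAH

open Finset Polynomial

/-- generic fat points of multiplicities `μ i` in dimension `n` have trivial kernel in degree `e` -/
def TInj (k : Type) [Field k] (n e : ℕ) (S : Finset ℕ) (μ : ℕ → ℕ) : Prop :=
  ∀ c : E n → Gen k,
    (∀ i ∈ S, ∀ α, sz n α < μ i → Phi n e (gen k i) α c = 0) → ∀ x ∈ Box n e, c x = 0

/-- generic fat points of multiplicity at most `m` in dimension `n` have trivial kernel in all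
degrees at least `D` as soon as the number of conditions allows it -/
def EX (k : Type) [Field k] (n m D : ℕ) : Prop :=
  ∀ e, D ≤ e → ∀ (S : Finset ℕ) (μ : ℕ → ℕ), (∀ i ∈ S, μ i ≤ m) →
    N n (e+1) ≤ ∑ i ∈ S, N n (μ i) → TInj k n e S μ

/-- the same with `W` superfluous conditions, in every degree -/
def AP1 (k : Type) [Field k] (n m W : ℕ) : Prop :=
  ∀ e, ∀ (S : Finset ℕ) (μ : ℕ → ℕ), (∀ i ∈ S, μ i ≤ m) →
    N n (e+1) + W ≤ ∑ i ∈ S, N n (μ i) → TInj k n e S μ

/-- the same with `W` simple points, in every degree -/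
def AP2 (k : Type) [Field k] (n m W : ℕ) : Prop :=
  ∀ e, ∀ (S : Finset ℕ) (μ : ℕ → ℕ), (∀ i ∈ S, μ i ≤ m) →
    W ≤ (S.filter (fun i => μ i = 1)).card →
    N n (e+1) ≤ ∑ i ∈ S, N n (μ i) → TInj k n e S μ

lemma TInj_succ_iff (k : Type) [Field k] (n e : ℕ) (S : Finset ℕ) (μ : ℕ → ℕ) :
    TInj k (n+1) e S μ ↔ SInj k n e S (fun i => .F (μ i)) := Iff.rfl

lemma N_dim_one (a : ℕ) : N 1 a = a := by
  cases a with
  | zero => rw [N_zero]
  | succ a => rw [N_succ, Nat.choose_one_right]; omega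

lemma gen_injective (k : Type) [Field k] (j : ℕ) : Function.Injective (fun i => gen k i j) := by
  intro i i' h
  have h1 := IsFractionRing.injective (MvPolynomial (ℕ × ℕ) k) (Gen k) h
  have h2 := MvPolynomial.X_injective h1
  exact congrArg Prod.fst h2

theorem ex_one (k : Type) [Field k] (m : ℕ) : EX k 1 m 0 := by
  intro d _ S μ _ hcount c hc
  simp only [N_dim_one] at hcount
  have hgp : ∀ P : ℕ → Gen k, gp 0 d P () c = gp 0 d (fun _ => 0) () c := by
    intro P
    ext j
    rw [gp_coeff, gp_coeff]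
    simp only [Phi_base]
  have hdv : ∀ i ∈ S, (X - C (gen k i 0)) ^ (μ i) ∣ gp 0 d (fun _ => 0) () c := by
    intro i hi
    rw [← hgp (gen k i), ← Phi_succ_forall_iff]
    intro s hs
    exact hc i hi (s, ()) (by simpa [sz] using hs)
  have hprod : ∏ i ∈ S, (X - C (gen k i 0)) ^ (μ i) ∣ gp 0 d (fun _ => 0) () c := by
    apply Finset.prod_dvd_of_coprime
    · intro i _ j _ hij
      exact (pairwise_coprime_X_sub_C (gen_injective k 0) hij).pow
    · exact hdv
  have hg0 : gp 0 d (fun _ => (0 : Gen k)) () c = 0 := by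
    by_contra hne
    have h1 := natDegree_le_of_dvd hprod hne
    have h2 : (gp 0 d (fun _ => (0 : Gen k)) () c).natDegree ≤ d := by
      rw [natDegree_le_iff_coeff_eq_zero]
      intro j hj
      rw [gp_coeff, if_neg (by omega)]
    rw [natDegree_prod _ _ (fun i _ => pow_ne_zero _ (X_sub_C_ne_zero _))] at h1
    have h3 : ∑ i ∈ S, ((X - C (gen k i 0)) ^ (μ i)).natDegree = ∑ i ∈ S, μ i := by
      refine sum_congr rfl fun i _ => ?_
      rw [natDegree_pow, natDegree_X_sub_C, mul_one]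
    omega
  rintro ⟨j, u⟩ hx
  rw [mem_Box] at hx
  simp only [sz] at hx
  have h4 := congrArg (fun p => p.coeff j) hg0
  simp only [gp_coeff, coeff_zero] at h4
  rw [if_pos (by omega), Phi_base] at h4
  exact h4

theorem ap1_one (k : Type) [Field k] (m : ℕ) : AP1 k 1 m 0 :=
  fun e S μ h1 h2 => ex_one k m e (Nat.zero_le _) S μ h1 h2

theorem ap2_one (k : Type) [Field k] (m : ℕ) : AP2 k 1 m 0 :=
  fun e S μ h1 _ h2 => ex_one k m e (Nat.zero_le _) S μ h1 h2

end Pool.Agent.Helper46.EAH
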