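import Mathlib
import Pool.Agent.Helper46.EAH.Base

/-! Weights of states and the peeling step with its bookkeeping. -/

namespace Pool.Agent.Helper46.EAH

open Finset

/-- size of the next trace -/
def hd (n : ℕ) : St → ℕ
  | .H L => N n (L 0)
  | .F _ => 0

/-- number of conditions -/
def wt (m n : ℕ) : St → ℕ
  | .H L => ∑ j ∈ range m, N n (L j)
  | .F μ => N (n+1) μ

/-- admissible statuses -/
def Ok (m : ℕ) : St → Prop
  | .H L => L 0 ≤ m ∧ ∀ j, L (j+1) ≤ L j - 1
  | .F μ => μ ≤ m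

/-- free multiplicity -/
def fm : St → ℕ
  | .H _ => 0
  | .F μ => μ

lemma N_pos {n a : ℕ} (ha : 1 ≤ a) : 1 ≤ N n a := by
  obtain ⟨a, rfl⟩ := Nat.exists_eq_add_of_le' ha
  rw [N_succ]
  exact Nat.choose_pos (by omega)

lemma N_succ_le (n : ℕ) : ∀ a b : ℕ, b ≤ a → N (n+1) a ≤ N (n+1) b + (a - b) * N n a := by
  intro a b h
  induction a, h using Nat.le_induction with
  | base => simp
  | succ a h ih =>
    rw [N_rec]
    have h1 : N n a ≤ N n (a+1) := N_mono (by omega)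
    have h2 : a + 1 - b = (a - b) + 1 := by omega
    rw [h2, add_mul, one_mul]
    have h3 : (a - b) * N n a ≤ (a - b) * N n (a+1) := Nat.mul_le_mul_left _ h1
    omega

lemma N_rec' (n : ℕ) {a : ℕ} (ha : 1 ≤ a) : N (n+1) a = N (n+1) (a-1) + N n a := by
  obtain ⟨a, rfl⟩ := Nat.exists_eq_add_of_le' ha
  rw [N_rec, Nat.add_sub_cancel]

lemma ok_le {m : ℕ} {L : ℕ → ℕ} (h : Ok m (.H L)) : ∀ j, L j ≤ m - j
  | 0 => by simpa using h.1
  | (j+1) => by
      have h1 := h.2 j
      have h2 := ok_le h j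
      omega

lemma ok_le0 {m : ℕ} {L : ℕ → ℕ} (h : Ok m (.H L)) : ∀ j, L j ≤ L 0
  | 0 => le_rfl
  | (j+1) => by
      have h1 := h.2 j
      have h2 := ok_le0 h j
      omega

lemma ok_m {m : ℕ} {L : ℕ → ℕ} (h : Ok m (.H L)) : L m = 0 := by
  have := ok_le h m
  omega

lemma rest_sum1 (n μ v : ℕ) (hvμ : v ≤ μ) : ∀ s, s ≤ μ - v →
    ∑ j ∈ range s, N n (rest μ v j) + N (n+1) (μ - s) = N (n+1) μ
  | 0, _ => by simp
  | (s+1), hs => by
      have ih := rest_sum1 n μ v hvμ s (by omega)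
      rw [sum_range_succ]
      have h1 : rest μ v s = μ - s := by simp only [rest]; rw [if_pos (by omega)]
      rw [h1]
      by_cases h0 : 1 ≤ μ - s
      · have h2 := N_rec' n h0
        rw [show μ - s - 1 = μ - (s+1) by omega] at h2
        omega
      · omega

lemma rest_sum2 (n μ v : ℕ) (hv : 1 ≤ v) (hvμ : v ≤ μ) : ∀ s, μ - v ≤ s →
    ∑ j ∈ range s, N n (rest μ v j) + N n v + N (n+1) (μ - s - 1) = N (n+1) μ := by
  intro s hs
  induction s, hs using Nat.le_induction with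
  | base =>
    have h1 := rest_sum1 n μ v hvμ (μ - v) le_rfl
    rw [show μ - (μ - v) = v by omega] at h1 ⊢
    have h2 := N_rec' n hv
    omega
  | succ s hs ih =>
    rw [sum_range_succ]
    have h1 : rest μ v s = μ - s - 1 := by simp only [rest]; rw [if_neg (by omega)]
    rw [h1]
    by_cases h0 : 1 ≤ μ - s - 1
    · have h2 := N_rec' n h0
      rw [show μ - s - 1 - 1 = μ - (s+1) - 1 by omega] at h2
      omega
    · have h2 : μ - s - 1 = 0 := by omega
      have h3 : μ - (s+1) - 1 = 0 := by omega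
      rw [h2] at ih ⊢
      rw [h3, N_zero n]
      omega

lemma wt_rest (n m μ v : ℕ) (hv : 1 ≤ v) (hvμ : v ≤ μ) (hμ : μ ≤ m) :
    N (n+1) μ = N n v + ∑ j ∈ range m, N n (rest μ v j) := by
  have := rest_sum2 n μ v hv hvμ m (by omega)
  rw [show μ - m - 1 = 0 by omega, N_zero] at this
  omega

lemma wt_split (m n : ℕ) (st : St) (v : ℕ) (hok : Ok m st)
    (hv : ∀ μ, st = .F μ → v ≤ μ) :
    wt m n st = N n (tr st v) + wt m n (nx st v) := by
  match st with
  | .H L =>
    simp only [wt, tr, nx]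
    have h1 := sum_range_succ (fun j => N n (L j)) m
    have h2 := sum_range_succ' (fun j => N n (L j)) m
    rw [ok_m hok, N_zero] at h1
    omega
  | .F μ =>
    have hvμ := hv μ rfl
    simp only [wt, tr, nx]
    by_cases h0 : v = 0
    · rw [if_pos h0, h0, N_zero]
      simp
    · rw [if_neg h0]
      exact wt_rest n m μ v (by omega) hvμ hok

lemma ratio_aux (n m a : ℕ) (ham : a ≤ m) (hn : 1 ≤ n) :
    (m - 1 + n) * N n (a - 1) ≤ (m - 1) * N n a := by
  rcases Nat.eq_zero_or_pos a with h0 | ha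
  · subst h0; simp [N_zero]
  obtain ⟨a, rfl⟩ := Nat.exists_eq_add_of_le' ha
  obtain ⟨m, rfl⟩ := Nat.exists_eq_add_of_le' (show 1 ≤ m by omega)
  simp only [Nat.add_sub_cancel]
  have h := N_ratio n a
  have h1 : (m + n) * a ≤ m * (a + n) := by nlinarith
  have h2 : (a + n) * ((m + n) * N n a) ≤ (a + n) * (m * N n (a+1)) := by
    calc (a + n) * ((m + n) * N n a) = (m + n) * ((a + n) * N n a) := by ring
      _ = (m + n) * a * N n (a+1) := by rw [h]; ring
      _ ≤ m * (a + n) * N n (a+1) := Nat.mul_le_mul_right _ h1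
      _ = (a + n) * (m * N n (a+1)) := by ring
  exact Nat.le_of_mul_le_mul_left h2 (by omega)

lemma hd_next (m n : ℕ) (hn : 1 ≤ n) (st : St) (v : ℕ) (hok : Ok m st)
    (hv : ∀ μ, st = .F μ → v ≤ μ) :
    (m - 1 + n) * hd n (nx st v) ≤ (m - 1) * N n (tr st v)
      + (if 1 ≤ v ∧ v < fm st then (m - 1 + n) * N n m else 0) := by
  match st with
  | .H L =>
    have h1 : ¬ (1 ≤ v ∧ v < fm (.H L)) := by simp [fm]
    rw [if_neg h1, add_zero]
    simp only [hd, tr, nx]
    refine le_trans ?_ (ratio_aux n m (L 0) hok.1 hn)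
    exact Nat.mul_le_mul_left _ (N_mono (hok.2 0))
  | .F μ =>
    have hvμ := hv μ rfl
    have hμ : μ ≤ m := hok
    simp only [tr, nx, fm]
    by_cases h0 : v = 0
    · rw [if_pos h0]
      simp [hd]
    · rw [if_neg h0]
      simp only [hd, rest]
      by_cases h1 : v < μ
      · rw [if_pos (by omega), if_pos ⟨by omega, h1⟩]
        have h2 : N n (μ - 0) ≤ N n m := N_mono (by omega)
        have h3 := Nat.mul_le_mul_left (m - 1 + n) h2
        omega
      · rw [if_neg (by omega), if_neg (by omega), add_zero]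
        have h2 : v = μ := by omega
        rw [h2]
        exact ratio_aux n m μ hμ hn

lemma ok_next (m : ℕ) (st : St) (v : ℕ) (hok : Ok m st) : Ok m (nx st v) := by
  match st with
  | .H L =>
    simp only [nx, Ok]
    refine ⟨?_, fun j => hok.2 (j+1)⟩
    have h1 := hok.1
    have h2 := hok.2 0
    simp only [zero_add] at h2 ⊢
    omega
  | .F μ =>
    have hμ : μ ≤ m := hok
    simp only [nx]
    split_ifs with h0
    · exact hok
    · simp only [Ok, rest]
      refine ⟨by split_ifs <;> omega, fun j => by split_ifs <;> omega⟩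

lemma tr_le (m : ℕ) (st : St) (v : ℕ) (hok : Ok m st)
    (hv : ∀ μ, st = .F μ → v ≤ μ) : tr st v ≤ m := by
  match st with
  | .H L => exact hok.1
  | .F μ => exact (hv μ rfl).trans hok

lemma N_le_mul (n m μ : ℕ) (hμ : μ ≤ m) : N (n+1) μ ≤ m * N n μ := by
  have h1 := N_succ_le n μ 0 (by omega)
  rw [N_zero, zero_add, Nat.sub_zero] at h1
  exact h1.trans (Nat.mul_le_mul_right _ hμ)

lemma wt_le (m n : ℕ) (st : St) (hok : Ok m st) :
    wt m n st ≤ m * hd n st + N (n+1) (fm st) := by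
  match st with
  | .H L =>
    simp only [wt, hd, fm, N_zero, add_zero]
    calc ∑ j ∈ range m, N n (L j) ≤ ∑ _j ∈ range m, N n (L 0) := by
          exact sum_le_sum fun j _ => N_mono (ok_le0 hok j)
      _ = m * N n (L 0) := by simp
  | .F μ =>
    simp only [wt, hd, fm]
    omega

/-- total number of conditions -/
def total (m n : ℕ) (S : Finset ℕ) (σ : ℕ → St) : ℕ := ∑ i ∈ S, wt m n (σ i)

/-- total size of the next trace -/
def heads (n : ℕ) (S : Finset ℕ) (σ : ℕ → St) : ℕ := ∑ i ∈ S, hd n (σ i)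

/-- non-simple free points -/
def Uf (S : Finset ℕ) (σ : ℕ → St) : Finset ℕ := S.filter (fun i => 2 ≤ fm (σ i))

/-- simple free points -/
def Xf (S : Finset ℕ) (σ : ℕ → St) : Finset ℕ := S.filter (fun i => fm (σ i) = 1)

/-- sum of full traces over a set of free points -/
def ws (n : ℕ) (F : Finset ℕ) (σ : ℕ → St) : ℕ := ∑ i ∈ F, N n (fm (σ i))

/-- choice function -/
def chf (σ : ℕ → St) (F1 F2 : Finset ℕ) (ν : ℕ) (i : ℕ) : ℕ :=
  if i ∈ F1 then fm (σ i) else if i ∈ F2 then ν else 0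

/-- greedy selection -/
lemma greedy (U Q : Finset ℕ) (w : ℕ → ℕ) (C : ℕ) (hQ : Q ⊆ U) (hC : ∑ i ∈ Q, w i ≤ C) :
    ∃ F ⊆ U, Q ⊆ F ∧ ∑ i ∈ F, w i ≤ C ∧ ∀ i ∈ U \ F, C < ∑ i ∈ F, w i + w i := by
  classical
  let fam : Finset (Finset ℕ) := U.powerset.filter (fun F => Q ⊆ F ∧ ∑ i ∈ F, w i ≤ C)
  have hne : fam.Nonempty := ⟨Q, by simp [fam, hQ, hC]⟩
  obtain ⟨F, hF, hmax⟩ := exists_max_image fam Finset.card hne
  simp only [fam, mem_filter, mem_powerset] at hF hmax
  refine ⟨F, hF.1, hF.2.1, hF.2.2, fun i hi => ?_⟩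
  rw [mem_sdiff] at hi
  by_contra hcon
  push Not at hcon
  have h1 := hmax (insert i F) ⟨insert_subset hi.1 hF.1,
    hF.2.1.trans (subset_insert _ _), by
      rw [sum_insert hi.2]
      omega⟩
  rw [card_insert_of_notMem hi.2] at h1
  omega

/-- validity of a choice -/
structure Valid (S : Finset ℕ) (σ : ℕ → St) (F1 F2 : Finset ℕ) (ν : ℕ) : Prop where
  h1 : ∀ i ∈ F1, i ∈ S ∧ 1 ≤ fm (σ i)
  h2 : ∀ i ∈ F2, i ∈ S ∧ ν ≤ fm (σ i)
  hν : 1 ≤ ν
  hdis : Disjoint F1 F2

lemma Valid.of_empty {S : Finset ℕ} {σ : ℕ → St} {F1 : Finset ℕ}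
    (h1 : ∀ i ∈ F1, i ∈ S ∧ 1 ≤ fm (σ i)) : Valid S σ F1 ∅ 1 :=
  ⟨h1, fun i hi => absurd hi (notMem_empty i), le_rfl, disjoint_empty_right _⟩

section step

variable {S : Finset ℕ} {σ : ℕ → St} {F1 F2 : Finset ℕ} {ν : ℕ}

lemma chf_le (hv : Valid S σ F1 F2 ν) (i : ℕ) : chf σ F1 F2 ν i ≤ fm (σ i) := by
  unfold chf
  split_ifs with h h'
  · exact le_rfl
  · exact (hv.h2 i h').2
  · exact Nat.zero_le _

lemma chf_le' (hv : Valid S σ F1 F2 ν) (i : ℕ) (μ : ℕ) (hσ : σ i = .F μ) :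
    chf σ F1 F2 ν i ≤ μ := by
  have := chf_le hv i
  rw [hσ] at this
  exact this

lemma tr_sum (n : ℕ) (hv : Valid S σ F1 F2 ν) :
    ∑ i ∈ S, N n (tr (σ i) (chf σ F1 F2 ν i)) =
      heads n S σ + ws n F1 σ + F2.card * N n ν := by
  classical
  have key : ∀ i ∈ S, N n (tr (σ i) (chf σ F1 F2 ν i)) = hd n (σ i)
      + (if i ∈ F1 then N n (fm (σ i)) else 0) + (if i ∈ F2 then N n ν else 0) := by
    intro i _
    match hσ : σ i with
    | .H L =>
      have hi1 : i ∉ F1 := fun h => by have := (hv.h1 i h).2; rw [hσ] at this; simp [fm] at this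
      have hi2 : i ∉ F2 := fun h => by
        have := (hv.h2 i h).2
        have h3 := hv.hν
        rw [hσ] at this
        simp only [fm] at this
        omega
      rw [if_neg hi1, if_neg hi2]
      simp only [tr, hd]
      omega
    | .F μ =>
      simp only [hd, fm, zero_add, chf]
      by_cases hi1 : i ∈ F1
      · have hi2 : i ∉ F2 := fun h => (disjoint_left.1 hv.hdis) hi1 h
        rw [if_pos hi1, if_pos hi1, if_neg hi2, hσ]
        rfl
      · rw [if_neg hi1, if_neg hi1]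
        by_cases hi2 : i ∈ F2
        · rw [if_pos hi2, if_pos hi2]
          simp only [tr]
          omega
        · rw [if_neg hi2, if_neg hi2]
          simp only [tr, N_zero]
  rw [sum_congr rfl key, sum_add_distrib, sum_add_distrib, heads, ws]
  congr 1
  · congr 1
    rw [← sum_filter]
    refine sum_congr ?_ (fun _ _ => rfl)
    ext i
    rw [mem_filter]
    exact ⟨fun h => h.2, fun h => ⟨(hv.h1 i h).1, h⟩⟩
  · rw [← sum_filter, sum_const, smul_eq_mul]
    congr 2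
    ext i
    rw [mem_filter]
    exact ⟨fun h => h.2, fun h => ⟨(hv.h2 i h).1, h⟩⟩

/-- the next state -/
def nxs (σ : ℕ → St) (F1 F2 : Finset ℕ) (ν : ℕ) (i : ℕ) : St := nx (σ i) (chf σ F1 F2 ν i)

lemma nxs_ok {m : ℕ} (hok : ∀ i ∈ S, Ok m (σ i)) : ∀ i ∈ S, Ok m (nxs σ F1 F2 ν i) :=
  fun i hi => ok_next m _ _ (hok i hi)

lemma nxs_total {m n : ℕ} (hok : ∀ i ∈ S, Ok m (σ i)) (hv : Valid S σ F1 F2 ν) :
    total m n S (nxs σ F1 F2 ν) + (heads n S σ + ws n F1 σ + F2.card * N n ν)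
      = total m n S σ := by
  rw [← tr_sum n hv, total, total, ← sum_add_distrib]
  refine sum_congr rfl fun i hi => ?_
  rw [wt_split m n (σ i) (chf σ F1 F2 ν i) (hok i hi) (chf_le' hv i), nxs]
  ring

lemma nxs_heads {m n : ℕ} (hn : 1 ≤ n) (hok : ∀ i ∈ S, Ok m (σ i)) (hv : Valid S σ F1 F2 ν) :
    (m - 1 + n) * heads n S (nxs σ F1 F2 ν) ≤
      (m - 1) * (heads n S σ + ws n F1 σ + F2.card * N n ν)
        + (m - 1 + n) * (F2.card * N n m) := by
  classical
  rw [heads, mul_sum]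
  calc ∑ i ∈ S, (m - 1 + n) * hd n (nxs σ F1 F2 ν i)
      ≤ ∑ i ∈ S, ((m - 1) * N n (tr (σ i) (chf σ F1 F2 ν i))
        + (if i ∈ F2 then (m - 1 + n) * N n m else 0)) := by
        refine sum_le_sum fun i hi => ?_
        refine (hd_next m n hn (σ i) (chf σ F1 F2 ν i) (hok i hi) (chf_le' hv i)).trans ?_
        refine Nat.add_le_add_left ?_ _
        by_cases h : 1 ≤ chf σ F1 F2 ν i ∧ chf σ F1 F2 ν i < fm (σ i)
        · rw [if_pos h, if_pos]
          by_contra hi2
          unfold chf at h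
          rw [if_neg hi2] at h
          split_ifs at h <;> omega
        · rw [if_neg h]
          exact Nat.zero_le _
    _ = _ := by
        rw [sum_add_distrib, ← mul_sum, tr_sum n hv]
        congr 1
        rw [← sum_filter, sum_const, smul_eq_mul]
        have : S.filter (fun i => i ∈ F2) = F2 := by
          ext i
          rw [mem_filter]
          exact ⟨fun h => h.2, fun h => ⟨(hv.h2 i h).1, h⟩⟩
        rw [this]
        ring

lemma nxs_step (k : Type) [Field k] {n e : ℕ} (hv : Valid S σ F1 F2 ν)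
    (htr : TInj k n (e+1) S (fun i => tr (σ i) (chf σ F1 F2 ν i)))
    (hres : SInj k n e S (nxs σ F1 F2 ν)) : SInj k n (e+1) S σ :=
  horace n e S σ (chf σ F1 F2 ν) (fun i _ => chf_le' hv i) htr hres

lemma fm_nx (st : St) (v : ℕ) : fm (nx st v) = if v = 0 then fm st else 0 := by
  match st with
  | .H L => simp [nx, fm]
  | .F μ =>
    simp only [nx]
    split_ifs <;> rfl

lemma fm_nxs (hv : Valid S σ F1 F2 ν) (i : ℕ) :
    fm (nxs σ F1 F2 ν i) = if i ∈ F1 ∨ i ∈ F2 then 0 else fm (σ i) := by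
  rw [nxs, fm_nx, chf]
  have hν := hv.hν
  by_cases h1 : i ∈ F1
  · have := (hv.h1 i h1).2
    rw [if_pos h1, if_neg (by omega), if_pos (Or.inl h1)]
  · rw [if_neg h1]
    by_cases h2 : i ∈ F2
    · rw [if_pos h2, if_neg (by omega), if_pos (Or.inr h2)]
    · rw [if_neg h2, if_pos rfl, if_neg (by tauto)]

lemma Uf_nxs (hv : Valid S σ F1 F2 ν) :
    Uf S (nxs σ F1 F2 ν) = Uf S σ \ (F1 ∪ F2) := by
  ext i
  rw [Uf, Uf, mem_filter, mem_sdiff, mem_filter, fm_nxs hv, mem_union]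
  by_cases h : i ∈ F1 ∨ i ∈ F2
  · rw [if_pos h]
    simp [h]
  · rw [if_neg h]
    simp [h]

lemma Xf_nxs (hv : Valid S σ F1 F2 ν) :
    Xf S (nxs σ F1 F2 ν) = Xf S σ \ (F1 ∪ F2) := by
  ext i
  rw [Xf, Xf, mem_filter, mem_sdiff, mem_filter, fm_nxs hv, mem_union]
  by_cases h : i ∈ F1 ∨ i ∈ F2
  · rw [if_pos h]
    simp [h]
  · rw [if_neg h]
    simp [h]

end step

lemma total_le (m n : ℕ) (S : Finset ℕ) (σ : ℕ → St) (hok : ∀ i ∈ S, Ok m (σ i)) :
    total m n S σ ≤ m * heads n S σ + ∑ i ∈ Uf S σ, N (n+1) (fm (σ i)) + (Xf S σ).card := by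
  classical
  have key : ∀ i ∈ S, wt m n (σ i) ≤ m * hd n (σ i)
      + (if 2 ≤ fm (σ i) then N (n+1) (fm (σ i)) else 0) + (if fm (σ i) = 1 then 1 else 0) := by
    intro i hi
    refine (wt_le m n (σ i) (hok i hi)).trans ?_
    rw [add_assoc]
    refine Nat.add_le_add_left ?_ _
    by_cases h2 : 2 ≤ fm (σ i)
    · rw [if_pos h2]; omega
    · rw [if_neg h2, zero_add]
      by_cases h1 : fm (σ i) = 1
      · rw [if_pos h1, h1, N_one]
      · have h0 : fm (σ i) = 0 := by omega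
        rw [h0, N_zero]
        omega
  refine (sum_le_sum key).trans ?_
  rw [sum_add_distrib, sum_add_distrib, ← mul_sum, ← sum_filter, ← sum_filter]
  rw [heads, Uf, Xf, card_eq_sum_ones]

lemma total_le' (m n : ℕ) (S : Finset ℕ) (σ : ℕ → St) (hok : ∀ i ∈ S, Ok m (σ i)) :
    total m n S σ ≤ m * (heads n S σ + ws n (Uf S σ) σ) + (Xf S σ).card := by
  refine (total_le m n S σ hok).trans ?_
  have : ∑ i ∈ Uf S σ, N (n+1) (fm (σ i)) ≤ m * ws n (Uf S σ) σ := by
    rw [ws, mul_sum]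
    refine sum_le_sum fun i hi => N_le_mul n m _ ?_
    have h1 := hok i (mem_filter.1 hi).1
    revert h1
    match σ i with
    | .H L => intro _; exact Nat.zero_le _
    | .F μ => intro h; exact h
  rw [mul_add]
  omega

lemma fm_le {m : ℕ} {st : St} (h : Ok m st) : fm st ≤ m := by
  match st with
  | .H L => exact Nat.zero_le _
  | .F μ => exact h

lemma ws_le (m n : ℕ) (F : Finset ℕ) (σ : ℕ → St) (hok : ∀ i ∈ F, Ok m (σ i)) :
    ws n F σ ≤ F.card * N n m := by
  rw [ws, ← smul_eq_mul, ← sum_const]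
  exact sum_le_sum fun i hi => N_mono (fm_le (hok i hi))

lemma ws_one (n : ℕ) (F : Finset ℕ) (σ : ℕ → St) (h : ∀ i ∈ F, fm (σ i) = 1) :
    ws n F σ = F.card := by
  rw [ws, card_eq_sum_ones]
  exact sum_congr rfl fun i hi => by rw [h i hi, N_one]

end Pool.Agent.Helper46.EAH
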