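import Mathlib
import Pool.Agent.Helper46.EAH.Count

/-! The induction process. -/

namespace Pool.Agent.Helper46.EAH

open Finset

variable {k : Type} [Field k]

section basics

variable {n m e : ℕ} {S : Finset ℕ} {σ : ℕ → St} {F1 F2 : Finset ℕ} {ν : ℕ}

lemma tinj_ex {D : ℕ} (hEX : EX k n m D) (hD : D ≤ e + 1) (hok : ∀ i ∈ S, Ok m (σ i))
    (hv : Valid S σ F1 F2 ν) (hs : heads n S σ + ws n F1 σ + F2.card * N n ν = N n (e+2)) :
    TInj k n (e+1) S (fun i => tr (σ i) (chf σ F1 F2 ν i)) := by
  refine hEX (e+1) hD S _ (fun i hi => tr_le m _ _ (hok i hi) (chf_le' hv i)) ?_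
  rw [tr_sum n hv, hs]

lemma tinj_ap1 {W : ℕ} (hAP : AP1 k n m W) (hok : ∀ i ∈ S, Ok m (σ i))
    (hv : Valid S σ F1 F2 ν) (hs : N n (e+2) + W ≤ heads n S σ + ws n F1 σ + F2.card * N n ν) :
    TInj k n (e+1) S (fun i => tr (σ i) (chf σ F1 F2 ν i)) := by
  refine hAP (e+1) S _ (fun i hi => tr_le m _ _ (hok i hi) (chf_le' hv i)) ?_
  rw [tr_sum n hv]
  exact hs

lemma tinj_ap2 {W : ℕ} (hAP : AP2 k n m W) (hok : ∀ i ∈ S, Ok m (σ i))
    (hv : Valid S σ F1 F2 ν) (Y : Finset ℕ) (hY : Y ⊆ F1) (hYX : Y ⊆ Xf S σ) (hW : W ≤ Y.card)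
    (hs : heads n S σ + ws n F1 σ + F2.card * N n ν = N n (e+2)) :
    TInj k n (e+1) S (fun i => tr (σ i) (chf σ F1 F2 ν i)) := by
  refine hAP (e+1) S _ (fun i hi => tr_le m _ _ (hok i hi) (chf_le' hv i)) ?_ ?_
  · refine hW.trans (card_le_card ?_)
    intro i hi
    have h1 := mem_filter.1 (hYX hi)
    rw [mem_filter]
    refine ⟨h1.1, ?_⟩
    have h2 : chf σ F1 F2 ν i = 1 := by
      rw [chf, if_pos (hY hi), h1.2]
    rw [h2]
    revert h1
    match σ i with
    | .H L => intro h1; simp [fm] at h1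
    | .F μ => intro _; rfl
  · rw [tr_sum n hv, hs]

lemma next_heads (Z : ℕ) (hn : 1 ≤ n) (hok : ∀ i ∈ S, Ok m (σ i)) (hv : Valid S σ F1 F2 ν)
    (hs : heads n S σ + ws n F1 σ + F2.card * N n ν ≤ N n (e+2))
    (hnum : (m - 1) * N n (e+2) + (m - 1 + n) * (Z + F2.card * N n m) ≤ (m - 1 + n) * N n (e+1)) :
    heads n S (nxs σ F1 F2 ν) + Z ≤ N n (e+1) := by
  have h1 := nxs_heads (m := m) hn hok hv
  have h2 := Nat.mul_le_mul_left (m - 1) hs
  have h3 : (m - 1 + n) * (heads n S (nxs σ F1 F2 ν) + Z) ≤ (m - 1 + n) * N n (e+1) := by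
    rw [mul_add] at hnum ⊢
    omega
  exact Nat.le_of_mul_le_mul_left h3 (by omega)

lemma next_total (y : ℕ) (hok : ∀ i ∈ S, Ok m (σ i)) (hv : Valid S σ F1 F2 ν)
    (hs : heads n S σ + ws n F1 σ + F2.card * N n ν ≤ N n (e+2))
    (ht : N (n+1) (e+2) + y ≤ total m n S σ) :
    N (n+1) (e+1) + y ≤ total m n S (nxs σ F1 F2 ν) := by
  have h1 := nxs_total (m := m) (n := n) hok hv
  have h2 : N (n+1) (e+2) = N (n+1) (e+1) + N n (e+2) := N_rec n (e+1)
  omega

lemma Xf_fm {i : ℕ} (h : i ∈ Xf S σ) : i ∈ S ∧ 1 ≤ fm (σ i) := by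
  have := mem_filter.1 h
  exact ⟨this.1, by omega⟩

lemma Uf_fm {i : ℕ} (h : i ∈ Uf S σ) : i ∈ S ∧ 1 ≤ fm (σ i) := by
  have := mem_filter.1 h
  exact ⟨this.1, by omega⟩

lemma Uf_Xf : Disjoint (Uf S σ) (Xf S σ) := by
  rw [disjoint_left]
  intro i h1 h2
  have h3 := (mem_filter.1 h1).2
  have h4 := (mem_filter.1 h2).2
  omega

lemma ws_union {A B : Finset ℕ} (h : Disjoint A B) : ws n (A ∪ B) σ = ws n A σ + ws n B σ := by
  rw [ws, sum_union h]
  rfl

lemma ws_Y {Y : Finset ℕ} (h : Y ⊆ Xf S σ) : ws n Y σ = Y.card :=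
  ws_one n Y σ fun _ hi => (mem_filter.1 (h hi)).2

lemma kill_X (hX : N (n+1) (e+1) ≤ (Xf S σ).card) : SInj k n e S σ := by
  refine simple_kill n e S σ (Xf S σ) (filter_subset _ _) ?_ ?_
  · intro i hi
    have h1 := (mem_filter.1 hi).2
    revert h1
    match σ i with
    | .H L => intro h1; simp [fm] at h1
    | .F μ => intro h1; exact ⟨μ, by simpa [fm] using h1.ge, rfl⟩
  · rw [card_Box]
    exact hX

end basics

/-- the hypotheses of the inductive step -/
structure Hyp (k : Type) [Field k] (n m D W K et Es w2 : ℕ) : Prop where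
  hn : 1 ≤ n
  hm : 1 ≤ m
  hK : 1 ≤ K
  ex : EX k n m D
  ap1 : AP1 k n m W
  ap2 : AP2 k n m W
  rep : ∀ δ < N n m, ∃ κ ν, κ ≤ K ∧ 1 ≤ ν ∧ κ * N n ν = δ ∧ ∀ μ, δ < N n μ → ν ≤ μ
  t1 : ∀ e, et ≤ e → (m - 1) * N n (e+2) + (m - 1 + n) * W ≤ (m - 1 + n) * N n (e+1)
  t2 : ∀ e, et ≤ e → (m + 1) * N n (e+1) ≤ N (n+1) (e+1)
  s1 : ∀ e, Es ≤ e + 1 → (m - 1) * N n (e+2) + (m - 1 + n) * (W + K * N n m)
    ≤ (m - 1 + n) * N n (e+1)
  hD : D ≤ Es
  hEs : et + m + 1 ≤ Es
  hw2 : w2 = N (n+1) (et + m + 2) + (Es - (et + m + 1)) * (W + N n m)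
  s2 : ∀ e, Es ≤ e → w2 + m * N n (e+1) + K * N (n+1) m ≤ N (n+1) (e+1)

section process

variable {n m D W K et Es w2 : ℕ}

lemma Hyp.X_large (H : Hyp k n m D W K et Es w2) {e : ℕ} {S : Finset ℕ} {σ : ℕ → St}
    (hok : ∀ i ∈ S, Ok m (σ i)) (he : et ≤ e)
    (hs : heads n S σ + ws n (Uf S σ) σ ≤ N n (e+1)) (ht : N (n+1) (e+1) ≤ total m n S σ) :
    N n (e+1) ≤ (Xf S σ).card := by
  have h1 := total_le' m n S σ hok
  have h2 := H.t2 e he
  have h3 := Nat.mul_le_mul_left m hs
  rw [add_mul, one_mul] at h2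
  omega

theorem Hyp.S0 (H : Hyp k n m D W K et Es w2) : ∀ (l e : ℕ) (S : Finset ℕ) (σ : ℕ → St),
    (∀ i ∈ S, Ok m (σ i)) → Uf S σ = ∅ → (∀ i ∈ S, ∀ L, σ i = .H L → L l = 0) →
    heads n S σ + W ≤ N n (e+1) → N (n+1) (e+1) ≤ total m n S σ → et + l ≤ e →
    SInj k n e S σ := by
  intro l
  induction l with
  | zero =>
    intro e S σ hok hU hL hh ht he
    apply kill_X
    have h1 := total_le' m n S σ hok
    have h2 : heads n S σ = 0 := by
      rw [heads, sum_eq_zero_iff]
      intro i hi
      match hσ : σ i with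
      | .H L =>
        simp only [hd]
        rw [hL i hi L hσ, N_zero]
      | .F μ => rfl
    rw [h2, hU] at h1
    simp only [ws, sum_empty, add_zero, mul_zero, zero_add] at h1
    omega
  | succ l ih =>
    intro e S σ hok hU hL hh ht he
    obtain ⟨e, rfl⟩ := Nat.exists_eq_add_of_le' (show 1 ≤ e by omega)
    have hX := H.X_large hok (show et ≤ e + 1 by omega) (by
      rw [hU]
      simp only [ws, sum_empty, add_zero]
      omega) ht
    obtain ⟨Y, hY, hYc⟩ := exists_subset_card_eq
      (show N n (e+1+1) - heads n S σ ≤ (Xf S σ).card by omega)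
    have hv : Valid S σ Y ∅ 1 := Valid.of_empty (fun i hi => Xf_fm (hY hi))
    have hsum : heads n S σ + ws n Y σ + (∅ : Finset ℕ).card * N n 1 = N n (e+2) := by
      rw [ws_Y hY, hYc, card_empty, zero_mul]
      have : e + 1 + 1 = e + 2 := rfl
      rw [this] at *
      omega
    refine nxs_step k hv (tinj_ap2 H.ap2 hok hv Y subset_rfl hY (by omega) hsum) ?_
    refine ih e S _ (nxs_ok hok) ?_ ?_ ?_ ?_ (by omega)
    · rw [Uf_nxs hv, hU]
      exact empty_sdiff _
    · intro i hi L hσL
      match hσ : σ i with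
      | .H L' =>
        rw [nxs, hσ] at hσL
        simp only [nx, St.H.injEq] at hσL
        rw [← hσL]
        exact hL i hi L' hσ
      | .F μ =>
        rw [nxs, hσ] at hσL
        simp only [nx] at hσL
        split_ifs at hσL with h0
        simp only [St.H.injEq] at hσL
        have h3 : i ∈ Y := by
          by_contra hcon
          apply h0
          rw [chf, if_neg hcon, if_neg (notMem_empty i)]
        have h4 := (mem_filter.1 (hY h3)).2
        rw [hσ] at h4
        simp only [fm] at h4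
        have h5 : chf σ Y ∅ 1 i = 1 := by rw [chf, if_pos h3, hσ]; exact h4
        rw [← hσL, h5, h4]
        simp only [rest]
        rw [if_neg (by omega)]
        omega
    · refine next_heads W H.hn hok hv hsum.le ?_
      rw [card_empty, zero_mul, add_zero]
      exact H.t1 e (by omega)
    · exact next_total 0 hok hv hsum.le ht

theorem Hyp.Few (H : Hyp k n m D W K et Es w2) (e : ℕ) (S : Finset ℕ) (σ : ℕ → St)
    (hok : ∀ i ∈ S, Ok m (σ i)) (hh : heads n S σ + ws n (Uf S σ) σ + W ≤ N n (e+1))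
    (ht : N (n+1) (e+1) ≤ total m n S σ) (he : et + m + 1 ≤ e) :
    SInj k n e S σ := by
  obtain ⟨e, rfl⟩ := Nat.exists_eq_add_of_le' (show 1 ≤ e by omega)
  have hX := H.X_large hok (show et ≤ e + 1 by omega) (by omega) ht
  obtain ⟨Y, hY, hYc⟩ := exists_subset_card_eq
    (show N n (e+1+1) - heads n S σ - ws n (Uf S σ) σ ≤ (Xf S σ).card by omega)
  have hdis : Disjoint (Uf S σ) Y := disjoint_of_subset_right hY Uf_Xf
  have hv : Valid S σ (Uf S σ ∪ Y) ∅ 1 := Valid.of_empty (fun i hi => by
    rcases mem_union.1 hi with h | h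
    · exact Uf_fm h
    · exact Xf_fm (hY h))
  have hsum : heads n S σ + ws n (Uf S σ ∪ Y) σ + (∅ : Finset ℕ).card * N n 1 = N n (e+2) := by
    rw [ws_union hdis, ws_Y hY, hYc, card_empty, zero_mul]
    have : e + 1 + 1 = e + 2 := rfl
    rw [this] at *
    omega
  refine nxs_step k hv (tinj_ap2 H.ap2 hok hv Y subset_union_right hY (by omega) hsum) ?_
  refine H.S0 m e S _ (nxs_ok hok) ?_ ?_ ?_ ?_ (by omega)
  · rw [Uf_nxs hv, union_empty, sdiff_eq_empty_iff_subset]
    exact subset_union_left
  · intro i hi L hσL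
    have h1 := nxs_ok (F1 := Uf S σ ∪ Y) (F2 := ∅) (ν := 1) hok i hi
    rw [hσL] at h1
    exact ok_m h1
  · refine next_heads W H.hn hok hv hsum.le ?_
    rw [card_empty, zero_mul, add_zero]
    exact H.t1 e (by omega)
  · exact next_total 0 hok hv hsum.le ht

/-- number of simple points needed in degree `e` -/
def w2f (n m W et Es e : ℕ) : ℕ :=
  N (n+1) (et + m + 2) + (min e Es - (et + m + 1)) * (W + N n m)

lemma w2f_mono {e e' : ℕ} (h : e ≤ e') : w2f n m W et Es e ≤ w2f n m W et Es e' := by
  unfold w2f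
  refine Nat.add_le_add_left (Nat.mul_le_mul_right _ ?_) _
  omega

lemma Hyp.w2f_le (H : Hyp k n m D W K et Es w2) (e : ℕ) : w2f n m W et Es e ≤ w2 := by
  rw [H.hw2]
  unfold w2f
  refine Nat.add_le_add_left (Nat.mul_le_mul_right _ ?_) _
  omega

lemma Hyp.Nm_le (H : Hyp k n m D W K et Es w2) (e : ℕ) : N n m ≤ w2f n m W et Es e := by
  unfold w2f
  have h1 : N n m ≤ N (n+1) m := by
    have := N_rec' n H.hm
    omega
  have h2 : N (n+1) m ≤ N (n+1) (et + m + 2) := N_mono (by omega)
  omega

theorem Hyp.Bii (H : Hyp k n m D W K et Es w2) (e : ℕ) (he : et + m + 1 ≤ e) :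
    ∀ (S : Finset ℕ) (σ : ℕ → St), (∀ i ∈ S, Ok m (σ i)) →
    heads n S σ + (if e < Es then W else 0) ≤ N n (e+1) → N (n+1) (e+1) ≤ total m n S σ →
    w2f n m W et Es e ≤ (Xf S σ).card → SInj k n e S σ := by
  induction e, he using Nat.le_induction with
  | base =>
    intro S σ hok hh ht hX
    apply kill_X
    refine le_trans ?_ hX
    unfold w2f
    exact Nat.le_add_right _ _
  | succ e he ih =>
    intro S σ hok hh ht hX
    by_cases hlow : e + 1 < Es
    · rw [if_pos hlow] at hh
      obtain ⟨F, hFU, -, hFs, hFm⟩ := greedy (Uf S σ) ∅ (fun i => N n (fm (σ i)))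
        (N n (e+2) - heads n S σ - W) (empty_subset _) (by simp)
      change ws n F σ ≤ _ at hFs
      by_cases hex : Uf S σ \ F = ∅
      · have hFU' : F = Uf S σ := Subset.antisymm hFU (sdiff_eq_empty_iff_subset.1 hex)
        rw [hFU'] at hFs
        have : e + 1 + 1 = e + 2 := rfl
        rw [this] at *
        exact H.Few (e+1) S σ hok (by rw [this]; omega) ht (by omega)
      · obtain ⟨i, hi⟩ := nonempty_iff_ne_empty.2 hex
        have h1 := hFm i hi
        change _ < ws n F σ + _ at h1
        have h2 : N n (fm (σ i)) ≤ N n m :=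
          N_mono (fm_le (hok i (mem_filter.1 (mem_sdiff.1 hi).1).1))
        have hw : w2f n m W et Es (e+1) = w2f n m W et Es e + (W + N n m) := by
          unfold w2f
          have h3 : min (e+1) Es - (et + m + 1) = (min e Es - (et + m + 1)) + 1 := by omega
          rw [h3, add_mul, one_mul]
          ring
        have : e + 1 + 1 = e + 2 := rfl
        rw [this] at hh ht
        obtain ⟨Y, hY, hYc⟩ := exists_subset_card_eq
          (show N n (e+2) - heads n S σ - ws n F σ ≤ (Xf S σ).card by omega)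
        have hdis : Disjoint F Y := disjoint_of_subset_left hFU (disjoint_of_subset_right hY Uf_Xf)
        have hv : Valid S σ (F ∪ Y) ∅ 1 := Valid.of_empty (fun i hi => by
          rcases mem_union.1 hi with h | h
          · exact Uf_fm (hFU h)
          · exact Xf_fm (hY h))
        have hsum : heads n S σ + ws n (F ∪ Y) σ + (∅ : Finset ℕ).card * N n 1 = N n (e+2) := by
          rw [ws_union hdis, ws_Y hY, hYc, card_empty, zero_mul]
          omega
        refine nxs_step k hv (tinj_ap2 H.ap2 hok hv Y subset_union_right hY (by omega) hsum) ?_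
        refine ih _ _ (nxs_ok hok) ?_ (next_total 0 hok hv hsum.le ht) ?_
        · rw [if_pos (by omega)]
          refine next_heads W H.hn hok hv hsum.le ?_
          rw [card_empty, zero_mul, add_zero]
          exact H.t1 e (by omega)
        · rw [Xf_nxs hv, union_empty]
          have h4 : Xf S σ \ (F ∪ Y) = Xf S σ \ Y := by
            ext j
            rw [mem_sdiff, mem_sdiff, mem_union]
            constructor
            · rintro ⟨h5, h6⟩
              exact ⟨h5, fun h7 => h6 (Or.inr h7)⟩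
            · rintro ⟨h5, h6⟩
              refine ⟨h5, fun h7 => ?_⟩
              rcases h7 with h7 | h7
              · exact (disjoint_left.1 Uf_Xf) (hFU h7) h5
              · exact h6 h7
          rw [h4, card_sdiff_of_subset hY]
          omega
    · rw [if_neg hlow, add_zero] at hh
      have hDe : D ≤ e + 1 := by have := H.hD; omega
      obtain ⟨F, hFU, -, hFs, hFm⟩ := greedy (Uf S σ) ∅ (fun i => N n (fm (σ i)))
        (N n (e+2) - heads n S σ) (empty_subset _) (by simp)
      change ws n F σ ≤ _ at hFs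
      have h12 : e + 1 + 1 = e + 2 := rfl
      rw [h12] at hh ht
      by_cases hex : Uf S σ \ F = ∅
      · have hFU' : F = Uf S σ := Subset.antisymm hFU (sdiff_eq_empty_iff_subset.1 hex)
        rw [hFU'] at hFs
        have hXl := H.X_large hok (show et ≤ e + 1 by omega) (by rw [h12]; omega) ht
        rw [h12] at hXl
        obtain ⟨Y, hY, hYc⟩ := exists_subset_card_eq
          (show N n (e+2) - heads n S σ - ws n (Uf S σ) σ ≤ (Xf S σ).card by omega)
        have hdis : Disjoint (Uf S σ) Y := disjoint_of_subset_right hY Uf_Xf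
        have hv : Valid S σ (Uf S σ ∪ Y) ∅ 1 := Valid.of_empty (fun i hi => by
          rcases mem_union.1 hi with h | h
          · exact Uf_fm h
          · exact Xf_fm (hY h))
        have hsum : heads n S σ + ws n (Uf S σ ∪ Y) σ + (∅ : Finset ℕ).card * N n 1
            = N n (e+2) := by
          rw [ws_union hdis, ws_Y hY, hYc, card_empty, zero_mul]
          omega
        refine nxs_step k hv (tinj_ex H.ex hDe hok hv hsum) ?_
        refine H.S0 m e S _ (nxs_ok hok) ?_ ?_ ?_ ?_ (by omega)
        · rw [Uf_nxs hv, union_empty, sdiff_eq_empty_iff_subset]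
          exact subset_union_left
        · intro i hi L hσL
          have h1 := nxs_ok (F1 := Uf S σ ∪ Y) (F2 := ∅) (ν := 1) hok i hi
          rw [hσL] at h1
          exact ok_m h1
        · refine next_heads W H.hn hok hv hsum.le ?_
          rw [card_empty, zero_mul, add_zero]
          exact H.t1 e (by omega)
        · exact next_total 0 hok hv hsum.le ht
      · obtain ⟨i, hi⟩ := nonempty_iff_ne_empty.2 hex
        have hgap : ∀ i ∈ Uf S σ \ F, N n (e+2) - heads n S σ - ws n F σ < N n (fm (σ i)) := by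
          intro i hi
          have h1 := hFm i hi
          change _ < ws n F σ + _ at h1
          omega
        have hgm : N n (e+2) - heads n S σ - ws n F σ < N n m :=
          (hgap i hi).trans_le
            (N_mono (fm_le (hok i (mem_filter.1 (mem_sdiff.1 hi).1).1)))
        obtain ⟨κ, ν, hκ, hν, hκν, hνm⟩ := H.rep _ hgm
        by_cases hκU : κ ≤ (Uf S σ \ F).card
        · obtain ⟨F2, hF2, hF2c⟩ := exists_subset_card_eq hκU
          have hv : Valid S σ F F2 ν := ⟨fun j hj => Uf_fm (hFU hj), fun j hj =>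
            ⟨(Uf_fm (mem_sdiff.1 (hF2 hj)).1).1, hνm _ (hgap j (hF2 hj))⟩, hν,
            disjoint_left.2 fun j hj hj2 => (mem_sdiff.1 (hF2 hj2)).2 hj⟩
          have hsum : heads n S σ + ws n F σ + F2.card * N n ν = N n (e+2) := by
            rw [hF2c, hκν]
            omega
          refine nxs_step k hv (tinj_ex H.ex hDe hok hv hsum) ?_
          have hnh : heads n S (nxs σ F F2 ν) + W ≤ N n (e+1) := by
            refine next_heads W H.hn hok hv hsum.le ?_
            refine le_trans ?_ (H.s1 e (by omega))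
            refine Nat.add_le_add_left (Nat.mul_le_mul_left _ (Nat.add_le_add_left ?_ _)) _
            rw [hF2c]
            exact Nat.mul_le_mul_right _ hκ
          refine ih _ _ (nxs_ok hok) ?_ (next_total 0 hok hv hsum.le ht) ?_
          · split_ifs <;> omega
          · rw [Xf_nxs hv]
            refine (w2f_mono (show e ≤ e + 1 by omega)).trans (hX.trans (le_of_eq ?_))
            congr 1
            ext j
            rw [mem_sdiff, mem_union]
            constructor
            · intro h5
              refine ⟨h5, fun h7 => ?_⟩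
              rcases h7 with h7 | h7
              · exact (disjoint_left.1 Uf_Xf) (hFU h7) h5
              · exact (disjoint_left.1 Uf_Xf) (mem_sdiff.1 (hF2 h7)).1 h5
            · exact fun h5 => h5.1
        · have hXN := (H.Nm_le (e+1)).trans hX
          obtain ⟨Y, hY, hYc⟩ := exists_subset_card_eq
            (show N n (e+2) - heads n S σ - ws n F σ ≤ (Xf S σ).card by omega)
          have hdis : Disjoint F Y :=
            disjoint_of_subset_left hFU (disjoint_of_subset_right hY Uf_Xf)
          have hv : Valid S σ (F ∪ Y) ∅ 1 := Valid.of_empty (fun i hi => by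
            rcases mem_union.1 hi with h | h
            · exact Uf_fm (hFU h)
            · exact Xf_fm (hY h))
          have hsum : heads n S σ + ws n (F ∪ Y) σ + (∅ : Finset ℕ).card * N n 1
              = N n (e+2) := by
            rw [ws_union hdis, ws_Y hY, hYc, card_empty, zero_mul]
            omega
          refine nxs_step k hv (tinj_ex H.ex hDe hok hv hsum) ?_
          have hnh : heads n S (nxs σ (F ∪ Y) ∅ 1) + (W + K * N n m) ≤ N n (e+1) := by
            refine next_heads _ H.hn hok hv hsum.le ?_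
            rw [card_empty, zero_mul, add_zero]
            exact H.s1 e (by omega)
          refine H.Few e S _ (nxs_ok hok) ?_ (next_total 0 hok hv hsum.le ht) he
          have hUc : (Uf S (nxs σ (F ∪ Y) ∅ 1)).card ≤ K := by
            rw [Uf_nxs hv, union_empty]
            have h8 : Uf S σ \ (F ∪ Y) ⊆ Uf S σ \ F :=
              sdiff_subset_sdiff subset_rfl subset_union_left
            have := card_le_card h8
            omega
          have h9 := ws_le m n (Uf S (nxs σ (F ∪ Y) ∅ 1)) (nxs σ (F ∪ Y) ∅ 1) (fun i hi =>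
            nxs_ok hok i (mem_filter.1 hi).1)
          have h10 := Nat.mul_le_mul_right (N n m) hUc
          omega

end process

end Pool.Agent.Helper46.EAH
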