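import Mathlib
import Pool.Agent.Helper46.EAH.Process

/-! Overdetermined states. -/

namespace Pool.Agent.Helper46.EAH

open Finset

variable {k : Type} [Field k]

lemma cw_zE {R : Type*} [CommSemiring R] : ∀ (n : ℕ) (P : ℕ → R), cw n P (zE n) (zE n) = 1
  | 0, _ => rfl
  | (n+1), P => by
      simp only [cw, zE]
      rw [cw_zE n P]
      simp

lemma Phi_deg_zero {R : Type*} [CommSemiring R] (n : ℕ) (P : ℕ → R) (c : E n → R) :
    Phi n 0 P (zE n) c = c (zE n) := by
  have h : Box n 0 = {zE n} := by
    ext x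
    rw [mem_Box, mem_singleton]
    constructor
    · intro h
      exact eq_zE_of_sz n x (by omega)
    · intro h
      rw [h, sz_zE]
  rw [Phi, h, sum_singleton, cw_zE, one_mul]

lemma N_convex (n m a : ℕ) (ha : a ≤ m) : m * N n a ≤ a * N n m ∨ n = 0 := by
  rcases Nat.eq_zero_or_pos n with h | hn
  · exact Or.inr h
  left
  induction m, ha using Nat.le_induction with
  | base => exact le_rfl
  | succ m ha ih =>
    have h1 := N_ratio n m
    have h2 : N n a ≤ N n m := N_mono ha
    rcases Nat.eq_zero_or_pos m with h0 | hm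
    · subst h0
      have : a = 0 := by omega
      subst this
      simp [N_zero]
    -- m N(m+1) = (m+n) N m ≥ (m+1) N m
    have h3 : (m + 1) * N n m ≤ m * N n (m+1) := by
      rw [← h1]
      exact Nat.mul_le_mul_right _ (by omega)
    have h4 : m * ((m + 1) * N n a) ≤ m * (a * N n (m+1)) := by
      calc m * ((m+1) * N n a) = (m+1) * (m * N n a) := by ring
        _ ≤ (m+1) * (a * N n m) := Nat.mul_le_mul_left _ ih
        _ = a * ((m+1) * N n m) := by ring
        _ ≤ a * (m * N n (m+1)) := Nat.mul_le_mul_left _ h3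
        _ = m * (a * N n (m+1)) := by ring
    exact Nat.le_of_mul_le_mul_left h4 hm

lemma low_ratio (n m e : ℕ) (hn : 1 ≤ n) :
    (m - 1) * N n (e+2) ≤ (m - 1 + n) * N n (e+1) + n * N n m := by
  have h1 : (e + 1 + n) * N n (e+1) = (e + 1) * N n (e+2) := N_ratio n (e+1)
  rcases Nat.lt_or_ge m (e + 2) with h | h
  · -- m - 1 ≤ e + 1
    have h2 : (e+1) * ((m - 1) * N n (e+2)) ≤ (e+1) * ((m - 1 + n) * N n (e+1)) := by
      calc (e+1) * ((m - 1) * N n (e+2)) = (m-1) * ((e+1) * N n (e+2)) := by ring
        _ = (m-1) * (e+1+n) * N n (e+1) := by rw [← h1]; ring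
        _ ≤ (e+1) * (m - 1 + n) * N n (e+1) := by
            apply Nat.mul_le_mul_right
            have h3 : (m-1) * n ≤ (e+1) * n := Nat.mul_le_mul_right _ (by omega)
            calc (m-1) * (e+1+n) = (m-1) * (e+1) + (m-1) * n := by ring
              _ ≤ (m-1) * (e+1) + (e+1) * n := by omega
              _ = (e+1) * (m-1+n) := by ring
        _ = (e+1) * ((m - 1 + n) * N n (e+1)) := by ring
    have h3 := Nat.le_of_mul_le_mul_left h2 (by omega)
    omega
  · -- e + 2 ≤ m
    have h2 : m * N n (e+1) ≤ (e+1) * N n m := by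
      rcases N_convex n m (e+1) (by omega) with h | h
      · exact h
      · omega
    have h3 : (e+1) * ((m - 1) * N n (e+2)) ≤ (e+1) * ((m - 1 + n) * N n (e+1) + n * N n m) := by
      calc (e+1) * ((m - 1) * N n (e+2)) = (m-1) * ((e+1) * N n (e+2)) := by ring
        _ = (m-1) * ((e+1+n) * N n (e+1)) := by rw [← h1]
        _ = (m-1) * (e+1) * N n (e+1) + n * ((m-1) * N n (e+1)) := by ring
        _ ≤ (m-1) * (e+1) * N n (e+1) + n * ((e+1) * N n m) := by
            apply Nat.add_le_add_left
            apply Nat.mul_le_mul_left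
            exact (Nat.mul_le_mul_right _ (by omega)).trans h2
        _ ≤ (m-1+n) * (e+1) * N n (e+1) + n * ((e+1) * N n m) := by
            apply Nat.add_le_add_right
            apply Nat.mul_le_mul_right
            apply Nat.mul_le_mul_right
            omega
        _ = (e+1) * ((m - 1 + n) * N n (e+1) + n * N n m) := by ring
    exact Nat.le_of_mul_le_mul_left h3 (by omega)

variable {n m D W K et Es w2 : ℕ}

theorem Hyp.Bilow (H : Hyp k n m D W K et Es w2) : ∀ (e : ℕ)
    (S : Finset ℕ) (σ : ℕ → St), (∀ i ∈ S, Ok m (σ i)) →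
    heads n S σ ≤ N n (e+1) + W + N n m →
    N (n+1) (e+1) + e * (W + N n m) + m * (W + N n (et+1)) ≤ total m n S σ →
    SInj k n e S σ := by
  intro e
  induction e with
  | zero =>
    intro S σ hok _ ht
    have h1 : 1 ≤ total m n S σ := by
      rw [N_one] at ht
      omega
    have h2 : ∃ i ∈ S, 1 ≤ wt m n (σ i) := by
      by_contra hcon
      push Not at hcon
      have : total m n S σ = 0 := by
        rw [total, sum_eq_zero_iff]
        intro i hi
        have := hcon i hi
        omega
      omega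
    obtain ⟨i, hi, hwi⟩ := h2
    intro c hc x hx
    rw [mem_Box] at hx
    have hx0 := eq_zE_of_sz _ x (by omega)
    subst hx0
    have h3 := hc i hi
    have hoki := hok i hi
    revert h3 hwi hoki
    match σ i with
    | .F μ =>
      intro hwi h3 _
      have hμ : 1 ≤ μ := by
        by_contra hcon
        have : μ = 0 := by omega
        subst this
        simp [wt, N_zero] at hwi
      have h4 := h3 (zE (n+1)) (by rw [sz_zE]; omega)
      rwa [Phi_deg_zero] at h4
    | .H L =>
      intro hwi h3 hoki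
      have hL : 1 ≤ L 0 := by
        by_contra hcon
        have h0 : wt m n (.H L) = 0 := by
          simp only [wt]
          refine sum_eq_zero fun j _ => ?_
          have := ok_le0 hoki j
          rw [show L j = 0 by omega, N_zero]
        omega
      have h4 := h3 0 le_rfl (zE n) (by rw [sz_zE]; omega)
      rw [Nat.sub_zero, Phi_deg_zero] at h4
      exact h4
  | succ e ih =>
    intro S σ hok hh ht
    have h12 : e + 1 + 1 = e + 2 := rfl
    rw [h12] at hh ht
    obtain ⟨F, hFU, -, hFs, hFm⟩ := greedy (Uf S σ ∪ Xf S σ) ∅ (fun i => N n (fm (σ i)))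
      (N n (e+2) + W + N n m - heads n S σ) (empty_subset _) (by simp)
    change ws n F σ ≤ _ at hFs
    have hv : Valid S σ F ∅ 1 := Valid.of_empty (fun i hi => by
      rcases mem_union.1 (hFU hi) with h | h
      · exact Uf_fm h
      · exact Xf_fm h)
    have hsumle : N n (e+2) + W ≤ heads n S σ + ws n F σ := by
      by_cases hex : (Uf S σ ∪ Xf S σ) \ F = ∅
      · by_contra hcon
        push Not at hcon
        have hF : F = Uf S σ ∪ Xf S σ := Subset.antisymm hFU (sdiff_eq_empty_iff_subset.1 hex)
        rw [hF, ws_union Uf_Xf, ws_Y subset_rfl] at hcon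
        have h1 := total_le' m n S σ hok
        have hm := H.hm
        have h2 : total m n S σ ≤ m * (N n (e+2) + W) := by
          refine h1.trans ?_
          calc m * (heads n S σ + ws n (Uf S σ) σ) + (Xf S σ).card
              ≤ m * (heads n S σ + ws n (Uf S σ) σ) + m * (Xf S σ).card :=
                Nat.add_le_add_left (Nat.le_mul_of_pos_left _ hm) _
            _ = m * (heads n S σ + ws n (Uf S σ) σ + (Xf S σ).card) := by ring
            _ ≤ m * (N n (e+2) + W) := Nat.mul_le_mul_left _ (by omega)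
        have h3 := h2.trans' ht
        have e1 : m * (N n (e+2) + W) = m * N n (e+2) + m * W := by ring
        have e2 : m * (W + N n (et+1)) = m * W + m * N n (et+1) := by ring
        have e3 : 0 ≤ (e+1) * (W + N n m) := Nat.zero_le _
        by_cases hee : et ≤ e + 1
        · have h4 := H.t2 (e+1) hee
          rw [h12, add_mul, one_mul] at h4
          have h5 : 1 ≤ N n (e+2) := N_pos (by omega)
          omega
        · have h4 : N n (e+2) ≤ N n (et+1) := N_mono (by omega)
          have h5 := Nat.mul_le_mul_left m h4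
          have h6 : 1 ≤ N (n+1) (e+2) := N_pos (by omega)
          omega
      · obtain ⟨i, hi⟩ := nonempty_iff_ne_empty.2 hex
        have h1 := hFm i hi
        change _ < ws n F σ + _ at h1
        have h2 : N n (fm (σ i)) ≤ N n m := N_mono (fm_le (hok i (by
          rcases mem_union.1 (mem_sdiff.1 hi).1 with h | h
          · exact (mem_filter.1 h).1
          · exact (mem_filter.1 h).1)))
        omega
    have hz : (∅ : Finset ℕ).card * N n 1 = 0 := by rw [card_empty, zero_mul]
    refine nxs_step k hv (tinj_ap1 H.ap1 hok hv (by rw [hz]; omega)) ?_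
    refine ih S _ (nxs_ok hok) ?_ ?_
    · have h1 := nxs_heads (m := m) H.hn hok hv
      rw [card_empty, zero_mul, zero_mul, mul_zero, add_zero, add_zero] at h1
      have h2 : (m - 1) * (heads n S σ + ws n F σ) ≤ (m - 1) * (N n (e+2) + W + N n m) :=
        Nat.mul_le_mul_left _ (by omega)
      have h3 := low_ratio n m e H.hn
      have h4 : (m - 1 + n) * heads n S (nxs σ F ∅ 1)
          ≤ (m - 1 + n) * (N n (e+1) + W + N n m) := by
        have h5 : (m - 1) * (N n (e+2) + W + N n m)
            = (m-1) * N n (e+2) + (m-1) * W + (m-1) * N n m := by ring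
        have h6 : (m - 1 + n) * (N n (e+1) + W + N n m)
            = (m-1+n) * N n (e+1) + (m-1) * W + (m-1) * N n m + n * W + n * N n m := by ring
        omega
      have hn := H.hn
      exact Nat.le_of_mul_le_mul_left h4 (by omega)
    · have h1 := nxs_total (m := m) (n := n) hok hv
      rw [hz] at h1
      have h2 : N (n+1) (e+2) = N (n+1) (e+1) + N n (e+2) := N_rec n (e+1)
      rw [add_mul, one_mul] at ht
      omega

/-- an exact move, or almost all points are simple -/
lemma Hyp.exact_move (H : Hyp k n m D W K et Es w2) {e : ℕ} {S : Finset ℕ} {σ : ℕ → St}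
    (hok : ∀ i ∈ S, Ok m (σ i)) (Q : Finset ℕ) (hQU : Q ⊆ Uf S σ)
    (hQ : heads n S σ + ws n Q σ ≤ N n (e+2)) :
    total m n S σ ≤ m * N n (e+2) + K * N (n+1) m + (Xf S σ).card ∨
    ∃ F1 F2 ν, Valid S σ F1 F2 ν ∧ Q ⊆ F1 ∧ F1 ⊆ Uf S σ ∧ F2 ⊆ Uf S σ ∧ F2.card ≤ K ∧
      heads n S σ + ws n F1 σ + F2.card * N n ν = N n (e+2) := by
  obtain ⟨F, hFU, hQF, hFs, hFm⟩ := greedy (Uf S σ) Q (fun i => N n (fm (σ i)))
    (N n (e+2) - heads n S σ) hQU (by change ws n Q σ ≤ _; omega)
  change ws n F σ ≤ _ at hFs
  by_cases hc : (Uf S σ \ F).card < K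
  · left
    refine (total_le m n S σ hok).trans ?_
    have h1 : ∑ i ∈ Uf S σ, N (n+1) (fm (σ i))
        = ∑ i ∈ Uf S σ \ F, N (n+1) (fm (σ i)) + ∑ i ∈ F, N (n+1) (fm (σ i)) :=
      (sum_sdiff hFU).symm
    have h2 : ∑ i ∈ F, N (n+1) (fm (σ i)) ≤ m * ws n F σ := by
      rw [ws, mul_sum]
      exact sum_le_sum fun i hi => N_le_mul n m _ (fm_le (hok i (mem_filter.1 (hFU hi)).1))
    have h3 : ∑ i ∈ Uf S σ \ F, N (n+1) (fm (σ i)) ≤ K * N (n+1) m := by
      refine le_trans ?_ (Nat.mul_le_mul_right _ hc.le)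
      rw [← smul_eq_mul, ← sum_const]
      exact sum_le_sum fun i hi => N_mono (fm_le (hok i (mem_filter.1 (mem_sdiff.1 hi).1).1))
    have h4 : m * (heads n S σ + ws n F σ) ≤ m * N n (e+2) := Nat.mul_le_mul_left _ (by omega)
    rw [mul_add] at h4
    omega
  · right
    have hK := H.hK
    have hne : (Uf S σ \ F).Nonempty := card_pos.1 (by omega)
    obtain ⟨i, hi⟩ := hne
    have hgap : ∀ i ∈ Uf S σ \ F, N n (e+2) - heads n S σ - ws n F σ < N n (fm (σ i)) := by
      intro i hi
      have h1 := hFm i hi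
      change _ < ws n F σ + _ at h1
      omega
    have hgm : N n (e+2) - heads n S σ - ws n F σ < N n m :=
      (hgap i hi).trans_le
        (N_mono (fm_le (hok i (mem_filter.1 (mem_sdiff.1 hi).1).1)))
    obtain ⟨κ, ν, hκ, hν, hκν, hνm⟩ := H.rep _ hgm
    obtain ⟨F2, hF2, hF2c⟩ := exists_subset_card_eq (show κ ≤ (Uf S σ \ F).card by omega)
    have hv : Valid S σ F F2 ν := ⟨fun j hj => Uf_fm (hFU hj), fun j hj =>
      ⟨(Uf_fm (mem_sdiff.1 (hF2 hj)).1).1, hνm _ (hgap j (hF2 hj))⟩, hν,
      disjoint_left.2 fun j hj hj2 => (mem_sdiff.1 (hF2 hj2)).2 hj⟩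
    refine ⟨F, F2, ν, hv, hQF, hFU, hF2.trans sdiff_subset, by omega, ?_⟩
    rw [hF2c, hκν]
    omega

/-- number of superfluous conditions needed -/
def w1 (n m W et Es : ℕ) : ℕ := Es * (W + N n m) + m * (W + N n (et+1))

theorem Hyp.Bihigh (H : Hyp k n m D W K et Es w2) (e : ℕ) (he : Es ≤ e + 1) :
    ∀ (S : Finset ℕ) (σ : ℕ → St), (∀ i ∈ S, Ok m (σ i)) →
    heads n S σ ≤ N n (e+1) → N (n+1) (e+1) + w1 n m W et Es ≤ total m n S σ →
    SInj k n e S σ := by
  induction e with
  | zero =>
    intro S σ hok hh ht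
    refine H.Bilow 0 S σ hok (by omega) ?_
    have : 0 ≤ Es * (W + N n m) := Nat.zero_le _
    unfold w1 at ht
    omega
  | succ e ih =>
    intro S σ hok hh ht
    by_cases hlow : Es ≤ e + 1
    · have h12 : e + 1 + 1 = e + 2 := rfl
      rw [h12] at hh ht
      rcases H.exact_move hok ∅ (empty_subset _) (by simpa [ws] using hh) with h | h
      · refine H.Bii (e+1) (by have := H.hEs; omega) S σ hok ?_ (by rw [h12]; omega) ?_
        · rw [if_neg (by omega), h12]
          omega
        · have h1 := H.s2 (e+1) (by omega)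
          have h2 := H.w2f_le (e+1)
          rw [h12] at h1
          omega
      · obtain ⟨F1, F2, ν, hv, -, hF1, hF2, hF2c, hsum⟩ := h
        have hD : D ≤ e + 1 := by have := H.hD; omega
        refine nxs_step k hv (tinj_ex H.ex hD hok hv hsum) ?_
        have hnh : heads n S (nxs σ F1 F2 ν) + W ≤ N n (e+1) := by
          refine next_heads W H.hn hok hv hsum.le ?_
          refine le_trans ?_ (H.s1 e (by omega))
          refine Nat.add_le_add_left (Nat.mul_le_mul_left _ (Nat.add_le_add_left ?_ _)) _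
          exact Nat.mul_le_mul_right _ hF2c
        exact ih hlow S _ (nxs_ok hok) (by omega) (next_total _ hok hv hsum.le ht)
    · have hE : Es = e + 2 := by omega
      refine H.Bilow (e+1) S σ hok (by omega) ?_
      unfold w1 at ht
      have : (e+1) * (W + N n m) ≤ Es * (W + N n m) := Nat.mul_le_mul_right _ (by omega)
      omega

end Pool.Agent.Helper46.EAH
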