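import Mathlib
import Pool.Agent.Helper46.EAH.Over

/-! The inductive step on the dimension. -/

namespace Pool.Agent.Helper46.EAH

open Finset

variable {k : Type} [Field k] {n m D W K et Es w2 : ℕ}

lemma exists_fresh (S : Finset ℕ) (q : ℕ) : ∃ Q' : Finset ℕ, Disjoint S Q' ∧ Q'.card = q := by
  obtain ⟨T, hT, hTc⟩ := Infinite.exists_superset_card_eq S (S.card + q) (Nat.le_add_right _ _)
  refine ⟨T \ S, disjoint_sdiff, ?_⟩
  rw [card_sdiff_of_subset hT, hTc]
  omega

/-- the further hypotheses of the inductive step -/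
structure Hyp2 (n m K et Es w2 W W' e1 : ℕ) : Prop where
  he1 : Es + 1 ≤ e1
  hW' : w1 n m W et Es ≤ W'
  hW2 : w2 ≤ W'
  s3 : ∀ e, e1 ≤ e → (m - 1) * N n (e+2) + (m - 1 + n) * (W' + K * N n m)
    ≤ (m - 1 + n) * N n (e+1)

theorem Hyp.Mkappa (H : Hyp k n m D W K et Es w2) {W' e1 : ℕ}
    (H2 : Hyp2 n m K et Es w2 W W' e1) : ∀ (κ e : ℕ) (S : Finset ℕ) (σ : ℕ → St) (Q : Finset ℕ),
    (∀ i ∈ S, Ok m (σ i)) → Q ⊆ S → (∀ i ∈ Q, ∃ L, σ i = .H L ∧ ∀ j, L j = κ + 1 - j) →
    w2 ≤ Q.card → heads n S σ + W' ≤ N n (e+1) → N (n+1) (e+1) ≤ total m n S σ → e1 + κ ≤ e →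
    SInj k n e S σ := by
  intro κ
  have hEs := H.hEs
  have he1 := H2.he1
  have hn := H.hn
  have hm := H.hm
  have hK := H.hK
  have hD := H.hD
  induction κ with
  | zero =>
    intro e S σ Q hok hQS hQ hQc hh ht he
    obtain ⟨e, rfl⟩ := Nat.exists_eq_add_of_le' (show 1 ≤ e by omega)
    have h12 : e + 1 + 1 = e + 2 := rfl
    rw [h12] at hh ht
    obtain ⟨Q', hdis, hQ'c⟩ := exists_fresh S Q.card
    have hwQ : ∀ i ∈ Q, wt m n (σ i) = 1 := by
      intro i hi
      obtain ⟨L, hL, hLj⟩ := hQ i hi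
      rw [hL]
      simp only [wt]
      obtain ⟨m', rfl⟩ := Nat.exists_eq_add_of_le' hm
      rw [sum_range_succ', hLj 0, zero_add, Nat.sub_zero, N_one]
      have : ∑ j ∈ range m', N n (L (j+1)) = 0 := by
        refine sum_eq_zero fun j _ => ?_
        rw [hLj (j+1), show 0 + 1 - (j+1) = 0 by omega, N_zero]
      omega
    have hhQ : ∀ i ∈ Q, hd n (σ i) = 1 := by
      intro i hi
      obtain ⟨L, hL, hLj⟩ := hQ i hi
      rw [hL]
      simp only [hd]
      rw [hLj 0, zero_add, Nat.sub_zero, N_one]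
    have htot : total m n (S \ Q) σ + Q.card = total m n S σ := by
      rw [total, total, ← sum_sdiff hQS, card_eq_sum_ones]
      congr 1
      exact sum_congr rfl fun i hi => (hwQ i hi).symm
    have hhd : heads n (S \ Q) σ + Q.card = heads n S σ := by
      rw [heads, heads, ← sum_sdiff hQS, card_eq_sum_ones]
      congr 1
      exact sum_congr rfl fun i hi => (hhQ i hi).symm
    have hokQ : ∀ i ∈ S \ Q, Ok m (σ i) := fun i hi => hok i (mem_sdiff.1 hi).1
    refine endgame n e S σ Q Q' (fun i hi => ?_) hQS hQ'c.le ?_ ?_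
    · obtain ⟨L, hL, hLj⟩ := hQ i hi
      exact ⟨L, hL, by rw [hLj 0]⟩
    · -- replace the points of `Q` by general simple points
      have hne : ∀ i ∈ S \ Q, i ∉ Q' := fun i hi hi' =>
        (disjoint_left.1 hdis) (mem_sdiff.1 hi).1 hi'
      have hdis' : Disjoint (S \ Q) Q' := disjoint_left.2 hne
      have hA1 : total m n ((S \ Q) ∪ Q') (fun i => if i ∈ Q' then .F 1 else σ i)
          = total m n S σ := by
        rw [← htot, total, sum_union hdis', total]
        congr 1
        · exact sum_congr rfl fun i hi => by rw [if_neg (hne i hi)]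
        · rw [← hQ'c, card_eq_sum_ones]
          refine sum_congr rfl fun i hi => ?_
          rw [if_pos hi]
          simp only [wt, N_one]
      have hA2 : heads n ((S \ Q) ∪ Q') (fun i => if i ∈ Q' then .F 1 else σ i)
          = heads n (S \ Q) σ := by
        rw [heads, sum_union hdis', heads]
        have h0 : ∑ i ∈ Q', hd n ((fun i => if i ∈ Q' then St.F 1 else σ i) i) = 0 := by
          refine sum_eq_zero fun i hi => ?_
          simp only [if_pos hi, hd]
        rw [h0, add_zero]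
        exact sum_congr rfl fun i hi => by rw [if_neg (hne i hi)]
      refine H.Bii (e+1) (by omega) _ _ ?_ ?_ ?_ ?_
      · intro i hi
        by_cases hiQ : i ∈ Q'
        · simp only [if_pos hiQ]
          exact hm
        · simp only [if_neg hiQ]
          rcases mem_union.1 hi with h | h
          · exact hokQ i h
          · exact absurd h hiQ
      · rw [if_neg (by omega), hA2, h12]
        omega
      · rw [hA1, h12]
        exact ht
      · refine (H.w2f_le _).trans (hQc.trans ?_)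
        rw [← hQ'c]
        refine card_le_card fun i hi => ?_
        rw [Xf, mem_filter]
        refine ⟨mem_union_right _ hi, ?_⟩
        simp only [if_pos hi]
        rfl
    · have hv : Valid (S \ Q) σ ∅ ∅ 1 := Valid.of_empty (fun i hi => absurd hi (notMem_empty i))
      have hst : (fun i => nx (σ i) 0) = nxs σ ∅ ∅ 1 := by
        funext i
        rw [nxs, chf, if_neg (notMem_empty i), if_neg (notMem_empty i)]
      rw [hst]
      have h0 : ws n (∅ : Finset ℕ) σ = 0 := by simp [ws]
      have h1 := nxs_total (m := m) (n := n) hokQ hv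
      rw [h0, card_empty, zero_mul, add_zero, add_zero] at h1
      have h2 : N (n+1) (e+2) = N (n+1) (e+1) + N n (e+2) := N_rec n (e+1)
      have hW' := H2.hW'
      refine H.Bihigh e (by omega) _ _ (nxs_ok hokQ) ?_ (by omega)
      have h3 := next_heads (e := e) 0 hn hokQ hv (by rw [h0, card_empty, zero_mul]; omega) (by
        rw [card_empty, zero_mul, add_zero, mul_zero, add_zero]
        have := H.t1 e (by omega)
        omega)
      omega
  | succ κ ih =>
    intro e S σ Q hok hQS hQ hQc hh ht he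
    obtain ⟨e, rfl⟩ := Nat.exists_eq_add_of_le' (show 1 ≤ e by omega)
    have h12 : e + 1 + 1 = e + 2 := rfl
    rw [h12] at hh ht
    rcases H.exact_move (e := e) hok ∅ (empty_subset _) (by simp only [ws, sum_empty]; omega)
      with h | h
    · refine H.Bii (e+1) (by omega) S σ hok ?_ (by rw [h12]; omega) ?_
      · rw [if_neg (by omega), h12]
        omega
      · have h1 := H.s2 (e+1) (by omega)
        have h2 := H.w2f_le (e+1)
        rw [h12] at h1
        omega
    · obtain ⟨F1, F2, ν, hv, -, hF1, hF2, hF2c, hsum⟩ := h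
      refine nxs_step k hv (tinj_ex H.ex (by omega) hok hv hsum) ?_
      refine ih e S _ Q (nxs_ok hok) hQS ?_ hQc ?_ (next_total 0 hok hv hsum.le ht) (by omega)
      · intro i hi
        obtain ⟨L, hL, hLj⟩ := hQ i hi
        refine ⟨fun j => L (j+1), ?_, fun j => ?_⟩
        · rw [nxs, hL]
          rfl
        · change L (j+1) = κ + 1 - j
          rw [hLj (j+1)]
          omega
      · refine next_heads W' hn hok hv hsum.le ?_
        refine le_trans ?_ (H2.s3 e (by omega))
        refine Nat.add_le_add_left (Nat.mul_le_mul_left _ (Nat.add_le_add_left ?_ _)) _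
        exact Nat.mul_le_mul_right _ hF2c

/-- facts on the initial state -/
lemma heads_init (n : ℕ) (S : Finset ℕ) (μ : ℕ → ℕ) : heads n S (fun i => .F (μ i)) = 0 :=
  sum_eq_zero fun _ _ => rfl

lemma total_init (m n : ℕ) (S : Finset ℕ) (μ : ℕ → ℕ) :
    total m n S (fun i => .F (μ i)) = ∑ i ∈ S, N (n+1) (μ i) := rfl

theorem Hyp.ap1_succ (H : Hyp k n m D W K et Es w2) {W' e1 : ℕ}
    (H2 : Hyp2 n m K et Es w2 W W' e1) : AP1 k (n+1) m W' := by
  intro e S μ hμ hs
  rw [TInj_succ_iff]
  have hW' := H2.hW'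
  by_cases he : Es ≤ e + 1
  · exact H.Bihigh e he S _ hμ (by rw [heads_init]; omega) (by rw [total_init]; omega)
  · refine H.Bilow e S _ hμ (by rw [heads_init]; omega) ?_
    rw [total_init]
    unfold w1 at hW'
    have : e * (W + N n m) ≤ Es * (W + N n m) := Nat.mul_le_mul_right _ (by omega)
    omega

theorem Hyp.ap2_succ (H : Hyp k n m D W K et Es w2) {W' e1 : ℕ}
    (H2 : Hyp2 n m K et Es w2 W W' e1) : AP2 k (n+1) m W' := by
  intro e S μ hμ hX hs
  rw [TInj_succ_iff]
  have hW2 := H2.hW2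
  have hn := H.hn
  by_cases he : et + m + 1 ≤ e
  · refine H.Bii e he S _ hμ ?_ hs ((H.w2f_le e).trans (hW2.trans hX))
    rw [heads_init, zero_add]
    split_ifs
    · have h1 := H.t1 e (by omega)
      have h2 : (m - 1 + n) * W ≤ (m - 1 + n) * N n (e+1) := by omega
      exact Nat.le_of_mul_le_mul_left h2 (by omega)
    · exact Nat.zero_le _
  · apply kill_X
    have h1 := H.hw2
    have h2 : N (n+1) (e+1) ≤ N (n+1) (et + m + 2) := N_mono (by omega)
    have h3 : W' ≤ (Xf S (fun i => St.F (μ i))).card := hX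
    omega

theorem Hyp.ex_succ (H : Hyp k n m D W K et Es w2) {W' e1 : ℕ}
    (H2 : Hyp2 n m K et Es w2 W W' e1) (D' : ℕ) (hD' : e1 + m + 1 ≤ D')
    (s4 : ∀ e, D' ≤ e → w2 * N n m ≤ N n (e+1))
    (s5 : ∀ e, D' ≤ e → m * w2 * N (n+1) m + w2 ≤ N (n+1) (e+1)) : EX k (n+1) m D' := by
  intro e he S μ hμ hs
  rw [TInj_succ_iff]
  have hEs := H.hEs
  have he1 := H2.he1
  have hn := H.hn
  have hm := H.hm
  have hD := H.hD
  have hw2 := H.w2f_le e
  by_cases hX : w2 ≤ (Xf S (fun i => St.F (μ i))).card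
  · refine H.Bii e (by omega) S _ hμ ?_ hs (hw2.trans hX)
    rw [heads_init, if_neg (by omega)]
    exact Nat.zero_le _
  push Not at hX
  -- pigeonhole
  have hpig : ∃ μ0, 2 ≤ μ0 ∧ μ0 ≤ m ∧ w2 ≤ (S.filter (fun i => μ i = μ0)).card := by
    by_contra hcon
    push Not at hcon
    have h1 : ∑ i ∈ Uf S (fun i => St.F (μ i)), N (n+1) (μ i) ≤ m * w2 * N (n+1) m := by
      have h2 : Uf S (fun i => St.F (μ i)) ⊆
          (Icc 2 m).biUnion (fun μ0 => S.filter (fun i => μ i = μ0)) := by
        intro i hi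
        have h3 := mem_filter.1 hi
        have h4 : 2 ≤ μ i := h3.2
        rw [mem_biUnion]
        exact ⟨μ i, mem_Icc.2 ⟨h4, hμ i h3.1⟩, mem_filter.2 ⟨h3.1, rfl⟩⟩
      have h5 : (Uf S (fun i => St.F (μ i))).card ≤ m * w2 := by
        refine (card_le_card h2).trans (card_biUnion_le.trans ?_)
        calc ∑ μ0 ∈ Icc 2 m, (S.filter (fun i => μ i = μ0)).card ≤ ∑ _μ0 ∈ Icc 2 m, w2 := by
              refine sum_le_sum fun μ0 hμ0 => ?_
              rw [mem_Icc] at hμ0
              exact (hcon μ0 hμ0.1 hμ0.2).le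
          _ = (Icc 2 m).card * w2 := by rw [sum_const, smul_eq_mul]
          _ ≤ m * w2 := Nat.mul_le_mul_right _ (by rw [Nat.card_Icc]; omega)
      calc ∑ i ∈ Uf S (fun i => St.F (μ i)), N (n+1) (μ i)
          ≤ ∑ _i ∈ Uf S (fun i => St.F (μ i)), N (n+1) m :=
            sum_le_sum fun i hi => N_mono (hμ i (mem_filter.1 hi).1)
        _ = (Uf S (fun i => St.F (μ i))).card * N (n+1) m := by rw [sum_const, smul_eq_mul]
        _ ≤ m * w2 * N (n+1) m := Nat.mul_le_mul_right _ h5
    have h6 := total_le m n S (fun i => St.F (μ i)) hμ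
    rw [heads_init, total_init] at h6
    simp only [fm] at h6
    have h7 := s5 e he
    omega
  obtain ⟨μ0, hμ2, hμm, hcard⟩ := hpig
  obtain ⟨Q, hQ, hQc⟩ := exists_subset_card_eq hcard
  obtain ⟨e, rfl⟩ := Nat.exists_eq_add_of_le' (show 1 ≤ e by omega)
  have h12 : e + 1 + 1 = e + 2 := rfl
  have hQU : Q ⊆ Uf S (fun i => St.F (μ i)) := by
    intro i hi
    have h3 := mem_filter.1 (hQ hi)
    refine mem_filter.2 ⟨h3.1, ?_⟩
    change 2 ≤ μ i
    omega
  have hQh : heads n S (fun i => St.F (μ i)) + ws n Q (fun i => St.F (μ i)) ≤ N n (e+2) := by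
    rw [heads_init, zero_add]
    refine (ws_le m n Q (fun i => St.F (μ i))
      (fun i hi => hμ i (mem_filter.1 (hQ hi)).1)).trans ?_
    rw [hQc]
    exact s4 (e+1) he
  rcases H.exact_move (e := e) (S := S) (σ := fun i => St.F (μ i)) hμ Q hQU hQh with h | h
  · exfalso
    rw [total_init] at h
    have h1 := H.s2 (e+1) (by omega)
    rw [h12] at h1 hs
    omega
  · obtain ⟨F1, F2, ν, hv, hQF, hF1, hF2, hF2c, hsum⟩ := h
    refine nxs_step k hv (tinj_ex H.ex (by omega) hμ hv hsum) ?_
    refine H.Mkappa H2 (μ0 - 2) e S _ Q (nxs_ok hμ) ?_ ?_ hQc.ge ?_ ?_ (by omega)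
    · exact fun i hi => (mem_filter.1 (hQ hi)).1
    · intro i hi
      have h3 := (mem_filter.1 (hQ hi)).2
      refine ⟨rest μ0 μ0, ?_, fun j => ?_⟩
      · rw [nxs, chf, if_pos (hQF hi)]
        simp only [nx, fm]
        rw [if_neg (by omega), h3]
      · simp only [rest]
        rw [if_neg (by omega)]
        omega
    · refine next_heads W' hn hμ hv hsum.le ?_
      refine le_trans ?_ (H2.s3 e (by omega))
      refine Nat.add_le_add_left (Nat.mul_le_mul_left _ (Nat.add_le_add_left ?_ _)) _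
      exact Nat.mul_le_mul_right _ hF2c
    · exact next_total 0 hμ hv hsum.le hs

end Pool.Agent.Helper46.EAH
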