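import Mathlib
import Pool.Agent.Helper46.EAH.Main

/-! Elementary estimates for binomial coefficients. -/

namespace Pool.Agent.Helper46.EAH

open Finset

lemma N_dim (n a : ℕ) : (n + 1) * N (n+1) a = (a + n) * N n a := by
  cases a with
  | zero => simp [N_zero]
  | succ a =>
    rw [N_succ, N_succ]
    have h := Nat.add_one_mul_choose_eq (n + a) n
    rw [show n + 1 + a = n + a + 1 by ring, show a + 1 + n = n + a + 1 by ring, h]
    ring

lemma N_dim0 (a : ℕ) : N 0 a ≤ 1 := by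
  cases a with
  | zero => simp [N_zero]
  | succ a => rw [N_succ]; simp

lemma N_le_pow (n a : ℕ) : N n a ≤ a ^ n := by
  induction n with
  | zero => simpa using N_dim0 a
  | succ n ih =>
    refine (N_le_mul n a a le_rfl).trans ?_
    rw [pow_succ, mul_comm]
    exact Nat.mul_le_mul_right _ ih

lemma pow_le_N (n a : ℕ) (ha : 1 ≤ a) : a ^ n ≤ n.factorial * N n a := by
  induction n with
  | zero =>
    have := N_pos (n := 0) ha
    simpa using this
  | succ n ih =>
    rw [pow_succ, Nat.factorial_succ]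
    calc a ^ n * a ≤ n.factorial * N n a * a := Nat.mul_le_mul_right _ ih
      _ ≤ n.factorial * ((a + n) * N n a) := by
          rw [mul_assoc]
          apply Nat.mul_le_mul_left
          rw [mul_comm]
          exact Nat.mul_le_mul_right _ (by omega)
      _ = n.factorial * ((n + 1) * N (n+1) a) := by rw [N_dim]
      _ = (n + 1) * n.factorial * N (n+1) a := by ring

/-- the slack in the next layer -/
lemma slack (n m e Z : ℕ) (hn : 1 ≤ n) (hm : 1 ≤ m) (he : 2 * m ≤ e + 2)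
    (hZ : 2 * m * Z ≤ N n (e+1)) :
    (m - 1) * N n (e+2) + (m - 1 + n) * Z ≤ (m - 1 + n) * N n (e+1) := by
  obtain ⟨m, rfl⟩ := Nat.exists_eq_add_of_le' hm
  simp only [Nat.add_sub_cancel]
  have h1 : (e + 1 + n) * N n (e+1) = (e + 1) * N n (e+2) := N_ratio n (e+1)
  have h3 : m + n ≤ n * (m + 1) := by nlinarith
  have h4 : 2 * ((m + n) * Z) ≤ n * N n (e+1) := by
    calc 2 * ((m + n) * Z) ≤ 2 * (n * (m+1) * Z) := by
          apply Nat.mul_le_mul_left
          exact Nat.mul_le_mul_right _ h3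
      _ = n * (2 * (m+1) * Z) := by ring
      _ ≤ n * N n (e+1) := Nat.mul_le_mul_left _ hZ
  have h5 : 2 * (m * n) ≤ (e + 1) * n := by
    calc 2 * (m * n) = (2 * m) * n := by ring
      _ ≤ (e + 1) * n := Nat.mul_le_mul_right _ (by omega)
  have h6 : (2 * (e+1)) * (m * N n (e+2) + (m + n) * Z)
      ≤ (2 * (e+1)) * ((m + n) * N n (e+1)) := by
    calc (2 * (e+1)) * (m * N n (e+2) + (m + n) * Z)
        = 2 * m * ((e+1) * N n (e+2)) + (e+1) * (2 * ((m+n) * Z)) := by ring
      _ = 2 * m * ((e+1+n) * N n (e+1)) + (e+1) * (2 * ((m+n) * Z)) := by rw [h1]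
      _ ≤ 2 * m * ((e+1+n) * N n (e+1)) + (e+1) * (n * N n (e+1)) :=
          Nat.add_le_add_left (Nat.mul_le_mul_left _ h4) _
      _ = 2 * m * (e+1) * N n (e+1) + (2 * (m * n)) * N n (e+1) + (e+1) * n * N n (e+1) := by
          ring
      _ ≤ 2 * m * (e+1) * N n (e+1) + ((e+1) * n) * N n (e+1) + (e+1) * n * N n (e+1) := by
          apply Nat.add_le_add_right
          apply Nat.add_le_add_left
          exact Nat.mul_le_mul_right _ h5
      _ = (2 * (e+1)) * ((m + n) * N n (e+1)) := by ring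
  exact Nat.le_of_mul_le_mul_left h6 (by omega)

lemma many_simple (n m e : ℕ) (he : m * (n + 1) ≤ e) :
    (m + 1) * N n (e+1) ≤ N (n+1) (e+1) := by
  have h := N_dim n (e+1)
  have h2 : (n + 1) * ((m + 1) * N n (e+1)) ≤ (n + 1) * N (n+1) (e+1) := by
    rw [h, ← mul_assoc]
    apply Nat.mul_le_mul_right
    nlinarith
  exact Nat.le_of_mul_le_mul_left h2 (by omega)

lemma doubling_aux (n e : ℕ) : ∀ j, j * n ≤ e + n + 1 →
    (e + n + 1 - j * n) * N n (e + j + 1) ≤ (e + n + 1) * N n (e+1)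
  | 0, _ => by simp
  | (j+1), h => by
      have ih := doubling_aux n e j (by rw [add_mul] at h; omega)
      have h1 : (e + j + 1 + n) * N n (e + j + 1) = (e + j + 1) * N n (e + j + 2) :=
        N_ratio n (e+j+1)
      have h2 : (j + 1) * n = j * n + n := by ring
      obtain ⟨s, hs⟩ : ∃ s, e + n + 1 = (j+1) * n + s := ⟨_, (Nat.add_sub_of_le h).symm⟩
      have h3 : e + n + 1 - (j+1) * n = s := by omega
      have h4 : e + n + 1 - j * n = s + n := by omega
      rw [h3]
      rw [h4] at ih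
      have h5 : s * (e + j + 1 + n) ≤ (s + n) * (e + j + 1) := by
        have h6 : s ≤ e + j + 1 := by omega
        nlinarith
      have h6 : (e + j + 1) * (s * N n (e + (j+1) + 1))
          ≤ (e + j + 1) * ((e + n + 1) * N n (e+1)) := by
        calc (e + j + 1) * (s * N n (e + (j+1) + 1)) = s * ((e + j + 1) * N n (e + j + 2)) := by
              rw [show e + (j+1) + 1 = e + j + 2 by ring]; ring
          _ = s * (e + j + 1 + n) * N n (e + j + 1) := by rw [← h1]; ring
          _ ≤ (s + n) * (e + j + 1) * N n (e + j + 1) := Nat.mul_le_mul_right _ h5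
          _ = (e + j + 1) * ((s + n) * N n (e + j + 1)) := by ring
          _ ≤ (e + j + 1) * ((e + n + 1) * N n (e+1)) := Nat.mul_le_mul_left _ ih
      exact Nat.le_of_mul_le_mul_left h6 (by omega)

lemma doubling (n e j : ℕ) (h : 2 * (j * n) ≤ e + n + 1) :
    N n (e + j + 1) ≤ 2 * N n (e+1) := by
  have h1 := doubling_aux n e j (by omega)
  have h2 : (e + n + 1) * N n (e + j + 1) ≤ (e + n + 1) * (2 * N n (e+1)) := by
    calc (e + n + 1) * N n (e + j + 1) ≤ 2 * (e + n + 1 - j * n) * N n (e+j+1) :=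
          Nat.mul_le_mul_right _ (by omega)
      _ = 2 * ((e + n + 1 - j * n) * N n (e+j+1)) := by ring
      _ ≤ 2 * ((e + n + 1) * N n (e+1)) := Nat.mul_le_mul_left _ h1
      _ = (e + n + 1) * (2 * N n (e+1)) := by ring
  exact Nat.le_of_mul_le_mul_left h2 (by omega)

variable {k : Type} [Field k]

lemma AP1_mono {n m W W' : ℕ} (h : AP1 k n m W) (hW : W ≤ W') : AP1 k n m W' :=
  fun e S μ hμ hs => h e S μ hμ (by omega)

lemma AP2_mono {n m W W' : ℕ} (h : AP2 k n m W) (hW : W ≤ W') : AP2 k n m W' :=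
  fun e S μ hμ h1 hs => h e S μ hμ (by omega) hs

lemma EX_mono {n m D D' : ℕ} (h : EX k n m D) (hD : D ≤ D') : EX k n m D' :=
  fun e he S μ hμ hs => h e (by omega) S μ hμ hs

lemma rep_general (n m : ℕ) : ∀ δ < N n m, ∃ κ ν, κ ≤ N n m ∧ 1 ≤ ν ∧ κ * N n ν = δ ∧
    ∀ μ, δ < N n μ → ν ≤ μ := by
  intro δ hδ
  refine ⟨δ, 1, hδ.le, le_rfl, by rw [N_one, mul_one], fun μ hμ => ?_⟩
  by_contra hcon
  have : μ = 0 := by omega
  subst this
  rw [N_zero] at hμ
  omega

lemma rep_one (m : ℕ) : ∀ δ < N 1 m, ∃ κ ν, κ ≤ 1 ∧ 1 ≤ ν ∧ κ * N 1 ν = δ ∧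
    ∀ μ, δ < N 1 μ → ν ≤ μ := by
  intro δ _
  rcases Nat.eq_zero_or_pos δ with h | h
  · refine ⟨0, 1, by omega, le_rfl, by rw [h, zero_mul], fun μ hμ => ?_⟩
    rw [N_dim_one] at hμ
    omega
  · refine ⟨1, δ, le_rfl, h, by rw [N_dim_one, one_mul], fun μ hμ => ?_⟩
    rw [N_dim_one] at hμ
    omega

end Pool.Agent.Helper46.EAH
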