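import Mathlib
import Pool.Agent.Helper46.EAH.Num

/-! The numerical part of the inductive step. -/

namespace Pool.Agent.Helper46.EAH

open Finset

/-- the statements in dimension `n`, with bounds expressed through a real number `u` -/
def Good (k : Type) [Field k] (n m : ℕ) (u : ℝ) : Prop :=
  (∀ W : ℕ, u ^ (n-1) ≤ W → AP1 k n m W ∧ AP2 k n m W) ∧
  (∀ D : ℕ, 2 * (n:ℝ) * m * u ≤ D → EX k n m D)

section num

variable {n m : ℕ} {u v : ℝ}

/-- basic numerical data -/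
structure Dat (n m : ℕ) (u : ℝ) : Prop where
  hn : 2 ≤ n
  hm : 1 ≤ m
  hu : (2 * (n:ℝ) * m) ^ 3 ≤ u

lemma Dat.n2 (h : Dat n m u) : (2:ℝ) ≤ n := by exact_mod_cast h.hn

lemma Dat.m1 (h : Dat n m u) : (1:ℝ) ≤ m := by exact_mod_cast h.hm

lemma Dat.u64m (h : Dat n m u) : 64 * (m:ℝ)^3 ≤ u := by
  refine le_trans ?_ h.hu
  have h1 : (4:ℝ) * m ≤ 2 * n * m := by
    have := h.n2
    have := h.m1
    nlinarith
  calc 64 * (m:ℝ)^3 = (4 * m)^3 := by ring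
    _ ≤ (2 * (n:ℝ) * m)^3 := pow_le_pow_left₀ (by positivity) h1 3

lemma Dat.u8 (h : Dat n m u) : 8 * (n:ℝ)^3 * m ≤ u := by
  refine le_trans ?_ h.hu
  have h1 := h.m1
  have h2 : (m:ℝ) ≤ (m:ℝ)^3 := by
    calc (m:ℝ) = m^1 := (pow_one _).symm
      _ ≤ m^3 := pow_le_pow_right₀ h1 (by omega)
  calc 8 * (n:ℝ)^3 * m ≤ 8 * (n:ℝ)^3 * m^3 := by gcongr
    _ = (2 * (n:ℝ) * m)^3 := by ring

lemma Dat.u64 (h : Dat n m u) : 64 ≤ u := by
  have h1 := h.u64m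
  have h2 : (1:ℝ) ≤ (m:ℝ)^3 := one_le_pow₀ h.m1
  linarith

lemma Dat.upos (h : Dat n m u) : 0 < u := by have := h.u64; linarith

/-- `a = u ^ (n-1)` is large -/
lemma Dat.a64 (h : Dat n m u) : 64 * (m:ℝ)^n ≤ u ^ (n-1) := by
  have h1 := h.u64m
  have hn := h.hn
  obtain ⟨n', rfl⟩ := Nat.exists_eq_add_of_le' hn
  calc 64 * (m:ℝ)^(n'+2) ≤ 64^(n'+1) * (m:ℝ)^(3*(n'+1)) := by
        gcongr
        · calc (64:ℝ) = 64^1 := (pow_one _).symm
            _ ≤ 64^(n'+1) := pow_le_pow_right₀ (by norm_num) (by omega)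
        · exact h.m1
        · omega
    _ = (64 * (m:ℝ)^3)^(n'+1) := by rw [mul_pow, ← pow_mul]
    _ ≤ u^(n'+1) := pow_le_pow_left₀ (by positivity) h1 _

lemma Dat.a64' (h : Dat n m u) : 64 ≤ u ^ (n-1) := by
  have h1 := h.a64
  have h2 : (1:ℝ) ≤ (m:ℝ)^n := one_le_pow₀ h.m1
  linarith

lemma Dat.un (h : Dat n m u) : u ^ n = u ^ (n-1) * u := by
  have hn := h.hn
  obtain ⟨n', rfl⟩ := Nat.exists_eq_add_of_le' hn
  rw [show n' + 2 - 1 = n' + 1 by omega]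
  ring

lemma fact_le (n : ℕ) : (n.factorial : ℝ) ≤ (n:ℝ)^n := by
  exact_mod_cast Nat.factorial_le_pow n

/-- lower bound for the number of monomials -/
lemma N_lower (n e : ℕ) (hn : 1 ≤ n) (y : ℝ) (hy : 0 ≤ y) (h : (n:ℝ) * y ≤ e + 1) :
    y ^ n ≤ (N n (e+1) : ℝ) := by
  have h1 : ((e + 1 : ℕ) : ℝ)^n ≤ (n.factorial : ℝ) * N n (e+1) := by
    exact_mod_cast pow_le_N n (e+1) (by omega)
  have h2 : ((n:ℝ) * y)^n ≤ ((e + 1 : ℕ) : ℝ)^n := by
    apply pow_le_pow_left₀ (by positivity)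
    push_cast
    exact h
  have h3 := fact_le n
  have hn0 : (0:ℝ) < n := by exact_mod_cast hn
  have h4 : (n:ℝ)^n * y^n ≤ (n:ℝ)^n * N n (e+1) := by
    calc (n:ℝ)^n * y^n = ((n:ℝ) * y)^n := (mul_pow _ _ _).symm
      _ ≤ (n.factorial : ℝ) * N n (e+1) := h2.trans h1
      _ ≤ (n:ℝ)^n * N n (e+1) := by gcongr
  exact le_of_mul_le_mul_left h4 (by positivity)

lemma Dat.Nm (h : Dat n m u) : (N n m : ℝ) ≤ u ^ (n-1) / 64 := by
  have h1 : (N n m : ℝ) ≤ (m:ℝ)^n := by exact_mod_cast N_le_pow n m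
  have h2 := h.a64
  linarith

lemma Dat.p256 (h : Dat n m u) : 256 ≤ 2 * (n:ℝ) * m * u := by
  have h1 := h.u64
  have h2 : (4:ℝ) ≤ 2 * n * m := by
    have := h.n2
    have := h.m1
    nlinarith
  nlinarith

/-- bound for `T(e_b)` -/
lemma Dat.Tb (h : Dat n m u) (W et : ℕ) (het : (et:ℝ) ≤ n * u)
    (hc : N n (et+m+2) ≤ 4 * m * W) :
    (N (n+1) (et+m+2) : ℝ) ≤ 4 * m * u * W := by
  have h1 : ((n:ℝ) + 1) * N (n+1) (et+m+2) = ((et:ℝ)+m+2+n) * N n (et+m+2) := by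
    exact_mod_cast N_dim n (et+m+2)
  have h2 : (N n (et+m+2) : ℝ) ≤ 4 * m * W := by exact_mod_cast hc
  have h3 : (et:ℝ)+m+2+n ≤ ((n:ℝ)+1) * u := by
    have h4 := h.u8
    have h5 := h.n2
    have h6 := h.m1
    have h7 : (n:ℝ) ≤ (n:ℝ)^3 := by
      calc (n:ℝ) = n^1 := (pow_one _).symm
        _ ≤ n^3 := pow_le_pow_right₀ (by linarith) (by omega)
    have h8 : (8:ℝ) ≤ (n:ℝ)^3 := by
      calc (8:ℝ) = 2^3 := by norm_num
        _ ≤ n^3 := pow_le_pow_left₀ (by norm_num) h5 3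
    have h9 : (m:ℝ) + 2 + n ≤ 8 * (n:ℝ)^3 * m := by
      nlinarith
    nlinarith
  have h4 : ((n:ℝ)+1) * N (n+1) (et+m+2) ≤ ((n:ℝ)+1) * (4 * m * u * W) := by
    rw [h1]
    calc ((et:ℝ)+m+2+n) * N n (et+m+2) ≤ (((n:ℝ)+1) * u) * (4 * m * W) := by
          apply mul_le_mul h3 h2 (by positivity)
          have := h.upos
          positivity
      _ = ((n:ℝ)+1) * (4 * m * u * W) := by ring
  exact le_of_mul_le_mul_left h4 (by positivity)

lemma Dat.w2_bound (h : Dat n m u) (W D et w2 : ℕ) (hW : (W:ℝ) ≤ u^(n-1) + 1)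
    (hD : (D:ℝ) ≤ 2 * n * m * u + 1)
    (hT : (N (n+1) (et+m+2) : ℝ) ≤ 4 * m * u * W)
    (hw2 : w2 = N (n+1) (et + m + 2) + (D - (et + m + 1)) * (W + N n m)) :
    (w2 : ℝ) ≤ 3 * (2 * n * m * u) * u^(n-1) := by
  obtain ⟨p, hp⟩ : ∃ p : ℝ, p = 2 * n * m * u := ⟨_, rfl⟩
  obtain ⟨a, ha⟩ : ∃ a : ℝ, a = u^(n-1) := ⟨_, rfl⟩
  have hp256 : 256 ≤ p := by rw [hp]; exact h.p256
  have ha64 : 64 ≤ a := by rw [ha]; exact h.a64'
  have hNm : (N n m : ℝ) ≤ a / 64 := by rw [ha]; exact h.Nm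
  rw [← hp, ← ha]
  rw [← ha] at hW
  rw [← hp] at hD
  have h1 : (w2 : ℝ) ≤ 4 * m * u * W + D * (W + N n m) := by
    rw [hw2]
    push_cast
    have h2 : ((D - (et + m + 1) : ℕ) : ℝ) ≤ D := by exact_mod_cast Nat.sub_le _ _
    have h3 : ((D - (et + m + 1) : ℕ) : ℝ) * ((W:ℝ) + N n m) ≤ D * (W + N n m) := by
      apply mul_le_mul_of_nonneg_right h2 (by positivity)
    linarith
  have h2 : 4 * (m:ℝ) * u ≤ p := by
    rw [hp]
    have h5 := h.n2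
    have h6 := h.m1
    have h7 := h.upos
    have h8 : (2:ℝ) * 2 * m * u ≤ 2 * n * m * u := by gcongr
    linarith
  have h3 : 4 * (m:ℝ) * u * W ≤ p * (65/64 * a) := by
    apply mul_le_mul h2 (by linarith) (by positivity) (by linarith)
  have h4 : (D:ℝ) * (W + N n m) ≤ (257/256 * p) * (66/64 * a) := by
    apply mul_le_mul (by linarith) (by linarith) (by positivity) (by linarith)
  have h5 : 0 ≤ p * a := by nlinarith
  nlinarith

lemma Dat.w1_bound (h : Dat n m u) (W D et : ℕ) (hW : (W:ℝ) ≤ u^(n-1) + 1)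
    (hD : (D:ℝ) ≤ 2 * n * m * u + 1)
    (hc : N n (et+m+2) ≤ 4 * m * W) :
    (w1 n m W et D : ℝ) ≤ 3 * (2 * n * m * u) * u^(n-1) := by
  obtain ⟨p, hp⟩ : ∃ p : ℝ, p = 2 * n * m * u := ⟨_, rfl⟩
  obtain ⟨a, ha⟩ : ∃ a : ℝ, a = u^(n-1) := ⟨_, rfl⟩
  have hp256 : 256 ≤ p := by rw [hp]; exact h.p256
  have ha64 : 64 ≤ a := by rw [ha]; exact h.a64'
  have hNm : (N n m : ℝ) ≤ a / 64 := by rw [ha]; exact h.Nm
  rw [← hp, ← ha]
  rw [← ha] at hW
  rw [← hp] at hD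
  have hc' : (N n (et+1) : ℝ) ≤ 4 * m * W := by
    have : N n (et+1) ≤ 4 * m * W := (N_mono (by omega)).trans hc
    exact_mod_cast this
  have h6 := h.m1
  have hmp : 256 * (m:ℝ)^2 ≤ p := by
    rw [hp]
    have h5 := h.n2
    have h7 := h.u64m
    have h8 : (2:ℝ) * 2 * m * (64 * m^3) ≤ 2 * n * m * u := by gcongr
    have h9 : (m:ℝ)^2 ≤ (m:ℝ)^4 := pow_le_pow_right₀ h6 (by omega)
    nlinarith
  unfold w1
  push_cast
  have h4 : (D:ℝ) * (W + N n m) ≤ (257/256 * p) * (66/64 * a) := by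
    apply mul_le_mul (by linarith) (by linarith) (by positivity) (by linarith)
  have hWa : (W:ℝ) ≤ 65/64 * a := by linarith
  have h10 : (m:ℝ) * (W + N n (et+1)) ≤ p * a := by
    calc (m:ℝ) * (W + N n (et+1)) ≤ m * (W + 4 * m * W) := by gcongr
      _ = (m + 4 * m^2) * W := by ring
      _ ≤ (m^2 + 4 * m^2) * (65/64 * a) := by
          apply mul_le_mul _ hWa (by positivity) (by positivity)
          nlinarith
      _ ≤ (256 * m^2) * a := by nlinarith [sq_nonneg (m:ℝ)]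
      _ ≤ p * a := by
          apply mul_le_mul_of_nonneg_right hmp (by linarith)
  have h5 : 0 ≤ p * a := by nlinarith
  nlinarith

/-- consequences of a lower bound for the layer size -/
lemma Dat.c_lower (h : Dat n m u) (c : ℝ) (hc : (2 * m * u)^n ≤ c) :
    2 * m * u * u^(n-1) ≤ c ∧ 4096 * (m:ℝ)^(2*n+3) ≤ c := by
  have h6 := h.m1
  have hn := h.hn
  have hu := h.upos
  have h1 : (2 * m * u)^n = (2 * (m:ℝ))^n * (u^(n-1) * u) := by rw [mul_pow, h.un]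
  constructor
  · refine le_trans ?_ hc
    rw [h1]
    have h2 : 2 * (m:ℝ) ≤ (2 * (m:ℝ))^n := by
      calc 2 * (m:ℝ) = (2 * (m:ℝ))^1 := (pow_one _).symm
        _ ≤ (2 * (m:ℝ))^n := pow_le_pow_right₀ (by linarith) (by omega)
    calc 2 * m * u * u^(n-1) = 2 * m * (u^(n-1) * u) := by ring
      _ ≤ (2 * (m:ℝ))^n * (u^(n-1) * u) := by gcongr
  · refine le_trans ?_ hc
    rw [h1]
    have h2 : (m:ℝ)^n ≤ (2 * (m:ℝ))^n := pow_le_pow_left₀ (by positivity) (by linarith) n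
    have h3 := h.a64
    have h4 := h.u64m
    calc 4096 * (m:ℝ)^(2*n+3) = (m:ℝ)^n * ((64 * (m:ℝ)^n) * (64 * (m:ℝ)^3)) := by
          rw [pow_add, pow_mul']
          ring
      _ ≤ (2 * (m:ℝ))^n * (u^(n-1) * u) := by gcongr

end num

end Pool.Agent.Helper46.EAH
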