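import Mathlib
import Pool.Agent.Helper46.EAH.Step

/-! The inductive step with explicit bounds. -/

namespace Pool.Agent.Helper46.EAH

open Finset

variable {n m : ℕ} {u v : ℝ}

/-- the hypotheses of the inductive step hold with explicit parameters -/
theorem exists_hyp (k : Type) [Field k] (h : Dat n m u) (hG : Good k n m u) :
    ∃ W D et w2 : ℕ, Hyp k n m D W (N n m) et D w2 ∧
      (D:ℝ) ≤ 2 * n * m * u + 1 ∧
      (w2:ℝ) ≤ 3 * (2 * n * m * u) * u^(n-1) ∧
      (w1 n m W et D : ℝ) ≤ 3 * (2 * n * m * u) * u^(n-1) := by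
  have hn := h.hn
  have hm := h.hm
  have hn2 := h.n2
  have hm1 := h.m1
  have hu := h.upos
  have hp0 : (0:ℝ) ≤ 2 * n * m * u := by positivity
  have ha0 : (0:ℝ) ≤ u^(n-1) := by positivity
  obtain ⟨W, hWle, hWlt⟩ : ∃ W : ℕ, u^(n-1) ≤ W ∧ (W:ℝ) ≤ u^(n-1) + 1 :=
    ⟨⌈u^(n-1)⌉₊, Nat.le_ceil _, (Nat.ceil_lt_add_one ha0).le⟩
  obtain ⟨D, hDle, hDlt⟩ : ∃ D : ℕ, 2 * n * m * u ≤ D ∧ (D:ℝ) ≤ 2 * n * m * u + 1 :=
    ⟨⌈2 * n * m * u⌉₊, Nat.le_ceil _, (Nat.ceil_lt_add_one hp0).le⟩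
  have ha64 := h.a64'
  -- the first level with many monomials
  have hex : ∃ e, 2 * m * W ≤ N n (e+1) := by
    refine ⟨n.factorial * (2 * m * W), ?_⟩
    have h1 := pow_le_N n (n.factorial * (2 * m * W) + 1) (by omega)
    have h2 : n.factorial * (2 * m * W) + 1 ≤ (n.factorial * (2 * m * W) + 1)^n := by
      calc n.factorial * (2 * m * W) + 1 = (n.factorial * (2 * m * W) + 1)^1 := (pow_one _).symm
        _ ≤ _ := Nat.pow_le_pow_right (by omega) (by omega)
    have h3 : n.factorial * (2 * m * W) ≤ n.factorial * N n (n.factorial * (2 * m * W) + 1) := by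
      omega
    exact Nat.le_of_mul_le_mul_left h3 (Nat.factorial_pos n)
  obtain ⟨et, het, hmin⟩ : ∃ et, 2 * m * W ≤ N n (et+1) ∧ ∀ e < et, N n (e+1) < 2 * m * W :=
    ⟨Nat.find hex, Nat.find_spec hex, fun e he => by
      have := Nat.find_min hex he
      omega⟩
  -- lower bound for `et`
  have hE1 : (2 * m + 3) * n ≤ et := by
    by_contra hcon
    push Not at hcon
    have h1 : 2 * m * W ≤ ((2 * m + 3) * n)^n :=
      het.trans ((N_mono (show et + 1 ≤ (2*m+3)*n by omega)).trans (N_le_pow n _))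
    have h2 : ((2:ℝ) * m * W) ≤ ((2 * m + 3) * n)^n := by exact_mod_cast h1
    have h3 : ((2 * (m:ℝ) + 3) * n)^n ≤ (5/2 * (2 * n * m))^n := by
      apply pow_le_pow_left₀ (by positivity)
      nlinarith
    have h4 : ((2 * (n:ℝ) * m)^3)^(n-1) ≤ u^(n-1) := pow_le_pow_left₀ (by positivity) h.hu _
    obtain ⟨x, hx⟩ : ∃ x : ℝ, x = 2 * n * m := ⟨_, rfl⟩
    have hx4 : 4 ≤ x := by rw [hx]; nlinarith
    rw [← hx] at h3 h4
    have h5 : 2 * (x^3)^(n-1) ≤ (5/2 * x)^n := by
      calc 2 * (x^3)^(n-1) ≤ 2 * u^(n-1) := by linarith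
        _ ≤ 2 * m * W := by
            have : u^(n-1) ≤ (m:ℝ) * W := by
              calc u^(n-1) ≤ W := hWle
                _ ≤ m * W := by
                  have : (0:ℝ) ≤ W := by positivity
                  nlinarith
            linarith
        _ ≤ (5/2 * x)^n := h2.trans h3
    obtain ⟨n', rfl⟩ := Nat.exists_eq_add_of_le' hn
    rw [show n' + 2 - 1 = n' + 1 by omega] at h5
    have h6 : (x^3)^(n'+1) = x^(n'+2) * (x * (x^2)^n') := by ring
    rw [h6, mul_pow] at h5
    have h7 : (0:ℝ) < x^(n'+2) := by positivity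
    have h8 : x^(n'+2) * (2 * (x * (x^2)^n')) ≤ x^(n'+2) * (5/2)^(n'+2) := by nlinarith
    have h9 := le_of_mul_le_mul_left h8 h7
    have h10 : (16:ℝ)^n' ≤ (x^2)^n' := pow_le_pow_left₀ (by norm_num) (by nlinarith) _
    have h11 : (5/2:ℝ)^n' ≤ 16^n' := pow_le_pow_left₀ (by norm_num) (by norm_num) _
    have h12 : (5/2:ℝ)^(n'+2) = 25/4 * (5/2)^n' := by ring
    have h13 : (0:ℝ) < 16^n' := by positivity
    have h14 : 4 * (16:ℝ)^n' ≤ x * (x^2)^n' := by
      apply mul_le_mul hx4 h10 (by positivity) (by linarith)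
    rw [h12] at h9
    nlinarith
  -- upper bound for `et`
  have hE2 : (et:ℝ) ≤ n * u := by
    by_contra hcon
    push Not at hcon
    have het1 : 1 ≤ et := by
      have : 1 ≤ (2 * m + 3) * n := Nat.mul_pos (by omega) (by omega)
      omega
    have h1 := hmin (et - 1) (by omega)
    rw [show et - 1 + 1 = et by omega] at h1
    have h2 := N_lower n (et - 1) (by omega) u hu.le (by
      have : ((et - 1 : ℕ) : ℝ) + 1 = et := by
        exact_mod_cast (show et - 1 + 1 = et by omega)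
      rw [this]
      exact hcon.le)
    rw [show et - 1 + 1 = et by omega] at h2
    have h3 : ((N n et : ℕ) : ℝ) < 2 * m * W := by exact_mod_cast h1
    rw [h.un] at h2
    have h4 := h.u64m
    have h5 : 4 * (m:ℝ) ≤ u := by
      have h51 : (m:ℝ) ≤ (m:ℝ)^3 := by
        calc (m:ℝ) = m^1 := (pow_one _).symm
          _ ≤ m^3 := pow_le_pow_right₀ hm1 (by omega)
      linarith
    have h6 : 2 * (m:ℝ) * W ≤ 4 * m * u^(n-1) := by
      have : (W:ℝ) ≤ 2 * u^(n-1) := by linarith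
      nlinarith
    have h7 : 4 * (m:ℝ) * u^(n-1) ≤ u^(n-1) * u := by nlinarith
    linarith
  have hE3 : N n (et+m+2) ≤ 4 * m * W := by
    have het1 : 1 ≤ et := by
      have : 1 ≤ (2 * m + 3) * n := Nat.mul_pos (by omega) (by omega)
      omega
    have h1 := hmin (et - 1) (by omega)
    rw [show et - 1 + 1 = et by omega] at h1
    have h2 := doubling n (et - 1) (m+2) (by
      have : (2 * m + 3) * n = 2 * ((m+2)*n) - n := by
        have h3 : 2 * ((m+2)*n) = (2*m+3)*n + n := by ring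
        omega
      have h4 : n ≤ 2 * ((m+2)*n) := by nlinarith
      omega)
    rw [show et - 1 + (m+2) + 1 = et + m + 2 by omega, show et - 1 + 1 = et by omega] at h2
    calc N n (et+m+2) ≤ 2 * N n et := h2
      _ ≤ 2 * (2 * m * W) := by omega
      _ = 4 * m * W := by ring
  have hT := h.Tb W et hE2 hE3
  refine ⟨W, D, et, N (n+1) (et + m + 2) + (D - (et + m + 1)) * (W + N n m), ?_, hDlt,
    h.w2_bound W D et _ hWlt hDlt hT rfl, h.w1_bound W D et hWlt hDlt hE3⟩
  have hw2b := h.w2_bound W D et _ hWlt hDlt hT rfl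
  -- lower bounds for high levels
  have hNm : N n m ≤ m^n := N_le_pow n m
  have hNm1 : N (n+1) m ≤ m^(n+1) := N_le_pow (n+1) m
  have hNmR : (N n m : ℝ) ≤ (m:ℝ)^n := by exact_mod_cast hNm
  have hNm1R : (N (n+1) m : ℝ) ≤ (m:ℝ)^(n+1) := by exact_mod_cast hNm1
  have hhigh : ∀ e, D ≤ e + 1 → (2 * m * u)^n ≤ (N n (e+1) : ℝ) := by
    intro e he
    apply N_lower n e (by omega) _ (by positivity)
    have h1 : (D:ℝ) ≤ e + 1 := by exact_mod_cast he
    calc (n:ℝ) * (2 * m * u) = 2 * n * m * u := by ring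
      _ ≤ e + 1 := hDle.trans h1
  have hp256 := h.p256
  have hm23 : ∀ c : ℝ, 4096 * (m:ℝ)^(2*n+3) ≤ c → 4 * (m:ℝ)^(2*n+1) ≤ c := by
    intro c hc
    have : (m:ℝ)^(2*n+1) ≤ (m:ℝ)^(2*n+3) := pow_le_pow_right₀ hm1 (by omega)
    have h0 : (0:ℝ) ≤ (m:ℝ)^(2*n+3) := by positivity
    linarith
  refine ⟨by omega, hm, ?_, hG.2 D hDle, (hG.1 W hWle).1, (hG.1 W hWle).2, rep_general n m,
    ?_, ?_, ?_, le_rfl, ?_, rfl, ?_⟩
  · exact N_pos hm
  · -- t1
    intro e he
    apply slack n m e W (by omega) hm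
    · have : 2 * m ≤ (2 * m + 3) * n := by nlinarith
      omega
    · exact het.trans (N_mono (by omega))
  · -- t2
    intro e he
    apply many_simple
    have : m * (n+1) ≤ (2*m+3)*n := by nlinarith
    omega
  · -- s1
    intro e he
    have hlow : (2 * m * u)^n ≤ (N n (e+1) : ℝ) := hhigh e he
    obtain ⟨hc1, hc2⟩ := h.c_lower _ hlow
    apply slack n m e _ (by omega) hm
    · have h1 : (2 * (m:ℝ)) ≤ e + 1 := by
        have h2 : (D:ℝ) ≤ e + 1 := by exact_mod_cast he
        have h3 : 2 * (m:ℝ) ≤ 2 * n * m * u := by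
          have h4 := h.u64
          have h5 : 2 * (m:ℝ) * 1 ≤ 2 * m * (n * u) := by
            apply mul_le_mul_of_nonneg_left _ (by positivity)
            nlinarith
          linarith
        linarith
      have : 2 * m ≤ e + 1 := by exact_mod_cast h1
      omega
    · have h1 : (2:ℝ) * m * (W + N n m * N n m) ≤ N n (e+1) := by
        have h2 : (N n m : ℝ) * N n m ≤ (m:ℝ)^(2*n) := by
          rw [two_mul, pow_add]
          exact mul_le_mul hNmR hNmR (by positivity) (by positivity)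
        have h3 : 2 * (m:ℝ) * W ≤ N n (e+1) / 2 := by
          have h4 : (W:ℝ) ≤ 2 * u^(n-1) := by linarith
          have h5 : 2 * (m:ℝ) * W ≤ 4 * m * u^(n-1) := by nlinarith
          have h6 := h.u64
          have h7 : 2 * m * 64 * u^(n-1) ≤ 2 * m * u * u^(n-1) := by gcongr
          have h8 : 0 ≤ (m:ℝ) * u^(n-1) := by positivity
          nlinarith
        have h9 : 2 * (m:ℝ) * (m:ℝ)^(2*n) ≤ N n (e+1) / 2 := by
          have h10 := hm23 _ hc2
          have h11 : (m:ℝ)^(2*n+1) = m^(2*n) * m := pow_succ _ _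
          rw [h11] at h10
          nlinarith
        have h12 : 2 * (m:ℝ) * (N n m * N n m) ≤ 2 * m * (m:ℝ)^(2*n) := by gcongr
        nlinarith
      exact_mod_cast h1
  · -- et + m + 1 ≤ D
    have h1 : (et:ℝ) + m + 1 ≤ D := by
      refine le_trans ?_ hDle
      have h2 := h.u64
      have h3 : (n:ℝ) * u + m + 1 ≤ 2 * n * m * u := by
        have h4 : (n:ℝ) * u ≤ n * m * u := by nlinarith [mul_nonneg (by positivity : (0:ℝ) ≤ n) hu.le]
        have h5 : (m:ℝ) + 1 ≤ n * m * u := by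
          have h6 : (m:ℝ) * 2 ≤ m * (n * u) := by
            apply mul_le_mul_of_nonneg_left _ (by positivity)
            nlinarith
          nlinarith
        linarith
      linarith
    exact_mod_cast h1
  · -- s2
    intro e he
    have hlow : (2 * m * u)^n ≤ (N n (e+1) : ℝ) := hhigh e (by omega)
    obtain ⟨hc1, hc2⟩ := h.c_lower _ hlow
    have hdim : ((n:ℝ) + 1) * N (n+1) (e+1) = ((e:ℝ) + 1 + n) * N n (e+1) := by
      exact_mod_cast N_dim n (e+1)
    obtain ⟨c, hc⟩ : ∃ c : ℝ, c = N n (e+1) := ⟨_, rfl⟩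
    obtain ⟨p, hp⟩ : ∃ p : ℝ, p = 2 * n * m * u := ⟨_, rfl⟩
    obtain ⟨a, ha⟩ : ∃ a : ℝ, a = u^(n-1) := ⟨_, rfl⟩
    have he' : p ≤ e + 1 := by
      rw [hp]
      have h2 : (D:ℝ) ≤ e := by exact_mod_cast he
      linarith
    rw [← hc] at hc1 hc2 hdim
    rw [← ha] at hc1
    rw [← hp, ← ha] at hw2b
    rw [← ha] at ha64
    rw [← hp] at hp256
    have hc0 : 0 < c := by
      have : (0:ℝ) < 4096 * (m:ℝ)^(2*n+3) := by positivity
      linarith
    have hu8 := h.u8
    have hn3 : 4 * (n:ℝ) ≤ (n:ℝ)^3 := by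
      have : (n:ℝ)^3 = n^2 * n := by ring
      rw [this]
      have : (4:ℝ) ≤ (n:ℝ)^2 := by nlinarith
      nlinarith
    -- w2 part
    have h1 : ((n:ℝ)+1) * (3 * p * a) ≤ 1/3 * (p * c) := by
      have h2 : 9 * ((n:ℝ)+1) * a ≤ c := by
        refine le_trans ?_ hc1
        have h3 : 9 * ((n:ℝ)+1) ≤ 2 * m * u := by
          have h4 : 32 * (n:ℝ) * 1 ≤ 8 * (n:ℝ)^3 * m := by
            apply mul_le_mul _ hm1 (by norm_num) (by positivity)
            linarith
          have h5 : (1:ℝ) * u ≤ m * u := by gcongr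
          nlinarith
        apply mul_le_mul_of_nonneg_right h3 (by linarith)
      have h6 : (0:ℝ) ≤ p := by linarith
      nlinarith [mul_le_mul_of_nonneg_left h2 h6]
    -- m c part
    have hpn : 3 * ((n:ℝ)+1) * m ≤ p := by
      rw [hp]
      have h2 := h.u64
      have h3 : 3 * ((n:ℝ)+1) ≤ 2 * n * u := by nlinarith
      calc 3 * ((n:ℝ)+1) * m ≤ (2 * n * u) * m := by gcongr
        _ = 2 * n * m * u := by ring
    have h7 : ((n:ℝ)+1) * (m * c) ≤ 1/3 * (p * c) := by nlinarith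
    -- last part
    have h8 : ((n:ℝ)+1) * (N n m * N (n+1) m) ≤ 1/3 * (p * c) := by
      have h9 : (N n m : ℝ) * N (n+1) m ≤ (m:ℝ)^(2*n+1) := by
        rw [show 2 * n + 1 = n + (n+1) by ring, pow_add]
        exact mul_le_mul hNmR hNm1R (by positivity) (by positivity)
      have h10 := hm23 _ hc2
      have h11 : 3 * ((n:ℝ)+1) ≤ p := by
        have : 3 * ((n:ℝ)+1) * 1 ≤ 3 * ((n:ℝ)+1) * m := by gcongr
        linarith
      have h12 : (m:ℝ)^(2*n+1) ≤ c := by
        have : (0:ℝ) ≤ (m:ℝ)^(2*n+1) := by positivity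
        linarith
      have h13 : 3 * ((n:ℝ)+1) * (N n m * N (n+1) m) ≤ p * c := by
        apply mul_le_mul h11 (h9.trans h12) (by positivity) (by linarith)
      linarith
    have h14 : ((n:ℝ)+1) * (((N (n+1) (et + m + 2) + (D - (et + m + 1)) * (W + N n m) : ℕ) : ℝ)
        + m * N n (e+1) + N n m * N (n+1) m) ≤ ((n:ℝ)+1) * N (n+1) (e+1) := by
      rw [hdim, ← hc]
      have h15 : ((n:ℝ)+1) * ((N (n+1) (et + m + 2) + (D - (et + m + 1)) * (W + N n m) : ℕ) : ℝ)
          ≤ ((n:ℝ)+1) * (3 * p * a) := by gcongr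
      have h16 : p * c ≤ ((e:ℝ) + 1 + n) * c := by
        apply mul_le_mul_of_nonneg_right _ hc0.le
        linarith
      nlinarith
    have h17 := le_of_mul_le_mul_left h14 (by positivity)
    exact_mod_cast h17

end Pool.Agent.Helper46.EAH
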