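import Mathlib
import Pool.Agent.Helper46.EAH.Induct

/-! The inductive step, second half. -/

namespace Pool.Agent.Helper46.EAH

open Finset

variable {n m : ℕ} {u v : ℝ}

theorem good_step (k : Type) [Field k] (h : Dat n m u) (h' : Dat (n+1) m v) (huv : u ≤ v)
    (hgrow : 8 * (2 * n * m) * u^n ≤ v^n) (hG : Good k n m u) : Good k (n+1) m v := by
  obtain ⟨W, D, et, w2, H, hDb, hw2b, hw1b⟩ := exists_hyp k h hG
  have hn := h.hn
  have hm := h.hm
  have hn2 := h.n2
  have hm1 := h.m1
  have hu := h.upos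
  have hv := h'.upos
  have hu64 := h.u64
  have hv64 := h'.u64
  have hyv0 : (0:ℝ) ≤ 2 * ((n+1:ℕ):ℝ) * m * v := by positivity
  obtain ⟨D', hD'le, hD'lt⟩ : ∃ D' : ℕ, 2 * ((n+1:ℕ):ℝ) * m * v ≤ D' ∧
      (D':ℝ) < 2 * ((n+1:ℕ):ℝ) * m * v + 1 :=
    ⟨⌈2 * ((n+1:ℕ):ℝ) * m * v⌉₊, Nat.le_ceil _, Nat.ceil_lt_add_one hyv0⟩
  have hpow : 3 * (2 * n * m * u) * u^(n-1) ≤ 3/8 * v^n := by
    have h1 : u^n = u^(n-1) * u := h.un
    rw [h1] at hgrow
    nlinarith
  have hw2v : (w2:ℝ) ≤ 3/8 * v^n := hw2b.trans hpow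
  have hw1v : (w1 n m W et D : ℝ) ≤ 3/8 * v^n := hw1b.trans hpow
  have hNmR : (N n m : ℝ) ≤ (m:ℝ)^n := by exact_mod_cast N_le_pow n m
  have hNm1R : (N (n+1) m : ℝ) ≤ (m:ℝ)^(n+1) := by exact_mod_cast N_le_pow (n+1) m
  have hvn : 8 * (m:ℝ)^(2*n) ≤ v^n := by
    have h1 := h'.u64m
    obtain ⟨n', rfl⟩ := Nat.exists_eq_add_of_le' hn
    calc 8 * (m:ℝ)^(2*(n'+2)) ≤ 64^(n'+2) * (m:ℝ)^(3*(n'+2)) := by
          gcongr
          · calc (8:ℝ) ≤ 64^1 := by norm_num
              _ ≤ 64^(n'+2) := pow_le_pow_right₀ (by norm_num) (by omega)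
          · norm_num
      _ = (64 * (m:ℝ)^3)^(n'+2) := by rw [mul_pow, ← pow_mul]
      _ ≤ v^(n'+2) := pow_le_pow_left₀ (by positivity) h1 _
  have hvn0 : (0:ℝ) < v^n := by positivity
  have hDD : D + m + 2 ≤ D' := by
    have h1 : (D:ℝ) + m + 2 ≤ D' := by
      refine le_trans ?_ hD'le
      push_cast
      have h2 : 2 * ((n:ℝ)+1) * m * u ≤ 2 * ((n:ℝ)+1) * m * v := by gcongr
      have h3 : 2 * ((n:ℝ)+1) * m * u = 2 * n * m * u + 2 * m * u := by ring
      have h4 : (m:ℝ) + 3 ≤ 2 * m * u := by nlinarith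
      linarith
    exact_mod_cast h1
  have hH2 : Hyp2 n m (N n m) et D w2 W (max (w1 n m W et D) w2) (D' - m - 1) := by
    refine ⟨by omega, le_max_left _ _, le_max_right _ _, ?_⟩
    intro e he
    apply slack n m e _ (by omega) hm
    · have h1 : (2 * (m:ℝ)) ≤ D := by
        have h2 : et + m + 1 ≤ D := H.hEs
        have h3 := H.t2 et le_rfl
        -- use the size of `D`
        have h4 : (2 * m : ℕ) ≤ D := by
          by_contra hcon
          push Not at hcon
          have h5 := H.t1
          have h6 : m * (n+1) ≤ et := by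
            by_contra hcon2
            push Not at hcon2
            have h7 := N_dim n (et+1)
            have h8 : (n+1) * ((m+1) * N n (et+1)) ≤ (et + 1 + n) * N n (et+1) := by
              rw [← h7]
              exact Nat.mul_le_mul_left _ h3
            have h9 : 1 ≤ N n (et+1) := N_pos (by omega)
            have h10 : (n+1) * (m+1) ≤ et + 1 + n := by
              have : ((n+1) * (m+1)) * N n (et+1) ≤ (et+1+n) * N n (et+1) := by
                rw [mul_assoc]; exact h8
              exact Nat.le_of_mul_le_mul_right this h9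
            nlinarith
          nlinarith
        exact_mod_cast h4
      have h2 : 2 * m ≤ D := by exact_mod_cast h1
      omega
    · have h1 : (m * v)^n ≤ (N n (e+1) : ℝ) := by
        apply N_lower n e (by omega) _ (by positivity)
        have h2 : (D':ℝ) ≤ e + m + 1 := by exact_mod_cast (show D' ≤ e + m + 1 by omega)
        have h3 := hD'le.trans h2
        push_cast at h3
        have h4 : (m:ℝ) * 1 ≤ m * v := by
          apply mul_le_mul_of_nonneg_left _ (by positivity)
          linarith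
        have h5 : 0 ≤ (n:ℝ) * m * v := by positivity
        nlinarith
      have h2 : (2:ℝ) * m * ((max (w1 n m W et D) w2 : ℕ) + N n m * N n m) ≤ N n (e+1) := by
        have h3 : ((max (w1 n m W et D) w2 : ℕ) : ℝ) ≤ 3/8 * v^n := by
          rw [Nat.cast_max]
          exact max_le hw1v hw2v
        have h4 : (N n m : ℝ) * N n m ≤ v^n / 8 := by
          have h5 : (N n m : ℝ) * N n m ≤ (m:ℝ)^(2*n) := by
            rw [two_mul, pow_add]
            exact mul_le_mul hNmR hNmR (by positivity) (by positivity)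
          linarith
        calc (2:ℝ) * m * ((max (w1 n m W et D) w2 : ℕ) + N n m * N n m)
            ≤ 2 * m * (3/8 * v^n + v^n/8) := by gcongr
          _ = m^1 * v^n := by ring
          _ ≤ m^n * v^n := by
              apply mul_le_mul_of_nonneg_right _ hvn0.le
              exact pow_le_pow_right₀ hm1 (by omega)
          _ = (m * v)^n := (mul_pow _ _ _).symm
          _ ≤ _ := h1
      exact_mod_cast h2
  have hlow : ∀ e, D' ≤ e → (2 * m * v)^n ≤ (N n (e+1) : ℝ) := by
    intro e he
    apply N_lower n e (by omega) _ (by positivity)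
    have h1 : (D':ℝ) ≤ e := by exact_mod_cast he
    have h3 := hD'le.trans h1
    push_cast at h3
    have h5 : 0 ≤ (m:ℝ) * v := by positivity
    nlinarith
  have h2mn : (2:ℝ) * m^n ≤ (2 * m)^n := by
    rw [mul_pow]
    apply mul_le_mul_of_nonneg_right _ (by positivity)
    calc (2:ℝ) = 2^1 := (pow_one _).symm
      _ ≤ 2^n := pow_le_pow_right₀ (by norm_num) (by omega)
  have hEX : EX k (n+1) m D' := by
    refine H.ex_succ hH2 D' (by omega) ?_ ?_
    · intro e he
      have h1 := hlow e he
      have h2 : (w2:ℝ) * N n m ≤ N n (e+1) := by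
        calc (w2:ℝ) * N n m ≤ (3/8 * v^n) * m^n := by gcongr
          _ ≤ (2 * m^n) * v^n := by
              have : 0 ≤ v^n * (m:ℝ)^n := by positivity
              nlinarith
          _ ≤ (2 * m)^n * v^n := by gcongr
          _ = (2 * m * v)^n := (mul_pow _ _ _).symm
          _ ≤ _ := h1
      exact_mod_cast h2
    · intro e he
      have h1 := hlow e he
      have hdim : ((n:ℝ) + 1) * N (n+1) (e+1) = ((e:ℝ) + 1 + n) * N n (e+1) := by
        exact_mod_cast N_dim n (e+1)
      have h2 : ((n:ℝ)+1) * ((m:ℝ) * w2 * N (n+1) m + w2) ≤ ((n:ℝ)+1) * N (n+1) (e+1) := by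
        rw [hdim]
        have h3 : (m:ℝ) * w2 * N (n+1) m + w2 ≤ 2 * m^(n+2) * (3/8 * v^n) := by
          have h4 : (m:ℝ) * w2 * N (n+1) m ≤ m * (3/8 * v^n) * m^(n+1) := by gcongr
          have h5 : (1:ℝ) ≤ (m:ℝ)^(n+2) := one_le_pow₀ hm1
          have h6 : (m:ℝ) * (3/8 * v^n) * m^(n+1) = m^(n+2) * (3/8 * v^n) := by ring
          have h7 : (3/8 * v^n) ≤ m^(n+2) * (3/8 * v^n) := by nlinarith
          linarith
        have h4 : 2 * ((n:ℝ)+1) * m * v ≤ (e:ℝ) + 1 + n := by
          have h5 : (D':ℝ) ≤ e := by exact_mod_cast he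
          have h6 := hD'le.trans h5
          push_cast at h6
          linarith
        have h5 : (2 * m^n) * v^n ≤ (N n (e+1) : ℝ) := by
          calc (2 * m^n) * v^n ≤ (2 * m)^n * v^n := by gcongr
            _ = (2 * m * v)^n := (mul_pow _ _ _).symm
            _ ≤ _ := h1
        calc ((n:ℝ)+1) * ((m:ℝ) * w2 * N (n+1) m + w2)
            ≤ ((n:ℝ)+1) * (2 * m^(n+2) * (3/8 * v^n)) := by gcongr
          _ = (2 * ((n:ℝ)+1) * m * (3/8 * m)) * (m^n * v^n) := by ring
          _ ≤ (2 * ((n:ℝ)+1) * m * v) * (2 * m^n * v^n) := by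
              have hmv : (m:ℝ) ≤ v := by
                have h8 := h'.u64m
                have h9 : (m:ℝ) ≤ (m:ℝ)^3 := by
                  calc (m:ℝ) = m^1 := (pow_one _).symm
                    _ ≤ m^3 := pow_le_pow_right₀ hm1 (by omega)
                linarith
              apply mul_le_mul _ _ (by positivity) (by positivity)
              · gcongr
                linarith
              · have : 0 ≤ (m:ℝ)^n * v^n := by positivity
                nlinarith
          _ ≤ ((e:ℝ) + 1 + n) * N n (e+1) := by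
              apply mul_le_mul h4 h5 (by positivity) (by positivity)
      have h3 := le_of_mul_le_mul_left h2 (by positivity)
      exact_mod_cast h3
  refine ⟨fun W'' hW'' => ?_, fun D'' hD'' => ?_⟩
  · rw [Nat.add_sub_cancel] at hW''
    have h1 : max (w1 n m W et D) w2 ≤ W'' := by
      have h2 : ((max (w1 n m W et D) w2 : ℕ) : ℝ) ≤ W'' := by
        rw [Nat.cast_max]
        refine le_trans (max_le hw1v hw2v) ?_
        linarith
      exact_mod_cast h2
    exact ⟨AP1_mono (H.ap1_succ hH2) h1, AP2_mono (H.ap2_succ hH2) h1⟩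
  · apply EX_mono hEX
    have h1 : (D':ℝ) < D'' + 1 := by linarith
    have h2 : D' < D'' + 1 := by exact_mod_cast h1
    omega

end Pool.Agent.Helper46.EAH
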