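import Mathlib
import Pool.Agent.Helper46.EAH.Induct2

/-! Generic maximal rank with an explicit bound. -/

namespace Pool.Agent.Helper46.EAH

open Finset

lemma N_two (a : ℕ) : 2 * N 2 a = (a + 1) * a := by
  have h := N_dim 1 a
  rw [N_dim_one] at h
  exact h

/-- the plane -/
theorem good_two (k : Type) [Field k] (m : ℕ) (hm : 1 ≤ m) :
    Good k 2 m ((4 * (m:ℝ))^3) := by
  have hmm : m ≤ m * m := by nlinarith
  have hm2 : m * m ≤ m * m * m := by nlinarith
  have hm3 : m * m * m ≤ m * m * m * m := by nlinarith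
  have H : Hyp k 1 m 0 0 1 (2*m) (6*(m*m))
      (N 2 (2 * m + m + 2) + (6*(m*m) - (2*m+m+1)) * (0 + N 1 m)) := by
    refine ⟨le_rfl, hm, le_rfl, ex_one k m, ap1_one k m, ap2_one k m, rep_one m, ?_, ?_, ?_,
      Nat.zero_le _, by nlinarith, rfl, ?_⟩
    · intro e he
      simp only [N_dim_one]
      obtain ⟨m, rfl⟩ := Nat.exists_eq_add_of_le' hm
      simp only [Nat.add_sub_cancel]
      nlinarith
    · intro e he
      have h1 := N_two (e+1)
      rw [N_dim_one]
      have h2 : 2 * ((m+1) * (e+1)) ≤ (e+1+1) * (e+1) := by nlinarith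
      change (m+1) * (e+1) ≤ N 2 (e+1)
      omega
    · intro e he
      simp only [N_dim_one]
      obtain ⟨m, rfl⟩ := Nat.exists_eq_add_of_le' hm
      simp only [Nat.add_sub_cancel]
      nlinarith
    · intro e he
      simp only [N_dim_one]
      have h1 := N_two (e+1)
      have h2 := N_two (2*m+m+2)
      have h3 := N_two m
      change N 2 (2*m+m+2) + (6*(m*m) - (2*m+m+1)) * (0+m) + m * (e+1) + 1 * N 2 m ≤ N 2 (e+1)
      have h4 : (6*(m*m) - (2*m+m+1)) * (0+m) + (2*m+m+1) * m = 6*(m*m)*m := by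
        rw [zero_add, ← add_mul]
        congr 1
        have : 2*m+m+1 ≤ 6*(m*m) := by nlinarith
        omega
      -- twice the inequality
      have h5 : (6*(m*m) + 2) * (e+1) ≤ (e+1+1) * (e+1) := Nat.mul_le_mul_right _ (by omega)
      have h6 : (6*(m*m) + 2 - 2*m) * (6*(m*m)+1) ≤ (6*(m*m) + 2 - 2*m) * (e+1) :=
        Nat.mul_le_mul_left _ (by omega)
      obtain ⟨t, ht⟩ : ∃ t, 6*(m*m) + 2 = 2*m + t := ⟨6*(m*m)+2-2*m, by
        have : 2 * m ≤ 6*(m*m)+2 := by nlinarith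
        omega⟩
      have ht' : 6*(m*m) + 2 - 2*m = t := by omega
      rw [ht'] at h6
      have h7 : (2*m+t) * (e+1) = 2*m*(e+1) + t*(e+1) := by ring
      rw [ht, h7] at h5
      have h8 : 2 * (m * (e+1)) = 2*m*(e+1) := by ring
      have h9 : (2*m+m+2+1) * (2*m+m+2) + 2 * (6*(m*m)*m) + (m+1) * m
          ≤ t * (6*(m*m)+1) + 2 * ((2*m+m+1)*m) := by
        have h10 : t = 6*(m*m) + 2 - 2*m := ht'.symm
        zify at ht ⊢
        have h11 : (t:ℤ) = 6*(m*m) + 2 - 2*m := by linarith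
        rw [h11]
        have hmz : (1:ℤ) ≤ m := by exact_mod_cast hm
        nlinarith [mul_nonneg (sub_nonneg.2 hmz) (sub_nonneg.2 hmz),
          mul_nonneg (mul_nonneg (sub_nonneg.2 hmz) (sub_nonneg.2 hmz)) (sub_nonneg.2 hmz),
          mul_nonneg (mul_nonneg (sub_nonneg.2 hmz) (sub_nonneg.2 hmz))
            (mul_nonneg (sub_nonneg.2 hmz) (sub_nonneg.2 hmz))]
      nlinarith
  have hw2 : N 2 (2 * m + m + 2) + (6*(m*m) - (2*m+m+1)) * (0 + N 1 m) ≤ 21 * (m*m*m) := by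
    have h2 := N_two (2*m+m+2)
    have h3 : (2*m+m+2+1) * (2*m+m+2) ≤ 30 * (m*m) := by nlinarith
    have h4 : (6*(m*m) - (2*m+m+1)) * (0 + N 1 m) ≤ 6*(m*m) * m := by
      rw [N_dim_one, zero_add]
      exact Nat.mul_le_mul_right _ (Nat.sub_le _ _)
    nlinarith
  have hw1 : w1 1 m 0 (2*m) (6*(m*m)) ≤ 21 * (m*m*m) := by
    unfold w1
    rw [N_dim_one, N_dim_one]
    nlinarith
  have H2 : Hyp2 1 m 1 (2*m) (6*(m*m))
      (N 2 (2 * m + m + 2) + (6*(m*m) - (2*m+m+1)) * (0 + N 1 m)) 0 (21 * (m*m*m))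
      (24 * (m*m*m*m)) := by
    refine ⟨by nlinarith, hw1, hw2, ?_⟩
    intro e he
    simp only [N_dim_one]
    obtain ⟨m', rfl⟩ := Nat.exists_eq_add_of_le' hm
    simp only [Nat.add_sub_cancel]
    nlinarith
  have hEX : EX k 2 m (26 * (m*m*m*m)) := by
    refine H.ex_succ H2 _ (by nlinarith) ?_ ?_
    · intro e he
      have hNm : N 1 m = m := N_dim_one m
      rw [N_dim_one (e+1)]
      calc _ ≤ 21 * (m*m*m) * m := Nat.mul_le_mul hw2 hNm.le
        _ = 21 * (m*m*m*m) := by ring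
        _ ≤ e + 1 := by omega
    · intro e he
      have h1 := N_two (e+1)
      have h3 := N_two m
      change m * _ * N 2 m + _ ≤ N 2 (e+1)
      have h4 : N 2 m ≤ m * m := by nlinarith
      have h5 : m * (N 2 (2 * m + m + 2) + (6*(m*m) - (2*m+m+1)) * (0 + N 1 m)) * N 2 m
          ≤ m * (21 * (m*m*m)) * (m * m) :=
        Nat.mul_le_mul (Nat.mul_le_mul_left _ hw2) h4
      have h6 : (26 * (m*m*m*m)) * (26 * (m*m*m*m)) ≤ (e+1+1) * (e+1) :=
        Nat.mul_le_mul (by omega) (by omega)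
      have h7 : m * (21 * (m*m*m)) * (m * m) = 21 * ((m*m*m*m) * (m * m)) := by ring
      have h8 : (m*m*m*m) * (m * m) ≤ (m*m*m*m) * (m*m*m*m) :=
        Nat.mul_le_mul_left _ (hm2.trans hm3)
      have h9 : m*m*m ≤ (m*m*m*m) * (m*m*m*m) := by
        have : 1 ≤ m*m*m*m := by nlinarith
        nlinarith
      nlinarith
  refine ⟨fun W hW => ?_, fun D hD => ?_⟩
  · have h1 : 21 * (m*m*m) ≤ W := by
      have h2 : ((21 * (m*m*m) : ℕ) : ℝ) ≤ W := by
        refine le_trans ?_ hW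
        push_cast
        have : (0:ℝ) ≤ (m:ℝ)^3 := by positivity
        have h3 : (((4:ℝ) * m)^3)^1 = 64 * (m:ℝ)^3 := by ring
        rw [h3]
        nlinarith
      exact_mod_cast h2
    exact ⟨AP1_mono (H.ap1_succ H2) h1, AP2_mono (H.ap2_succ H2) h1⟩
  · apply EX_mono hEX
    have h2 : ((26 * (m*m*m*m) : ℕ) : ℝ) ≤ D := by
      refine le_trans ?_ hD
      push_cast
      have : (0:ℝ) ≤ (m:ℝ)^4 := by positivity
      nlinarith
    exact_mod_cast h2

/-- harmonic number `1 + 1/2 + ... + 1/(n-1)` -/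
noncomputable def Har (n : ℕ) : ℝ := ∑ j ∈ range (n-1), 1 / ((j:ℝ) + 1)

lemma Har_succ (n : ℕ) (hn : 1 ≤ n) : Har (n+1) = Har n + 1 / n := by
  obtain ⟨n, rfl⟩ := Nat.exists_eq_add_of_le' hn
  unfold Har
  rw [Nat.add_sub_cancel, Nat.add_sub_cancel, sum_range_succ]
  push_cast
  rfl

lemma Har_ge (n : ℕ) (hn : 2 ≤ n) : 1 ≤ Har n := by
  induction n, hn using Nat.le_induction with
  | base => simp [Har]
  | succ n hn ih =>
    rw [Har_succ n (by omega)]
    have : (0:ℝ) ≤ 1 / n := by positivity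
    linarith

/-- the auxiliary real parameter -/
noncomputable def uu (n m : ℕ) : ℝ := (2 * (n:ℝ) * m) ^ (2 + Har n)

lemma dat_uu (n m : ℕ) (hn : 2 ≤ n) (hm : 1 ≤ m) : Dat n m (uu n m) := by
  refine ⟨hn, hm, ?_⟩
  unfold uu
  have h1 : (2:ℝ) ≤ n := by exact_mod_cast hn
  have h2 : (1:ℝ) ≤ m := by exact_mod_cast hm
  rw [← Real.rpow_natCast]
  apply Real.rpow_le_rpow_of_exponent_le
  · nlinarith
  · have := Har_ge n hn
    push_cast
    linarith

lemma uu_mono (n m : ℕ) (hn : 2 ≤ n) (hm : 1 ≤ m) : uu n m ≤ uu (n+1) m := by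
  unfold uu
  have h1 : (2:ℝ) ≤ n := by exact_mod_cast hn
  have h2 : (1:ℝ) ≤ m := by exact_mod_cast hm
  have h3 := Har_ge n hn
  calc (2 * (n:ℝ) * m) ^ (2 + Har n) ≤ (2 * ((n+1:ℕ):ℝ) * m) ^ (2 + Har n) := by
        apply Real.rpow_le_rpow (by positivity) _ (by linarith)
        push_cast
        nlinarith
    _ ≤ (2 * ((n+1:ℕ):ℝ) * m) ^ (2 + Har (n+1)) := by
        apply Real.rpow_le_rpow_of_exponent_le
        · push_cast
          nlinarith
        · rw [Har_succ n (by omega)]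
          have : (0:ℝ) ≤ 1 / n := by positivity
          linarith

lemma uu_grow (n m : ℕ) (hn : 2 ≤ n) (hm : 1 ≤ m) :
    8 * (2 * (n:ℝ) * m) * (uu n m)^n ≤ (uu (n+1) m)^n := by
  have h1 : (2:ℝ) ≤ n := by exact_mod_cast hn
  have h2 : (1:ℝ) ≤ m := by exact_mod_cast hm
  have h3 := Har_ge n hn
  have hn0 : (0:ℝ) < n := by linarith
  obtain ⟨x, hx⟩ : ∃ x : ℝ, x = 2 * n * m := ⟨_, rfl⟩
  have hx0 : 0 < x := by rw [hx]; positivity
  have hy : (2 * ((n+1:ℕ):ℝ) * m) = (1 + 1/n) * x := by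
    rw [hx]
    push_cast
    field_simp
  have hH := Har_succ n (by omega)
  have e1 : (uu n m)^n = x ^ ((2 + Har n) * n) := by
    unfold uu
    rw [← hx, ← Real.rpow_natCast, ← Real.rpow_mul hx0.le]
  have e2 : (uu (n+1) m)^n = (1 + 1/(n:ℝ)) ^ ((n:ℝ) * (2 + Har (n+1)))
      * x ^ ((n:ℝ) * (2 + Har (n+1))) := by
    unfold uu
    rw [hy, ← Real.rpow_natCast, ← Real.rpow_mul (by positivity),
      mul_comm (2 + Har (n+1)) (n:ℝ), Real.mul_rpow (by positivity) hx0.le]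
  have e3 : x ^ ((n:ℝ) * (2 + Har (n+1))) = x ^ ((2 + Har n) * n) * x := by
    rw [hH]
    have : (n:ℝ) * (2 + (Har n + 1/n)) = (2 + Har n) * n + 1 := by
      field_simp
      ring
    rw [this, Real.rpow_add hx0, Real.rpow_one]
  have e4 : (8:ℝ) ≤ (1 + 1/(n:ℝ)) ^ ((n:ℝ) * (2 + Har (n+1))) := by
    rw [Real.rpow_mul (by positivity), Real.rpow_natCast]
    have h4 : (2:ℝ) ≤ (1 + 1/(n:ℝ))^n := by
      have h5 := one_add_mul_le_pow (show (-2:ℝ) ≤ 1/(n:ℝ) by
        have : (0:ℝ) ≤ 1 / n := by positivity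
        linarith) n
      have h6 : (n:ℝ) * (1/n) = 1 := by field_simp
      rw [h6] at h5
      linarith
    calc (8:ℝ) = 2 ^ (3:ℝ) := by norm_num
      _ ≤ 2 ^ (2 + Har (n+1)) := by
          apply Real.rpow_le_rpow_of_exponent_le (by norm_num)
          rw [hH]
          have : (0:ℝ) ≤ 1 / n := by positivity
          linarith
      _ ≤ ((1 + 1/(n:ℝ))^n) ^ (2 + Har (n+1)) := by
          apply Real.rpow_le_rpow (by norm_num) h4
          rw [hH]
          have : (0:ℝ) ≤ 1 / n := by positivity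
          linarith
  rw [e1, e2, e3, ← hx]
  have h7 : 0 < x ^ ((2 + Har n) * n) := Real.rpow_pos_of_pos hx0 _
  calc 8 * x * x ^ ((2 + Har n) * n) = 8 * (x ^ ((2 + Har n) * n) * x) := by ring
    _ ≤ _ := by gcongr

theorem good_all (k : Type) [Field k] (n m : ℕ) (hn : 2 ≤ n) (hm : 1 ≤ m) :
    Good k n m (uu n m) := by
  induction n, hn using Nat.le_induction with
  | base =>
    have h1 : uu 2 m = (4 * (m:ℝ))^3 := by
      unfold uu
      have : Har 2 = 1 := by simp [Har]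
      rw [this, show (2:ℝ) + 1 = ((3:ℕ):ℝ) by norm_num, Real.rpow_natCast]
      push_cast
      ring
    rw [h1]
    exact good_two k m hm
  | succ n hn ih =>
    exact good_step k (dat_uu n m hn hm) (dat_uu (n+1) m (by omega) hm) (uu_mono n m hn hm)
      (uu_grow n m hn hm) ih

/-- generic maximal rank in all degrees at least `(2nm)^(3 + H_{n-1})` -/
theorem ex_all (k : Type) [Field k] (n m : ℕ) (hn : 1 ≤ n) (hm : 1 ≤ m) (D : ℕ)
    (hD : (2 * (n:ℝ) * m) ^ (3 + Har n) ≤ D) : EX k n m D := by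
  rcases Nat.eq_or_lt_of_le hn with h | h
  · subst h
    exact EX_mono (ex_one k m) (Nat.zero_le _)
  · apply (good_all k n m h hm).2 D
    refine le_trans (le_of_eq ?_) hD
    unfold uu
    have h1 : (2:ℝ) ≤ n := by exact_mod_cast h
    have h2 : (1:ℝ) ≤ m := by exact_mod_cast hm
    have hx0 : (0:ℝ) < 2 * n * m := by positivity
    rw [show (3:ℝ) + Har n = 1 + (2 + Har n) by ring, Real.rpow_add hx0 1, Real.rpow_one]

end Pool.Agent.Helper46.EAH
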