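import Mathlib
import Pool.Agent.Helper46.EAH.Basic

/-! Forms vanishing to given order at a point of projective space. -/

namespace Pool.Agent.Helper46.EAH

open Finset MvPolynomial

/-- the monomial with exponent `a` -/
def mon {R : Type*} [CommSemiring R] : ∀ n, (ℕ → R) → E n → R
  | 0, _, _ => 1
  | (n+1), y, a => y n ^ a.1 * mon n y a.2

lemma mon_congr {R : Type*} [CommSemiring R] : ∀ n (y y' : ℕ → R), (∀ i < n, y i = y' i) →
    ∀ a : E n, mon n y a = mon n y' a
  | 0, _, _, _, _ => rfl
  | (n+1), y, y', h, a => by
      simp only [mon]
      rw [h n (by omega), mon_congr n y y' (fun i hi => h i (by omega))]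

lemma mon_map {R S : Type*} [CommSemiring R] [CommSemiring S] (f : R →+* S) :
    ∀ n (y : ℕ → R) (a : E n), f (mon n y a) = mon n (fun i => f (y i)) a
  | 0, _, _ => by simp [mon]
  | (n+1), y, a => by simp [mon, mon_map f n]

lemma mon_smul {R : Type*} [CommSemiring R] (t : R) : ∀ n (y : ℕ → R) (a : E n),
    mon n (fun i => t * y i) a = t ^ sz n a * mon n y a
  | 0, _, _ => by simp [mon, sz]
  | (n+1), y, a => by
      simp only [mon, sz]
      rw [mon_smul t n, mul_pow, pow_add]
      ring

lemma cw_eq_zero_of_lt {R : Type*} [CommRing R] : ∀ n (p : ℕ → R) (α a : E n),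
    sz n a < sz n α → cw n p α a = 0
  | 0, _, _, _, h => absurd h (by simp [sz])
  | (n+1), p, α, a, h => by
      simp only [sz] at h
      simp only [cw]
      by_cases h1 : a.1 < α.1
      · rw [Nat.choose_eq_zero_of_lt h1]
        simp
      · rw [cw_eq_zero_of_lt n p α.2 a.2 (by omega), mul_zero]

/-- binomial expansion -/
lemma mon_expand {R : Type*} [CommRing R] (x : R) : ∀ n (p y : ℕ → R) (a : E n) (D : ℕ),
    sz n a ≤ D →
    mon n (fun i => p i * x + y i) a =
      ∑ α ∈ Box n D, cw n p α a * x ^ (sz n a - sz n α) * mon n y α
  | 0, _, _, _, _, _ => by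
      have : Box 0 = fun _ => ({()} : Finset (E 0)) := rfl
      rw [this]
      refine ((sum_singleton _ _).trans ?_).symm
      simp [mon, cw, sz]
  | (n+1), p, y, a, D, hD => by
      obtain ⟨j, a⟩ := a
      simp only [sz] at hD
      rw [sum_Box]
      simp only [mon, cw, sz]
      -- terms vanish unless `i ≤ j`
      have h1 : ∀ i ∈ range (D+1), (∑ α ∈ Box n (D - i), (j.choose i : R) * p n ^ (j - i)
          * cw n p α a * x ^ (j + sz n a - (i + sz n α)) * (y n ^ i * mon n y α))
          = (if i ≤ j then (j.choose i : R) * (p n * x) ^ (j - i) * y n ^ i else 0)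
            * mon n (fun i => p i * x + y i) a := by
        intro i hi
        rw [mem_range] at hi
        by_cases hij : i ≤ j
        · rw [if_pos hij, mon_expand x n p y a (D - i) (by omega), mul_sum]
          refine sum_congr rfl fun α _ => ?_
          by_cases hα : cw n p α a = 0
          · rw [hα]; ring
          · have hle : sz n α ≤ sz n a := by
              by_contra hcon
              push Not at hcon
              exact hα (cw_eq_zero_of_lt n p α a hcon)
            rw [show j + sz n a - (i + sz n α) = (j - i) + (sz n a - sz n α) by omega,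
              pow_add, mul_pow]
            ring
        · rw [if_neg hij, zero_mul]
          refine sum_eq_zero fun α _ => ?_
          rw [Nat.choose_eq_zero_of_lt (by omega)]
          simp
      rw [sum_congr rfl h1, ← sum_mul]
      congr 1
      rw [add_pow]
      rw [← sum_filter]
      have h2 : (range (D+1)).filter (fun i => i ≤ j) = range (j+1) := by
        ext i
        simp only [mem_filter, mem_range]
        omega
      rw [h2, ← sum_range_reflect]
      refine sum_congr rfl fun i hi => ?_
      rw [mem_range] at hi
      rw [show j + 1 - 1 - i = j - i by omega, show j - (j - i) = i by omega,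
        Nat.choose_symm (show i ≤ j by omega)]
      ring

end Pool.Agent.Helper46.EAH
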