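import Mathlib
import Pool.Agent.Helper46.EAH.Geo

/-! Forms vanishing to given order at a point of projective space. -/

namespace Pool.Agent.Helper46.EAH

open Finset MvPolynomial

variable {F : Type*} [Field F]

/-- the variables with positive index -/
noncomputable def xv (F : Type*) [Field F] (n i : ℕ) : MvPolynomial (Fin (n+1)) F :=
  if h : i + 1 < n + 1 then X ⟨i+1, h⟩ else 0

/-- the coordinates with positive index -/
def pv {R : Type*} [Zero R] {n : ℕ} (P : Fin (n+1) → R) (i : ℕ) : R :=
  if h : i + 1 < n + 1 then P ⟨i+1, h⟩ else 0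

/-- the form of degree `d` with coefficients `c` -/
noncomputable def pol (n d : ℕ) (c : E n → F) : MvPolynomial (Fin (n+1)) F :=
  ∑ a ∈ Box n d, C (c a) * (X 0 ^ (d - sz n a) * mon n (xv F n) a)

/-- coefficients of the form at a point -/
def row {R : Type*} [CommRing R] {n : ℕ} (d : ℕ) (P : Fin (n+1) → R) (α a : E n) : R :=
  P 0 ^ (d - sz n a) * cw n (pv P) α a

lemma xv_homog (n i : ℕ) : (xv F n i).IsHomogeneous 1 := by
  unfold xv
  split_ifs
  · exact isHomogeneous_X _ _
  · exact isHomogeneous_zero _ _ _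

lemma mon_homog (n : ℕ) : ∀ n' (a : E n'), (mon n' (xv F n) a).IsHomogeneous (sz n' a)
  | 0, _ => isHomogeneous_one _ _
  | (n'+1), a => by
      simp only [mon, sz]
      have h := (xv_homog (F := F) n n').pow a.1
      rw [one_mul] at h
      exact h.mul (mon_homog n n' a.2)

lemma pol_homog (n d : ℕ) (c : E n → F) : (pol n d c).IsHomogeneous d := by
  unfold pol
  apply IsHomogeneous.sum
  intro a ha
  rw [mem_Box] at ha
  have h1 := (isHomogeneous_X F (0 : Fin (n+1))).pow (d - sz n a)
  rw [one_mul] at h1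
  have h2 := h1.mul (mon_homog (F := F) n n a)
  have h3 := (isHomogeneous_C (Fin (n+1)) (c a)).mul h2
  have h4 : 0 + (d - sz n a + sz n a) = d := by omega
  rwa [h4] at h3

/-- generic ideal of a point -/
noncomputable def ptI {n : ℕ} (p : Fin (n + 1) → F) : Ideal (MvPolynomial (Fin (n + 1)) F) :=
  Ideal.span {f | (∃ d, f.IsHomogeneous d) ∧ eval p f = 0}

/-- linear forms vanishing at the point -/
noncomputable def ell {n : ℕ} (P : Fin (n+1) → F) (i : ℕ) : MvPolynomial (Fin (n+1)) F :=
  C (P 0) * xv F n i - C (pv P i) * X 0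

lemma ell_mem {n : ℕ} (P : Fin (n+1) → F) (i : ℕ) : ell P i ∈ ptI P := by
  apply Ideal.subset_span
  refine ⟨⟨1, ?_⟩, ?_⟩
  · unfold ell
    apply IsHomogeneous.sub
    · have := (isHomogeneous_C (Fin (n+1)) (P 0)).mul (xv_homog (F := F) n i)
      rwa [zero_add] at this
    · have := (isHomogeneous_C (Fin (n+1)) (pv P i)).mul (isHomogeneous_X F (0 : Fin (n+1)))
      rwa [zero_add] at this
  · unfold ell xv pv
    split_ifs
    · simp only [map_sub, map_mul, eval_C, eval_X]
      ring
    · simp

lemma mon_mem {R : Type*} [CommRing R] (I : Ideal R) (y : ℕ → R) (hy : ∀ i, y i ∈ I) :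
    ∀ n (a : E n), mon n y a ∈ I ^ sz n a
  | 0, _ => by simp [mon, sz]
  | (n+1), a => by
      simp only [mon, sz]
      rw [pow_add]
      exact Ideal.mul_mem_mul (Ideal.pow_mem_pow (hy n) _) (mon_mem I y hy n a.2)

lemma pol_expand {n : ℕ} (d : ℕ) (P : Fin (n+1) → F) (c : E n → F) :
    C (P 0) ^ d * pol n d c = ∑ α ∈ Box n d, C (∑ a ∈ Box n d, row d P α a * c a) *
      (X 0 ^ (d - sz n α) * mon n (ell P) α) := by
  have h1 : ∀ a ∈ Box n d, C (P 0) ^ d * (C (c a) * (X 0 ^ (d - sz n a) * mon n (xv F n) a))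
      = ∑ α ∈ Box n d, C (row d P α a * c a) * (X 0 ^ (d - sz n α) * mon n (ell P) α) := by
    intro a ha
    rw [mem_Box] at ha
    have h2 : (C (P 0) : MvPolynomial (Fin (n+1)) F) ^ d
        = C (P 0) ^ (d - sz n a) * C (P 0) ^ sz n a := by
      rw [← pow_add]
      congr 1
      omega
    have h3 : (C (P 0) : MvPolynomial (Fin (n+1)) F) ^ sz n a * mon n (xv F n) a
        = ∑ α ∈ Box n d, cw n (fun i => C (pv P i)) α a * X 0 ^ (sz n a - sz n α)
          * mon n (ell P) α := by
      rw [← mon_smul, ← mon_expand (X 0) n (fun i => C (pv P i)) (ell P) a d ha]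
      apply mon_congr
      intro i _
      unfold ell
      ring
    calc C (P 0) ^ d * (C (c a) * (X 0 ^ (d - sz n a) * mon n (xv F n) a))
        = C (c a) * C (P 0) ^ (d - sz n a) * X 0 ^ (d - sz n a) *
          (C (P 0) ^ sz n a * mon n (xv F n) a) := by rw [h2]; ring
      _ = _ := by
        rw [h3, mul_sum]
        refine sum_congr rfl fun α hα => ?_
        rw [mem_Box] at hα
        unfold row
        by_cases hle : sz n α ≤ sz n a
        · rw [show d - sz n α = (d - sz n a) + (sz n a - sz n α) by omega, pow_add,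
            map_mul, map_mul, cw_map, map_pow]
          ring
        · rw [cw_eq_zero_of_lt n _ α a (by omega), cw_eq_zero_of_lt n _ α a (by omega)]
          simp
  rw [pol, mul_sum, sum_congr rfl h1, sum_comm]
  refine sum_congr rfl fun α _ => ?_
  rw [← sum_mul, map_sum]

lemma pol_mem {n : ℕ} (d k : ℕ) (P : Fin (n+1) → F) (hP : P 0 ≠ 0) (c : E n → F)
    (h : ∀ α : E n, sz n α < k → ∑ a ∈ Box n d, row d P α a * c a = 0) :
    pol n d c ∈ ptI P ^ k := by
  have h1 : C (P 0) ^ d * pol n d c ∈ ptI P ^ k := by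
    rw [pol_expand]
    refine Ideal.sum_mem _ fun α _ => ?_
    by_cases hα : sz n α < k
    · rw [h α hα, map_zero, zero_mul]
      exact Ideal.zero_mem _
    · apply Ideal.mul_mem_left
      apply Ideal.mul_mem_left
      exact Ideal.pow_le_pow_right (by omega) (mon_mem _ _ (ell_mem P) n α)
  have h2 : pol n d c = C ((P 0)⁻¹ ^ d) * (C (P 0) ^ d * pol n d c) := by
    rw [← mul_assoc, ← map_pow, ← map_mul, ← mul_pow, inv_mul_cancel₀ hP, one_pow, map_one,
      one_mul]
  rw [h2]
  exact Ideal.mul_mem_left _ _ h1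

/-- affine expansion at a point -/
noncomputable def psi {n : ℕ} (P : Fin (n+1) → F) :
    MvPolynomial (Fin (n+1)) F →ₐ[F] MvPolynomial ℕ F :=
  aeval (fun i => Fin.cases (C (P 0)) (fun j : Fin n => C (P j.succ) + X (j : ℕ)) i)

lemma cc_psi {n : ℕ} (P : Fin (n+1) → F) (f : MvPolynomial (Fin (n+1)) F) :
    constantCoeff (psi P f) = eval P f := by
  have : (constantCoeff).comp (psi P).toRingHom = (eval P : MvPolynomial (Fin (n+1)) F →+* F) := by
    refine MvPolynomial.ringHom_ext ?_ ?_
    · intro a
      change constantCoeff (psi P (C a)) = eval P (C a)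
      unfold psi
      rw [aeval_C]
      simp
    · intro s
      change constantCoeff (psi P (X s)) = eval P (X s)
      unfold psi
      rw [aeval_X, eval_X]
      refine Fin.cases ?_ (fun j => ?_) s
      · simp
      · simp
  exact RingHom.congr_fun this f

lemma psi_mem {n : ℕ} (P : Fin (n+1) → F) (k : ℕ) (f : MvPolynomial (Fin (n+1)) F)
    (hf : f ∈ ptI P ^ k) : psi P f ∈ idealOfVars ℕ F ^ k := by
  have h1 : ptI P ≤ (idealOfVars ℕ F).comap (psi P) := by
    unfold ptI
    rw [Ideal.span_le]
    rintro f ⟨_, hf⟩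
    rw [SetLike.mem_coe, Ideal.mem_comap]
    have := mem_pow_idealOfVars_iff' (σ := ℕ) (R := F) 1 (psi P f)
    rw [pow_one] at this
    rw [this]
    intro x hx
    have : x = 0 := by
      rw [← Finsupp.degree_eq_zero_iff]; omega
    rw [this, ← constantCoeff_eq, cc_psi, hf]
  exact ((Ideal.pow_right_mono h1 k).trans (Ideal.le_comap_pow _ k)) hf

/-- exponent as a finitely supported function -/
noncomputable def fs : ∀ n, E n → (ℕ →₀ ℕ)
  | 0, _ => 0
  | (n+1), a => Finsupp.single n a.1 + fs n a.2

lemma fs_ge : ∀ n (a : E n) (i : ℕ), n ≤ i → fs n a i = 0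
  | 0, _, _, _ => rfl
  | (n+1), a, i, h => by
      simp only [fs, Finsupp.add_apply]
      rw [fs_ge n a.2 i (by omega), Finsupp.single_apply, if_neg (by omega)]

lemma fs_inj : ∀ n, Function.Injective (fs n)
  | 0 => fun _ _ _ => rfl
  | (n+1) => by
      intro a b h
      have h1 : a.1 = b.1 := by
        have := DFunLike.congr_fun h n
        simp only [fs, Finsupp.add_apply, Finsupp.single_eq_same] at this
        rw [fs_ge n a.2 n le_rfl, fs_ge n b.2 n le_rfl] at this
        simpa using this
      have h2 : fs n a.2 = fs n b.2 := by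
        simp only [fs] at h
        rw [h1] at h
        exact add_left_cancel h
      exact Prod.ext h1 (fs_inj n h2)

lemma fs_degree : ∀ n (a : E n), (fs n a).degree = sz n a
  | 0, _ => by simp [fs, sz]
  | (n+1), a => by
      simp only [fs, sz]
      rw [map_add, Finsupp.degree_single, fs_degree n]

lemma mon_X : ∀ n (a : E n), mon n (fun i => (X i : MvPolynomial ℕ F)) a = monomial (fs n a) 1
  | 0, _ => by simp [mon, fs]
  | (n+1), a => by
      simp only [mon, fs]
      rw [mon_X n, X_pow_eq_monomial, monomial_mul, one_mul]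

lemma psi_pol {n : ℕ} (d : ℕ) (P : Fin (n+1) → F) (c : E n → F) :
    psi P (pol n d c) = ∑ α ∈ Box n d, C (∑ a ∈ Box n d, row d P α a * c a) *
      monomial (fs n α) 1 := by
  have h1 : ∀ a ∈ Box n d, psi P (C (c a) * (X 0 ^ (d - sz n a) * mon n (xv F n) a))
      = ∑ α ∈ Box n d, C (row d P α a * c a) * monomial (fs n α) 1 := by
    intro a ha
    rw [mem_Box] at ha
    have h2 : psi P (mon n (xv F n) a)
        = ∑ α ∈ Box n d, cw n (fun i => C (pv P i)) α a * 1 ^ (sz n a - sz n α)
          * mon n (fun i => (X i : MvPolynomial ℕ F)) α := by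
      rw [← mon_expand 1 n (fun i => C (pv P i)) (fun i => (X i : MvPolynomial ℕ F)) a d ha]
      have := mon_map ((psi P : MvPolynomial (Fin (n+1)) F →ₐ[F] MvPolynomial ℕ F) :
        MvPolynomial (Fin (n+1)) F →+* MvPolynomial ℕ F) n (xv F n) a
      refine this.trans ?_
      apply mon_congr
      intro i hi
      change psi P (xv F n i) = _
      unfold xv pv psi
      rw [dif_pos (by omega), dif_pos (by omega), aeval_X, mul_one]
      rfl
    have h3 : psi P (X 0) = C (P 0) := by
      unfold psi
      rw [aeval_X]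
      rfl
    have h4 : psi P (C (c a)) = C (c a) := by
      unfold psi
      rw [aeval_C]
      rfl
    rw [map_mul, map_mul, map_pow, h2, h3, h4, mul_sum, mul_sum]
    refine sum_congr rfl fun α _ => ?_
    unfold row
    rw [mon_X, one_pow, mul_one, map_mul, map_mul, cw_map, map_pow]
    ring
  rw [pol, map_sum, sum_congr rfl h1, sum_comm]
  refine sum_congr rfl fun α _ => ?_
  rw [← sum_mul, map_sum]

lemma psi_pol_coeff {n : ℕ} (d : ℕ) (P : Fin (n+1) → F) (c : E n → F) (α : E n)
    (hα : α ∈ Box n d) :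
    coeff (fs n α) (psi P (pol n d c)) = ∑ a ∈ Box n d, row d P α a * c a := by
  rw [psi_pol, coeff_sum, sum_eq_single_of_mem α hα]
  · rw [coeff_C_mul, coeff_monomial, if_pos rfl, mul_one]
  · intro β _ hne
    rw [coeff_C_mul, coeff_monomial, if_neg (fun h => hne (fs_inj n h)), mul_zero]

lemma row_of_mem {n : ℕ} (d k : ℕ) (P : Fin (n+1) → F) (c : E n → F)
    (h : pol n d c ∈ ptI P ^ k) (α : E n) (hα : sz n α < k) :
    ∑ a ∈ Box n d, row d P α a * c a = 0 := by
  by_cases hd : α ∈ Box n d
  · rw [← psi_pol_coeff d P c α hd]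
    have h1 := psi_mem P k _ h
    rw [mem_pow_idealOfVars_iff'] at h1
    exact h1 _ (by rw [fs_degree]; exact hα)
  · refine sum_eq_zero fun a ha => ?_
    rw [mem_Box] at ha hd
    unfold row
    rw [cw_eq_zero_of_lt n _ α a (by omega), mul_zero, zero_mul]

theorem pol_mem_iff {n : ℕ} (d k : ℕ) (P : Fin (n+1) → F) (hP : P 0 ≠ 0) (c : E n → F) :
    pol n d c ∈ ptI P ^ k ↔
      ∀ α : E n, sz n α < k → ∑ a ∈ Box n d, row d P α a * c a = 0 :=
  ⟨fun h α hα => row_of_mem d k P c h α hα, pol_mem d k P hP c⟩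

/-- the coefficients are determined by the form -/
lemma pol_inj {n : ℕ} (d : ℕ) (c : E n → F) (h : pol n d c = 0) : ∀ a ∈ Box n d, c a = 0 := by
  intro α hα
  have h1 := psi_pol_coeff d (fun i : Fin (n+1) => if i = 0 then (1:F) else 0) c α hα
  rw [h, map_zero, coeff_zero] at h1
  rw [sum_eq_single_of_mem α hα] at h1
  · unfold row at h1
    have h2 : pv (fun i : Fin (n+1) => if i = 0 then (1:F) else 0) = fun _ => 0 := by
      funext i
      unfold pv
      split_ifs with h3
      · exact if_neg (fun h4 => by simpa using congrArg Fin.val h4)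
      · rfl
    rw [h2, cw_zero_self] at h1
    simpa using h1.symm
  · intro a ha hne
    unfold row
    have h2 : pv (fun i : Fin (n+1) => if i = 0 then (1:F) else 0) = fun _ => 0 := by
      funext i
      unfold pv
      split_ifs with h3
      · exact if_neg (fun h4 => by simpa using congrArg Fin.val h4)
      · rfl
    rw [h2, cw_zero_ne n α a (Ne.symm hne), mul_zero, zero_mul]
where
  cw_zero_self : ∀ n (α : E n), cw n (fun _ => (0:F)) α α = 1
    | 0, _ => rfl
    | (n+1), α => by
        simp only [cw]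
        rw [cw_zero_self n, Nat.choose_self]
        simp
  cw_zero_ne : ∀ n (α a : E n), α ≠ a → cw n (fun _ => (0:F)) α a = 0
    | 0, _, _, h => absurd rfl h
    | (n+1), α, a, h => by
        simp only [cw]
        by_cases h1 : α.1 = a.1
        · have h2 : α.2 ≠ a.2 := fun h2 => h (Prod.ext h1 h2)
          rw [cw_zero_ne n _ _ h2, mul_zero]
        · rcases Nat.lt_or_gt_of_ne h1 with h2 | h2
          · rw [zero_pow (by omega)]
            simp
          · rw [Nat.choose_eq_zero_of_lt h2]
            simp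

end Pool.Agent.Helper46.EAH
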