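import Mathlib
import Pool.Agent.Helper46.EAH.Geo2
import Pool.Agent.Helper46.EAH.Kill

/-! The Hilbert function as a rank. -/

namespace Pool.Agent.Helper46.EAH

open Finset MvPolynomial

/-- exponents of degree at most `d` -/
abbrev Bx (n d : ℕ) : Type := {a : E n // a ∈ Box n d}

/-- index set of the conditions -/
abbrev Rw (n : ℕ) {r : ℕ} (k : Fin r → ℕ) : Type := Σ i : Fin r, Bx n (k i - 1)

/-- matrix of the conditions -/
def Mx {R : Type*} [CommRing R] {n r : ℕ} (k : Fin r → ℕ) (d : ℕ) (P : Fin r → Fin (n+1) → R) :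
    Matrix (Rw n k) (Bx n d) R :=
  fun x a => row d (P x.1) x.2.1 a.1

section rank

variable {F : Type*} [Field F]

/-- the parametrisation of forms as a linear map -/
noncomputable def polL (F : Type*) [Field F] (n d : ℕ) :
    (Bx n d → F) →ₗ[F] MvPolynomial (Fin (n+1)) F where
  toFun v := pol n d (ext0 v)
  map_add' v w := by
    unfold pol
    rw [← sum_add_distrib]
    refine sum_congr rfl fun a _ => ?_
    rw [ext0_add, map_add, add_mul]
  map_smul' t v := by
    unfold pol
    rw [RingHom.id_apply, smul_sum]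
    refine sum_congr rfl fun a _ => ?_
    rw [ext0_smul, map_mul, smul_eq_C_mul, mul_assoc]

lemma polL_inj (n d : ℕ) : Function.Injective (polL F n d) := by
  rw [← LinearMap.ker_eq_bot, LinearMap.ker_eq_bot']
  intro v hv
  exact ext0_inj v (pol_inj d (ext0 v) hv)

lemma finrank_homog (n d : ℕ) :
    Module.finrank F (homogeneousSubmodule (Fin (n+1)) F d) = (Box n d).card := by
  classical
  rw [card_Box, N_succ]
  have h1 : homogeneousSubmodule (Fin (n+1)) F d
      = restrictSupport F {s : Fin (n+1) →₀ ℕ | s.degree = d} := by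
    ext f
    rw [mem_restrictSupport_iff, mem_homogeneousSubmodule]
    constructor
    · intro hf s hs
      by_contra h
      exact (mem_support_iff.1 (Finset.mem_coe.1 hs)) (hf.coeff_eq_zero h)
    · intro hf s hs
      have := hf (Finset.mem_coe.2 (mem_support_iff.2 hs))
      rw [← this]
      exact (DFunLike.congr_fun Finsupp.degree_eq_weight_one s).symm
  have h2 : {s : Fin (n+1) →₀ ℕ | s.degree = d} =
      ((Finset.univ.finsuppAntidiag d : Finset (Fin (n+1) →₀ ℕ)) : Set (Fin (n+1) →₀ ℕ)) := by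
    ext s
    simp [Finsupp.degree_eq_sum]
  rw [h1, h2]
  rw [Module.finrank_eq_card_basis (basisRestrictSupport F
    ((Finset.univ.finsuppAntidiag d : Finset (Fin (n+1) →₀ ℕ)) : Set (Fin (n+1) →₀ ℕ)))]
  simp only [Finset.coe_sort_coe, Fintype.card_coe]
  rw [Finset.card_finsuppAntidiag_nat_eq_choose, Finset.card_univ, Fintype.card_fin]
  have : n + 1 + d - 1 = n + d := by omega
  rw [this, ← Nat.choose_symm_of_eq_add (n := n + d) (a := n) (b := d) rfl]

instance finite_homog (n d : ℕ) : Module.Finite F (homogeneousSubmodule (Fin (n+1)) F d) :=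
  Module.Finite.iff_fg.2 (homogeneousSubmodule_fg _ _ d)

lemma range_polL (n d : ℕ) :
    LinearMap.range (polL F n d) = homogeneousSubmodule (Fin (n+1)) F d := by
  apply Submodule.eq_of_le_of_finrank_eq
  · rintro _ ⟨v, rfl⟩
    exact pol_homog n d _
  · rw [LinearMap.finrank_range_of_inj (polL_inj n d), finrank_homog,
      Module.finrank_fintype_fun_eq_card, Fintype.card_coe]

/-- the ideal of the fat points -/
noncomputable def fatI {n r : ℕ} (P : Fin r → Fin (n + 1) → F) (k : Fin r → ℕ) :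
    Ideal (MvPolynomial (Fin (n + 1)) F) :=
  ⨅ i, ptI (P i) ^ k i

lemma map_ker {n r : ℕ} (k : Fin r → ℕ) (hk : ∀ i, 1 ≤ k i) (d : ℕ)
    (P : Fin r → Fin (n+1) → F) (hP : ∀ i, P i 0 ≠ 0) :
    (LinearMap.ker (Mx k d P).mulVecLin).map (polL F n d) =
      homogeneousSubmodule (Fin (n+1)) F d ⊓ (fatI P k).restrictScalars F := by
  have key : ∀ v : Bx n d → F, v ∈ LinearMap.ker (Mx k d P).mulVecLin ↔
      polL F n d v ∈ fatI P k := by
    intro v
    have e1 : polL F n d v = pol n d (ext0 v) := rfl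
    rw [e1, fatI, Ideal.mem_iInf, LinearMap.mem_ker, Matrix.mulVecLin_apply]
    have hrow : ∀ (i : Fin r) (α : E n), ∑ a ∈ Box n d, row d (P i) α a * ext0 v a
        = ∑ a : Bx n d, row d (P i) α a.1 * v a := by
      intro i α
      rw [← Finset.sum_coe_sort]
      refine sum_congr rfl fun a _ => ?_
      congr 1
      unfold ext0
      rw [dif_pos a.2]
    constructor
    · intro h i
      rw [pol_mem_iff d (k i) (P i) (hP i)]
      intro α hα
      rw [hrow]
      exact congrFun h ⟨i, ⟨α, (mem_Box n _ α).2 (by omega)⟩⟩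
    · intro h
      funext x
      have h1 := (pol_mem_iff d (k x.1) (P x.1) (hP x.1) (ext0 v)).1 (h x.1) x.2.1 (by
        have := (mem_Box n _ _).1 x.2.2
        have := hk x.1
        omega)
      rw [hrow] at h1
      exact h1
  ext f
  rw [Submodule.mem_map, Submodule.mem_inf, ← range_polL]
  constructor
  · rintro ⟨v, hv, rfl⟩
    exact ⟨⟨v, rfl⟩, (key v).1 hv⟩
  · rintro ⟨⟨v, rfl⟩, hv⟩
    exact ⟨v, (key v).2 hv, rfl⟩

/-- Hilbert function as a difference of dimensions -/
noncomputable def hilbert {n : ℕ} (J : Ideal (MvPolynomial (Fin (n + 1)) F)) (d : ℕ) : ℤ :=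
  (Module.finrank F (homogeneousSubmodule (Fin (n + 1)) F d) : ℤ) -
    (Module.finrank F (homogeneousSubmodule (Fin (n + 1)) F d ⊓ J.restrictScalars F :
      Submodule F (MvPolynomial (Fin (n + 1)) F)) : ℤ)

lemma hilbert_eq {n r : ℕ} (k : Fin r → ℕ) (hk : ∀ i, 1 ≤ k i) (d : ℕ)
    (P : Fin r → Fin (n+1) → F) (hP : ∀ i, P i 0 ≠ 0) :
    hilbert (fatI P k) d = (Module.finrank F (LinearMap.range (Mx k d P).mulVecLin) : ℤ) := by
  unfold hilbert
  rw [← map_ker k hk d P hP, finrank_homog]
  have h1 : Module.finrank F ((LinearMap.ker (Mx k d P).mulVecLin).map (polL F n d))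
      = Module.finrank F (LinearMap.ker (Mx k d P).mulVecLin) :=
    (LinearEquiv.finrank_eq (Submodule.equivMapOfInjective _ (polL_inj n d) _)).symm
  rw [h1]
  have h2 := LinearMap.finrank_range_add_finrank_ker (Mx k d P).mulVecLin
  rw [Module.finrank_fintype_fun_eq_card, Fintype.card_coe] at h2
  rw [← h2]
  push_cast
  ring

lemma card_Rw (n : ℕ) {r : ℕ} (k : Fin r → ℕ) (hk : ∀ i, 1 ≤ k i) :
    Fintype.card (Rw n k) = ∑ i, N n (k i) := by
  rw [Fintype.card_sigma]
  refine sum_congr rfl fun i _ => ?_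
  rw [Fintype.card_coe, card_Box, Nat.sub_add_cancel (hk i)]

lemma rank_le_rows {n r : ℕ} (k : Fin r → ℕ) (hk : ∀ i, 1 ≤ k i) (d : ℕ)
    (P : Fin r → Fin (n+1) → F) :
    Module.finrank F (LinearMap.range (Mx k d P).mulVecLin) ≤ ∑ i, N n (k i) := by
  rw [← card_Rw n k hk, ← Module.finrank_fintype_fun_eq_card (R := F) (η := Rw n k)]
  exact Submodule.finrank_le _

lemma rank_le_cols {n r : ℕ} (k : Fin r → ℕ) (d : ℕ) (P : Fin r → Fin (n+1) → F) :
    Module.finrank F (LinearMap.range (Mx k d P).mulVecLin) ≤ N n (d+1) := by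
  rw [← card_Box, ← Fintype.card_coe, ← Module.finrank_fintype_fun_eq_card (R := F)]
  exact LinearMap.finrank_range_le _

lemma rank_mono {n r : ℕ} (k : Fin r → ℕ) (d : ℕ) (P : Fin r → Fin (n+1) → F)
    (hP : ∀ i, P i 0 ≠ 0) :
    Module.finrank F (LinearMap.range (Mx k d P).mulVecLin)
      ≤ Module.finrank F (LinearMap.range (Mx k (d+1) P).mulVecLin) := by
  classical
  -- multiplication by the diagonal
  let T : (Rw n k → F) →ₗ[F] (Rw n k → F) :=
    LinearMap.pi (fun x => (P x.1 0) • LinearMap.proj x)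
  have hT : Function.Injective T := by
    intro v w h
    funext x
    have h1 : P x.1 0 * v x = P x.1 0 * w x := congrFun h x
    exact mul_left_cancel₀ (hP x.1) h1
  have h1 : Module.finrank F (LinearMap.range (Mx k d P).mulVecLin)
      = Module.finrank F ((LinearMap.range (Mx k d P).mulVecLin).map T) :=
    LinearEquiv.finrank_eq (Submodule.equivMapOfInjective _ hT _)
  rw [h1]
  apply Submodule.finrank_mono
  rintro _ ⟨_, ⟨v, rfl⟩, rfl⟩
  refine ⟨fun a => ext0 v a.1, ?_⟩
  funext x
  have e1 : (Mx k (d+1) P).mulVecLin (fun a => ext0 v a.1) x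
      = ∑ a : Bx n (d+1), row (d+1) (P x.1) x.2.1 a.1 * ext0 v a.1 := rfl
  have e2 : T ((Mx k d P).mulVecLin v) x
      = P x.1 0 * ∑ a : Bx n d, row d (P x.1) x.2.1 a.1 * v a := rfl
  rw [e1, e2, Finset.sum_coe_sort (Box n (d+1)) (fun a => row (d+1) (P x.1) x.2.1 a * ext0 v a)]
  have hsub : Box n d ⊆ Box n (d+1) := by
    intro a ha
    rw [mem_Box] at ha ⊢
    omega
  rw [← sum_subset hsub, ← Finset.sum_coe_sort, mul_sum]
  · refine sum_congr rfl fun a _ => ?_
    have h3 : ext0 v a.1 = v a := by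
      unfold ext0
      rw [dif_pos a.2]
    have h4 := (mem_Box n _ _).1 a.2
    rw [h3]
    unfold row
    rw [show d + 1 - sz n a.1 = (d - sz n a.1) + 1 by omega, pow_succ]
    ring
  · intro a _ ha
    unfold ext0
    rw [dif_neg ha, mul_zero]

end rank

end Pool.Agent.Helper46.EAH
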