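import Mathlib
import Pool.Agent.Helper46.EAH.Geo3
import Pool.Agent.Helper46.EAH.Final

/-! From the generic configuration to general points of projective space. -/

namespace Pool.Agent.Helper46.EAH

open Finset MvPolynomial

variable {F : Type} [Field F]

/-- the coordinate ring of the space of configurations -/
abbrev Cf (F : Type) [Field F] (n r : ℕ) : Type := MvPolynomial (Fin r × Fin (n+1)) F

/-- universal configuration -/
noncomputable def Pun (F : Type) [Field F] (n r : ℕ) (i : Fin r) (j : Fin (n+1)) : Cf F n r :=
  X (i, j)

/-- specialization to the generic affine configuration -/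
noncomputable def phiG (F : Type) [Field F] (n r : ℕ) : Cf F n r →ₐ[F] Gen F :=
  aeval (fun x : Fin r × Fin (n+1) => Fin.cases (1 : Gen F) (fun j : Fin n => gen F x.1 j) x.2)

lemma pv_map {R S : Type*} [CommSemiring R] [CommSemiring S] (f : R →+* S) {n : ℕ}
    (P : Fin (n+1) → R) (i : ℕ) : f (pv P i) = pv (fun j => f (P j)) i := by
  unfold pv
  split_ifs
  · rfl
  · exact map_zero f

lemma row_map {R S : Type*} [CommRing R] [CommRing S] (f : R →+* S) {n : ℕ} (d : ℕ)
    (P : Fin (n+1) → R) (α a : E n) : f (row d P α a) = row d (fun j => f (P j)) α a := by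
  unfold row
  rw [map_mul, map_pow, cw_map]
  congr 1
  exact cw_congr n _ _ (fun i _ => pv_map f P i) α a

lemma phiG_row (n r d : ℕ) (i : Fin r) (α a : E n) :
    phiG F n r (row d (Pun F n r i) α a) = cw n (gen F i) α a := by
  have h := row_map ((phiG F n r : Cf F n r →ₐ[F] Gen F) : Cf F n r →+* Gen F) d
    (Pun F n r i) α a
  refine h.trans ?_
  unfold row
  have h0 : ((phiG F n r : Cf F n r →ₐ[F] Gen F) : Cf F n r →+* Gen F) (Pun F n r i 0) = 1 := by
    change phiG F n r (X (i, 0)) = 1
    unfold phiG
    rw [aeval_X]
    rfl
  beta_reduce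
  rw [h0, one_pow, one_mul]
  apply cw_congr
  intro j hj
  unfold pv
  rw [dif_pos (by omega)]
  change phiG F n r (X (i, ⟨j+1, _⟩)) = _
  unfold phiG
  rw [aeval_X]
  rfl

lemma eval_row (n r d : ℕ) (P : Fin r → Fin (n+1) → F) (i : Fin r) (α a : E n) :
    eval (fun x : Fin r × Fin (n+1) => P x.1 x.2) (row d (Pun F n r i) α a) = row d (P i) α a := by
  rw [row_map]
  congr 1
  funext j
  change eval _ (X (i, j)) = _
  rw [eval_X]

/-- multiplicities extended by simple points -/
def exm {r : ℕ} (k : Fin r → ℕ) (i : ℕ) : ℕ := if h : i < r then k ⟨i, h⟩ else 1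

theorem generic_ker (n d r q : ℕ) (k : Fin r → ℕ)
    (hT : TInj F n d (range (r + q)) (exm k)) :
    ∃ G : Cf F n r, G ≠ 0 ∧ ∀ P : Fin r → Fin (n+1) → F,
      eval (fun x : Fin r × Fin (n+1) => P x.1 x.2) G ≠ 0 →
        Module.finrank F (LinearMap.ker (Mx k d P).mulVecLin) ≤ q := by
  classical
  -- the kernel at the generic configuration
  let V : Submodule (Gen F) (Bx n d → Gen F) :=
    { carrier := {v | ∀ i : Fin r, ∀ α : E n, sz n α < k i →
        Phi n d (gen F i) α (ext0 v) = 0}
      add_mem' := by
        intro v w hv hw i α hα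
        have : Phi n d (gen F i) α (ext0 (v + w))
            = Phi n d (gen F i) α (fun x => ext0 v x + ext0 w x) :=
          congrArg _ (funext fun x => ext0_add v w x)
        rw [this, Phi_add, hv i α hα, hw i α hα, add_zero]
      zero_mem' := by
        intro i α hα
        have hz : (ext0 (0 : Bx n d → Gen F)) = fun _ => 0 := by
          funext x
          unfold ext0
          split_ifs <;> rfl
        rw [hz]
        exact Phi_zero _ _ _ _ _ (fun _ _ => rfl)
      smul_mem' := by
        intro t v hv i α hα
        have : Phi n d (gen F i) α (ext0 (t • v))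
            = Phi n d (gen F i) α (fun x => t * ext0 v x) :=
          congrArg _ (funext fun x => ext0_smul t v x)
        rw [this, Phi_smul, hv i α hα, mul_zero] }
  have hdim : Module.finrank (Gen F) V ≤ q := by
    let f : V →ₗ[Gen F] (Fin q → Gen F) :=
      { toFun := fun v j => Phi n d (gen F (r + j)) (zE n) (ext0 v.1)
        map_add' := fun v w => by
          funext j
          rw [Pi.add_apply, ← Phi_add]
          exact congrArg _ (funext fun x => ext0_add v.1 w.1 x)
        map_smul' := fun t v => by
          funext j
          rw [RingHom.id_apply, Pi.smul_apply, smul_eq_mul, ← Phi_smul]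
          exact congrArg _ (funext fun x => ext0_smul t v.1 x) }
    have hf : Function.Injective f := by
      rw [← LinearMap.ker_eq_bot, LinearMap.ker_eq_bot']
      intro v hv
      apply Subtype.ext
      apply ext0_inj
      apply hT
      intro i hi α hα
      rw [mem_range] at hi
      unfold exm at hα
      split_ifs at hα with hir
      · exact v.2 ⟨i, hir⟩ α hα
      · rw [eq_zE_of_sz n α (by omega)]
        have h1 := congrFun hv ⟨i - r, by omega⟩
        have h2 : r + (i - r) = i := by omega
        change Phi n d (gen F (r + (i - r))) (zE n) (ext0 v.1) = 0 at h1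
        rwa [h2] at h1
    have := LinearMap.finrank_le_finrank_of_injective hf
    rwa [Module.finrank_fintype_fun_eq_card, Fintype.card_fin] at this
  -- coordinates killing the kernel
  have : Nonempty (Bx n d) := ⟨⟨zE n, (mem_Box n d _).2 (by rw [sz_zE]; omega)⟩⟩
  obtain ⟨y, hy⟩ := exists_killing (K := Gen F) (V := Bx n d → Gen F) (Y := Bx n d)
    (fun a => LinearMap.proj a) (range q) V (by
      intro v _ hv0
      by_contra hcon
      push Not at hcon
      exact hv0 (funext fun a => hcon a)) (by rw [card_range]; exact hdim)
  -- the extended matrix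
  let M : (Rw n k ⊕ Fin q) → Bx n d → Cf F n r :=
    Sum.elim (fun x a => row d (Pun F n r x.1) x.2.1 a.1)
      (fun j a => if a = y j then 1 else 0)
  obtain ⟨e, he⟩ := exists_det_ne_zero
    ((phiG F n r : Cf F n r →ₐ[F] Gen F) : Cf F n r →+* Gen F) M (by
      intro v hv
      apply hy v
      · intro i α hα
        have h1 := hv (.inl ⟨i, ⟨α, (mem_Box n _ α).2 (by omega)⟩⟩)
        rw [Phi, ← Finset.sum_coe_sort]
        refine Eq.trans ?_ h1
        refine sum_congr rfl fun a _ => ?_
        have h2 : ext0 v a.1 = v a := by
          unfold ext0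
          rw [dif_pos a.2]
        rw [h2]
        congr 1
        exact (phiG_row n r d i α a.1).symm
      · intro j hj
        rw [mem_range] at hj
        have h1 := hv (.inr ⟨j, hj⟩)
        have h2 : ∀ a : Bx n d, ((phiG F n r : Cf F n r →ₐ[F] Gen F) : Cf F n r →+* Gen F)
            (M (.inr ⟨j, hj⟩) a) * v a = if a = y j then v a else 0 := by
          intro a
          change ((phiG F n r : Cf F n r →ₐ[F] Gen F) : Cf F n r →+* Gen F)
            (if a = y j then 1 else 0) * v a = _
          split_ifs
          · rw [map_one, one_mul]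
          · rw [map_zero, zero_mul]
        rw [sum_congr rfl fun a _ => h2 a, sum_ite_eq' univ (y j)] at h1
        rw [if_pos (mem_univ _)] at h1
        exact h1)
  refine ⟨Matrix.det (Matrix.of fun i j => M (e i) j), fun h0 => he (by rw [h0, map_zero]), ?_⟩
  intro P hP
  -- the kernel at `P`
  let g : LinearMap.ker (Mx k d P).mulVecLin →ₗ[F] (Fin q → F) :=
    (LinearMap.pi (fun j : Fin q => (LinearMap.proj (y j) : (Bx n d → F) →ₗ[F] F))).comp
      (Submodule.subtype _)
  have hg : Function.Injective g := by
    rw [← LinearMap.ker_eq_bot, LinearMap.ker_eq_bot']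
    intro v hv
    apply Subtype.ext
    refine kernel_of_det (eval (fun x : Fin r × Fin (n+1) => P x.1 x.2)) M e hP v.1 ?_
    intro x
    match x with
    | .inl x =>
      have h1 := congrFun (LinearMap.mem_ker.1 v.2) x
      refine Eq.trans ?_ h1
      refine sum_congr rfl fun a _ => ?_
      congr 1
      exact eval_row n r d P x.1 x.2.1 a.1
    | .inr j =>
      have h2 : ∀ a : Bx n d, eval (fun x : Fin r × Fin (n+1) => P x.1 x.2)
          (M (.inr j) a) * v.1 a = if a = y j then v.1 a else 0 := by
        intro a
        change eval _ (if a = y j then 1 else 0) * v.1 a = _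
        split_ifs
        · rw [map_one, one_mul]
        · rw [map_zero, zero_mul]
      rw [sum_congr rfl fun a _ => h2 a, sum_ite_eq' univ (y j), if_pos (mem_univ _)]
      exact congrFun hv j
  have := LinearMap.finrank_le_finrank_of_injective hg
  rwa [Module.finrank_fintype_fun_eq_card, Fintype.card_fin] at this

end Pool.Agent.Helper46.EAH
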