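import Mathlib
import Pool.Agent.Helper46.EAH.Geo4

/-! The Hilbert function of general fat points in high degree. -/

namespace Pool.Agent.Helper46.EAH

open Finset MvPolynomial

variable {F : Type} [Field F]

lemma N_ge_self (n : ℕ) (hn : 1 ≤ n) (a : ℕ) : a ≤ N n a := by
  induction n, hn using Nat.le_induction with
  | base => rw [N_dim_one]
  | succ n hn ih =>
    rcases Nat.eq_zero_or_pos a with h | h
    · omega
    · have := N_rec' n h
      omega

lemma sum_exm (n : ℕ) {r : ℕ} (q : ℕ) (k : Fin r → ℕ) :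
    ∑ i ∈ range (r + q), N n (exm k i) = ∑ i, N n (k i) + q := by
  rw [Finset.sum_range_add, Finset.sum_range]
  congr 1
  · refine sum_congr rfl fun i _ => ?_
    unfold exm
    rw [dif_pos i.2]
  · have : ∀ j ∈ range q, N n (exm k (r + j)) = 1 := by
      intro j _
      unfold exm
      rw [dif_neg (by omega), N_one]
    rw [sum_congr rfl this, sum_const, card_range, smul_eq_mul, mul_one]

lemma exm_le {m r : ℕ} (hm : 1 ≤ m) (k : Fin r → ℕ) (hk : ∀ i, k i ≤ m) (i : ℕ) :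
    exm k i ≤ m := by
  unfold exm
  split_ifs
  · exact hk _
  · exact hm

lemma exm_pos {r : ℕ} (k : Fin r → ℕ) (hk : ∀ i, 1 ≤ k i) (i : ℕ) : 1 ≤ exm k i := by
  unfold exm
  split_ifs
  · exact hk _
  · exact le_rfl

lemma tinj_big {n m r : ℕ} (hm : 1 ≤ m) (k : Fin r → ℕ) (hk : ∀ i, k i ≤ m) {D d : ℕ}
    (hEX : EX F n m D) (hd : D ≤ d) :
    TInj F n d (range (r + (N n (d+1) - ∑ i, N n (k i)))) (exm k) := by
  refine hEX d hd _ _ (fun i _ => exm_le hm k hk i) ?_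
  rw [sum_exm]
  omega

lemma tinj_over {n m r : ℕ} (k : Fin r → ℕ) (hm : 1 ≤ m) (hk : ∀ i, k i ≤ m) {W d : ℕ}
    (hAP : AP1 F n m W) (hd : N n (d+1) + W ≤ ∑ i, N n (k i)) (q : ℕ) :
    TInj F n d (range (r + q)) (exm k) := by
  refine hAP d _ _ (fun i _ => exm_le hm k hk i) ?_
  rw [sum_exm]
  omega

lemma tinj_under {n m r : ℕ} (k : Fin r → ℕ) (hm : 1 ≤ m) (hk : ∀ i, k i ≤ m) {W d : ℕ}
    (hAP : AP2 F n m W) (hd : ∑ i, N n (k i) + W ≤ N n (d+1)) :
    TInj F n d (range (r + (N n (d+1) - ∑ i, N n (k i)))) (exm k) := by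
  classical
  refine hAP d _ _ (fun i _ => exm_le hm k hk i) ?_ ?_
  · have h1 : (range (r + (N n (d+1) - ∑ i, N n (k i)))) \ range r ⊆
        (range (r + (N n (d+1) - ∑ i, N n (k i)))).filter (fun i => exm k i = 1) := by
      intro i hi
      rw [mem_sdiff, mem_range, mem_range] at hi
      rw [mem_filter, mem_range]
      refine ⟨hi.1, ?_⟩
      unfold exm
      rw [dif_neg hi.2]
    have h2 := card_le_card h1
    rw [card_sdiff_of_subset (fun i hi => by
      rw [mem_range] at hi ⊢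
      omega), card_range, card_range] at h2
    omega
  · rw [sum_exm]
    omega

theorem hilbert_general (n m r : ℕ) (hn : 1 ≤ n) (hm : 1 ≤ m) (k : Fin r → ℕ)
    (hk1 : ∀ i, 1 ≤ k i) (hkm : ∀ i, k i ≤ m) (D W : ℕ) (hEX : EX F n m D)
    (hA1 : AP1 F n m W) (hA2 : AP2 F n m W) :
    ∃ G : Cf F n r, G ≠ 0 ∧ ∀ P : Fin r → Fin (n+1) → F,
      eval (fun x : Fin r × Fin (n+1) => P x.1 x.2) G ≠ 0 →
        (∀ i, P i 0 ≠ 0) ∧
        ∀ d, (D ≤ d ∨ N n (d+1) + W ≤ ∑ i, N n (k i) ∨ ∑ i, N n (k i) + W ≤ N n (d+1)) →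
          hilbert (fatI P k) d = ((min (N n (d+1)) (∑ i, N n (k i)) : ℕ) : ℤ) := by
  classical
  have hGd : ∀ d, ∃ G : Cf F n r, G ≠ 0 ∧ ((D ≤ d ∨ N n (d+1) + W ≤ ∑ i, N n (k i) ∨
      ∑ i, N n (k i) + W ≤ N n (d+1)) →
      ∀ P : Fin r → Fin (n+1) → F, eval (fun x : Fin r × Fin (n+1) => P x.1 x.2) G ≠ 0 →
        Module.finrank F (LinearMap.ker (Mx k d P).mulVecLin)
          ≤ N n (d+1) - ∑ i, N n (k i)) := by
    intro d
    by_cases hd : D ≤ d
    · obtain ⟨G, hG0, hG⟩ := generic_ker n d r _ k (tinj_big (F := F) hm k hkm hEX hd)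
      exact ⟨G, hG0, fun _ => hG⟩
    by_cases hd2 : N n (d+1) + W ≤ ∑ i, N n (k i)
    · obtain ⟨G, hG0, hG⟩ := generic_ker n d r _ k (tinj_over (F := F) k hm hkm hA1 hd2
        (N n (d+1) - ∑ i, N n (k i)))
      exact ⟨G, hG0, fun _ => hG⟩
    by_cases hd3 : ∑ i, N n (k i) + W ≤ N n (d+1)
    · obtain ⟨G, hG0, hG⟩ := generic_ker n d r _ k (tinj_under (F := F) k hm hkm hA2 hd3)
      exact ⟨G, hG0, fun _ => hG⟩
    exact ⟨1, one_ne_zero, fun h => absurd h (by tauto)⟩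
  choose G hG0 hG using hGd
  obtain ⟨d1, hd1D, hd1⟩ : ∃ d1, D ≤ d1 ∧ ∑ i, N n (k i) ≤ N n (d1+1) :=
    ⟨D + ∑ i, N n (k i), by omega, by
      have := N_ge_self n hn (D + ∑ i, N n (k i) + 1)
      omega⟩
  refine ⟨(∏ i : Fin r, X (i, 0)) * ∏ d ∈ range (d1+1), G d, ?_, ?_⟩
  · apply mul_ne_zero
    · exact prod_ne_zero_iff.2 fun i _ => X_ne_zero _
    · exact prod_ne_zero_iff.2 fun d _ => hG0 d
  intro P hP
  rw [map_mul, map_prod, map_prod] at hP
  have h1 := left_ne_zero_of_mul hP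
  have h2 := right_ne_zero_of_mul hP
  have hP0 : ∀ i, P i 0 ≠ 0 := by
    intro i
    have := prod_ne_zero_iff.1 h1 i (mem_univ _)
    rwa [eval_X] at this
  refine ⟨hP0, ?_⟩
  -- low degrees
  have hlow : ∀ d, d ≤ d1 → (D ≤ d ∨ N n (d+1) + W ≤ ∑ i, N n (k i) ∨
      ∑ i, N n (k i) + W ≤ N n (d+1)) →
      Module.finrank F (LinearMap.range (Mx k d P).mulVecLin)
        = min (N n (d+1)) (∑ i, N n (k i)) := by
    intro d hdd hd
    have h3 := hG d hd P (prod_ne_zero_iff.1 h2 d (mem_range.2 (by omega)))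
    have h4 := LinearMap.finrank_range_add_finrank_ker (Mx k d P).mulVecLin
    rw [Module.finrank_fintype_fun_eq_card, Fintype.card_coe, card_Box] at h4
    have h5 := rank_le_rows k hk1 d P
    have h6 := rank_le_cols k d P
    omega
  intro d hd
  rw [hilbert_eq k hk1 d P hP0]
  congr 1
  by_cases hdd : d ≤ d1
  · exact hlow d hdd hd
  · push Not at hdd
    have h3 := hlow d1 le_rfl (Or.inl hd1D)
    rw [min_eq_right hd1] at h3
    have h4 : N n (d1+1) ≤ N n (d+1) := N_mono (by omega)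
    rw [min_eq_right (hd1.trans h4)]
    apply le_antisymm (rank_le_rows k hk1 d P)
    rw [← h3]
    have h5 : ∀ e, d1 ≤ e → Module.finrank F (LinearMap.range (Mx k d1 P).mulVecLin)
        ≤ Module.finrank F (LinearMap.range (Mx k e P).mulVecLin) := by
      intro e he
      induction e, he using Nat.le_induction with
      | base => exact le_rfl
      | succ e he ih => exact ih.trans (rank_mono k e P hP0)
    exact h5 d hdd.le

/-- approximate statements in all degrees -/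
theorem ap_all (k : Type) [Field k] (n m : ℕ) (hn : 1 ≤ n) (hm : 1 ≤ m) (W : ℕ)
    (hW : (2 * (n:ℝ) * m) ^ (((n:ℝ) - 1) * (2 + Har n)) ≤ W) : AP1 k n m W ∧ AP2 k n m W := by
  rcases Nat.eq_or_lt_of_le hn with h | h
  · subst h
    exact ⟨AP1_mono (ap1_one k m) (Nat.zero_le _), AP2_mono (ap2_one k m) (Nat.zero_le _)⟩
  · apply (good_all k n m h hm).1 W
    refine le_trans (le_of_eq ?_) hW
    unfold uu
    have hx0 : (0:ℝ) ≤ 2 * n * m := by positivity
    rw [← Real.rpow_natCast, ← Real.rpow_mul hx0]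
    congr 1
    rw [Nat.cast_sub hn]
    push_cast
    ring

end Pool.Agent.Helper46.EAH
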